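import Pool.Agent.H309.SD.Reach

/-! The basic pulse: smallness at `0` and negative moments. -/

open MeasureTheory Set
open scoped ENNReal Real ComplexConjugate

namespace Pool.Agent.H309.SD

/-- The weight. -/
noncomputable def wt (x : ℝ) : ℝ := ((1 + x ^ 2) ^ 2)⁻¹

lemma wt_pos (x : ℝ) : 0 < wt x := by unfold wt; positivity
lemma wt_cont : Continuous wt := by
  unfold wt
  exact Continuous.inv₀ (by fun_prop) (fun x => by positivity)

lemma A0_eq (x : ℝ) : A0 x = ⟨Real.cos (om x), Real.sin (om x) * (x / om x)⟩ := by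
  unfold A0
  apply Complex.ext
  · simp [-Complex.ofReal_cos, -Complex.ofReal_sin, -Complex.ofReal_div]
  · simp [-Complex.ofReal_cos, -Complex.ofReal_sin, -Complex.ofReal_div]

lemma B0_norm (x : ℝ) : ‖B0 x‖ = π / 2 * (|Real.sin (om x)| / om x) := by
  unfold B0
  rw [norm_mul, norm_mul, norm_neg, Complex.norm_I, one_mul, norm_mul, Complex.norm_real,
    Complex.norm_real, Complex.norm_real, Real.norm_eq_abs, Real.norm_eq_abs, Real.norm_eq_abs,
    abs_of_pos (by positivity : (0 : ℝ) < π / 2), abs_div, abs_one, abs_of_pos (om_pos x)]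
  ring

lemma A0_ge (x : ℝ) : |x| / om x ≤ ‖A0 x‖ := by
  have h : |x| / om x = |x / om x| := by rw [abs_div, abs_of_pos (om_pos x)]
  rw [h, A0_eq, Complex.norm_def, Complex.normSq_mk]
  apply Real.le_sqrt_of_sq_le
  rw [sq_abs]
  have h1 := Real.sin_sq_add_cos_sq (om x)
  have h2 : (x / om x) ^ 2 ≤ 1 := by
    rw [div_pow, div_le_one (by have := om_pos x; positivity), om_sq]
    nlinarith [sq_nonneg (π / 2)]
  nlinarith [sq_nonneg (Real.cos (om x)), sq_nonneg (Real.sin (om x))]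

lemma A0_small (x : ℝ) : ‖A0 x‖ ≤ 2 * |x| := by
  have hp := om_pos x
  have h1 : |Real.cos (om x)| ≤ |x| := by
    have e1 : Real.cos (om x) = -Real.sin (om x - π / 2) := by rw [Real.sin_sub_pi_div_two, neg_neg]
    have e2 : 0 ≤ om x - π / 2 := by
      have := om_sq x
      nlinarith [sq_nonneg x, Real.pi_pos]
    have e3 : om x - π / 2 ≤ |x| := by
      have := om_sq x
      have h3 : om x ^ 2 ≤ (|x| + π / 2) ^ 2 := by
        rw [this]; nlinarith [sq_abs x, abs_nonneg x, Real.pi_pos]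
      have := abs_le_of_sq_le_sq h3 (by positivity)
      rw [abs_of_pos hp] at this
      linarith
    rw [e1, abs_neg]
    calc |Real.sin (om x - π / 2)| ≤ |om x - π / 2| := Real.abs_sin_le_abs
      _ = om x - π / 2 := abs_of_nonneg e2
      _ ≤ _ := e3
  have h2 : |Real.sin (om x) * (x / om x)| ≤ |x| := by
    rw [abs_mul, abs_div, abs_of_pos hp]
    have hs := Real.abs_sin_le_one (om x)
    have h3 : |x| / om x ≤ |x| := div_le_self (abs_nonneg _) (om_ge_one x)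
    calc |Real.sin (om x)| * (|x| / om x) ≤ 1 * |x| :=
          mul_le_mul hs h3 (by positivity) (by norm_num)
      _ = _ := one_mul _
  rw [A0_eq]
  refine (Complex.norm_le_abs_re_add_abs_im _).trans ?_
  simp only
  linarith

lemma A0_smooth : Smooth A0 := by
  obtain ⟨h1, h2, h3, h4⟩ := base_smooth
  exact h1.add ((h2.mul h3).constMul _)

lemma B0_smooth : Smooth B0 := by
  obtain ⟨h1, h2, h3, h4⟩ := base_smooth
  exact (h2.mul h4).constMul _

lemma lint_inv : ∫⁻ x : ℝ, ENNReal.ofReal ((1 + x ^ 2)⁻¹) < ⊤ :=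
  integrable_inv_one_add_sq.lintegral_lt_top

lemma lint_sin : ∫⁻ y in Ioi (0 : ℝ), ENNReal.ofReal ((1 + y ^ 2)⁻¹)
    * ‖Real.sin y‖ₑ ^ (-(1 / 2 : ℝ)) < ⊤ := by
  have hsub : Ioi (0 : ℝ) ⊆ ⋃ k : ℕ, Ioc (((k : ℤ) : ℝ) * π) ((((k : ℤ) : ℝ) + 1) * π) := by
    intro y hy
    have hy : 0 < y := hy
    simp only [mem_iUnion, mem_Ioc]
    refine ⟨⌈y / π⌉₊ - 1, ?_⟩
    have h1 : 0 < y / π := by positivity
    have h2 : 1 ≤ ⌈y / π⌉₊ := Nat.one_le_ceil_iff.2 h1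
    have h3 := Nat.ceil_lt_add_one h1.le
    have h4 := Nat.le_ceil (y / π)
    have h5 : (((⌈y / π⌉₊ - 1 : ℕ) : ℤ) : ℝ) = (⌈y / π⌉₊ : ℝ) - 1 := by
      push_cast [Nat.cast_sub h2]; ring
    rw [h5]
    have hp := Real.pi_pos
    constructor
    · have : (⌈y / π⌉₊ : ℝ) - 1 < y / π := by linarith
      calc _ < y / π * π := by gcongr
        _ = y := by field_simp
    · calc y = y / π * π := by field_simp
        _ ≤ (⌈y / π⌉₊ : ℝ) * π := by gcongr
        _ = _ := by ring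
  refine lt_of_le_of_lt (lintegral_mono_set hsub) ?_
  refine lt_of_le_of_lt (lintegral_iUnion_le _ _) ?_
  have hk : ∀ k : ℕ, ∫⁻ y in Ioc (((k : ℤ) : ℝ) * π) ((((k : ℤ) : ℝ) + 1) * π),
      ENNReal.ofReal ((1 + y ^ 2)⁻¹) * ‖Real.sin y‖ₑ ^ (-(1 / 2 : ℝ))
      ≤ ENNReal.ofReal (2 / ((k : ℝ) + 1) ^ 2) * I0 := by
    intro k
    rw [← I0_shift (k : ℤ)]
    rw [← lintegral_const_mul' _ _ ENNReal.ofReal_ne_top]
    apply setLIntegral_mono' measurableSet_Ioc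
    intro y hy
    gcongr
    have h1 : (k : ℝ) ≤ y := by
      have := hy.1
      have h3 := Real.pi_gt_three
      push_cast at this
      nlinarith [(Nat.cast_nonneg k : (0 : ℝ) ≤ k)]
    rw [inv_eq_one_div, div_le_div_iff₀ (by positivity) (by positivity)]
    have hk0 : (0 : ℝ) ≤ k := Nat.cast_nonneg k
    nlinarith [sq_nonneg ((k : ℝ) - 1)]
  refine lt_of_le_of_lt (ENNReal.tsum_le_tsum hk) ?_
  rw [ENNReal.tsum_mul_right]
  apply ENNReal.mul_lt_top _ I0_lt_top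
  have hs : Summable (fun k : ℕ => 2 / ((k : ℝ) + 1) ^ 2) := by
    have h1 := (Real.summable_one_div_nat_pow (p := 2)).2 (by norm_num)
    have h2 := (summable_nat_add_iff 1).2 h1
    have h3 := h2.mul_left 2
    refine h3.congr fun k => ?_
    push_cast; ring
  rw [← ENNReal.ofReal_tsum_of_nonneg (fun k => by positivity) hs]
  exact ENNReal.ofReal_lt_top

lemma om_cont : Continuous om := by unfold om; fun_prop

lemma lint_sin_om : ∫⁻ x : ℝ, ENNReal.ofReal ((1 + x ^ 2)⁻¹)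
    * ‖Real.sin (om x)‖ₑ ^ (-(1 / 2 : ℝ)) < ⊤ := by
  set h : ℝ → ℝ≥0∞ := fun x => ENNReal.ofReal ((1 + x ^ 2)⁻¹)
    * ‖Real.sin (om x)‖ₑ ^ (-(1 / 2 : ℝ)) with hh
  have hpi1 := Real.pi_gt_d2
  have hpi2 := Real.pi_lt_d2
  -- the right part
  have hright : ∫⁻ x in Ioi (1 : ℝ), h x < ⊤ := by
    have hcv := lintegral_image_eq_lintegral_abs_deriv_mul (s := Ioi (1 : ℝ)) (f := om)
      (f' := fun x => x / om x) measurableSet_Ioi
      (fun x _ => (hasDerivAt_om x).hasDerivWithinAt) (by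
        intro x hx y hy hxy
        have h1 := om_sq x; have h2 := om_sq y
        rw [hxy] at h1
        have hx : 1 < x := hx
        have hy : 1 < y := hy
        nlinarith) (fun y => ENNReal.ofReal ((1 + y ^ 2)⁻¹) * ‖Real.sin y‖ₑ ^ (-(1 / 2 : ℝ)))
    have h1 : ∫⁻ x in Ioi (1 : ℝ), h x ≤ ∫⁻ x in Ioi (1 : ℝ), 8 * (ENNReal.ofReal |x / om x|
        * (ENNReal.ofReal ((1 + om x ^ 2)⁻¹) * ‖Real.sin (om x)‖ₑ ^ (-(1 / 2 : ℝ)))) := by
      apply setLIntegral_mono' measurableSet_Ioi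
      intro x hx
      have hx : 1 < x := hx
      rw [hh]
      simp only
      rw [← mul_assoc, ← mul_assoc]
      gcongr
      rw [show (8 : ℝ≥0∞) = ENNReal.ofReal 8 by norm_num, ← ENNReal.ofReal_mul (by norm_num),
        ← ENNReal.ofReal_mul (by positivity)]
      apply ENNReal.ofReal_le_ofReal
      have hp := om_pos x
      have hsq := om_sq x
      have e1 : om x ≤ 2 * x := by nlinarith
      have e2 : 1 / 2 ≤ |x / om x| := by
        rw [abs_of_pos (by positivity), div_le_div_iff₀ (by norm_num) hp]; linarith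
      have e3 : (1 + x ^ 2)⁻¹ ≤ 4 * (1 + om x ^ 2)⁻¹ := by
        rw [← div_eq_mul_inv, inv_eq_one_div, div_le_div_iff₀ (by positivity) (by positivity)]
        nlinarith
      have e4 : 0 ≤ (1 + om x ^ 2)⁻¹ := by positivity
      nlinarith
    refine lt_of_le_of_lt h1 ?_
    rw [lintegral_const_mul' _ _ (by simp), ← hcv]
    apply ENNReal.mul_lt_top (by simp)
    refine lt_of_le_of_lt (lintegral_mono_set ?_) lint_sin
    rintro y ⟨x, -, rfl⟩
    exact om_pos x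
  have heven : ∀ x, h (-x) = h x := by
    intro x; simp [hh, om]
  have hleft : ∫⁻ x in Iio (-1 : ℝ), h x < ⊤ := by
    have h1 := (Measure.measurePreserving_neg (volume : Measure ℝ)).setLIntegral_comp_preimage
      (s := Ioi (1 : ℝ)) measurableSet_Ioi (f := h) (by
        have := om_cont
        rw [hh]; fun_prop)
    have h3 : (Neg.neg : ℝ → ℝ) ⁻¹' Ioi (1 : ℝ) = Iio (-1) := by
      ext x; simp only [mem_preimage, mem_Ioi, mem_Iio]
      constructor <;> intro h <;> linarith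
    rw [h3] at h1
    simp only [heven] at h1
    rw [h1]; exact hright
  have hmid : ∫⁻ x in Icc (-1 : ℝ) 1, h x < ⊤ := by
    have h1 : ∫⁻ x in Icc (-1 : ℝ) 1, h x ≤ ∫⁻ x in Icc (-1 : ℝ) 1, (2 : ℝ≥0∞) := by
      apply setLIntegral_mono' measurableSet_Icc
      intro x hx
      have hp := om_pos x
      have hsq := om_sq x
      have hx2 : x ^ 2 ≤ 1 := by nlinarith [hx.1, hx.2]
      have e1 : om x ≤ 2 := by nlinarith
      have e2 : π / 2 ≤ om x := by nlinarith [sq_nonneg x]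
      have e3 : 1 / 2 ≤ Real.sin (om x) := by
        have : Real.sin (om x) = Real.cos (om x - π / 2) := by rw [Real.cos_sub_pi_div_two]
        rw [this]
        have h4 := Real.one_sub_sq_div_two_le_cos (x := om x - π / 2)
        nlinarith
      have e4 : ‖Real.sin (om x)‖ₑ ^ (-(1 / 2 : ℝ)) ≤ 2 := by
        have h5 : (2 : ℝ≥0∞)⁻¹ ≤ ‖Real.sin (om x)‖ₑ := by
          rw [Real.enorm_eq_ofReal (by linarith)]
          rw [show (2 : ℝ≥0∞)⁻¹ = ENNReal.ofReal (1 / 2) by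
            rw [one_div, ENNReal.ofReal_inv_of_pos (by norm_num)]; simp]
          exact ENNReal.ofReal_le_ofReal e3
        calc ‖Real.sin (om x)‖ₑ ^ (-(1 / 2 : ℝ)) ≤ ((2 : ℝ≥0∞)⁻¹) ^ (-(1 / 2 : ℝ)) :=
              neg_anti (by norm_num) h5
          _ = 2 ^ (1 / 2 : ℝ) := by rw [ENNReal.inv_rpow, ENNReal.rpow_neg, inv_inv]
          _ ≤ 2 ^ (1 : ℝ) := ENNReal.rpow_le_rpow_of_exponent_le (by norm_num) (by norm_num)
          _ = 2 := by simp
      have e5 : ENNReal.ofReal ((1 + x ^ 2)⁻¹) ≤ 1 := by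
        rw [ENNReal.ofReal_le_one]
        exact inv_le_one_of_one_le₀ (by nlinarith [sq_nonneg x])
      calc h x ≤ 1 * 2 := mul_le_mul' e5 e4
        _ = 2 := one_mul _
    refine lt_of_le_of_lt h1 ?_
    rw [lintegral_const]
    simp
    exact ENNReal.mul_lt_top (by simp) (by simp)
  have hcover : (univ : Set ℝ) ⊆ (Iio (-1) ∪ Icc (-1) 1) ∪ Ioi 1 := by
    intro x _
    by_cases c1 : x < -1
    · left; left; exact c1
    · by_cases c2 : x ≤ 1
      · left; right; exact ⟨by linarith, c2⟩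
      · right; exact not_le.1 c2
  rw [← setLIntegral_univ]
  refine lt_of_le_of_lt (lintegral_mono_set hcover) ?_
  refine lt_of_le_of_lt (lintegral_union_le _ _ _) ?_
  refine ENNReal.add_lt_top.2 ⟨?_, hright⟩
  refine lt_of_le_of_lt (lintegral_union_le _ _ _) ?_
  exact ENNReal.add_lt_top.2 ⟨hleft, hmid⟩

lemma lint_abs : ∫⁻ x : ℝ, ENNReal.ofReal ((1 + x ^ 2)⁻¹) * ‖x‖ₑ ^ (-(1 / 2 : ℝ)) < ⊤ := by
  have h1 : ∀ x : ℝ, ENNReal.ofReal ((1 + x ^ 2)⁻¹) * ‖x‖ₑ ^ (-(1 / 2 : ℝ))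
      ≤ ENNReal.ofReal ((1 + x ^ 2)⁻¹)
        + (Ioc (-1 : ℝ) 1).indicator (fun x => ‖x‖ₑ ^ (-(1 / 2 : ℝ))) x := by
    intro x
    by_cases hx : x ∈ Ioc (-1 : ℝ) 1
    · rw [indicator_of_mem hx]
      refine le_trans ?_ le_add_self
      have e5 : ENNReal.ofReal ((1 + x ^ 2)⁻¹) ≤ 1 := by
        rw [ENNReal.ofReal_le_one]
        exact inv_le_one_of_one_le₀ (by nlinarith [sq_nonneg x])
      calc _ ≤ 1 * ‖x‖ₑ ^ (-(1 / 2 : ℝ)) := by gcongr
        _ = _ := one_mul _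
    · rw [indicator_of_notMem hx, add_zero]
      have : ‖x‖ₑ ^ (-(1 / 2 : ℝ)) ≤ 1 := by
        rw [ENNReal.rpow_neg]
        apply ENNReal.inv_le_one.2
        apply ENNReal.one_le_rpow _ (by norm_num)
        rw [← ofReal_norm, Real.norm_eq_abs]
        rw [← ENNReal.ofReal_one]
        apply ENNReal.ofReal_le_ofReal
        simp only [mem_Ioc, not_and_or, not_lt, not_le] at hx
        rcases hx with hx | hx
        · rw [abs_of_nonpos (by linarith)]; linarith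
        · exact hx.le.trans (le_abs_self x)
      calc _ ≤ ENNReal.ofReal ((1 + x ^ 2)⁻¹) * 1 := by gcongr
        _ = _ := mul_one _
  refine lt_of_le_of_lt (lintegral_mono h1) ?_
  rw [lintegral_add_left (by fun_prop), lintegral_indicator measurableSet_Ioc]
  exact ENNReal.add_lt_top.2 ⟨lint_inv, abs_moment_lt_top⟩

/-- **The negative moments of the basic pulse.** -/
lemma base_moment : ∫⁻ x : ℝ, ENNReal.ofReal (wt x)
    * (‖A0 x‖ₑ ^ (-(1 / 4 : ℝ)) * ‖B0 x‖ₑ ^ (-(1 / 4 : ℝ))) < ⊤ := by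
  have hpt : ∀ x : ℝ, ENNReal.ofReal (wt x)
      * (‖A0 x‖ₑ ^ (-(1 / 4 : ℝ)) * ‖B0 x‖ₑ ^ (-(1 / 4 : ℝ)))
      ≤ 2 * (ENNReal.ofReal ((1 + x ^ 2)⁻¹) * ‖x‖ₑ ^ (-(1 / 2 : ℝ))
        + ENNReal.ofReal ((1 + x ^ 2)⁻¹) * ‖Real.sin (om x)‖ₑ ^ (-(1 / 2 : ℝ))) := by
    intro x
    have hp := om_pos x
    have hsq := om_sq x
    have hpi1 := Real.pi_gt_d2
    have hpi2 := Real.pi_lt_d2
    have a1 : ‖x‖ₑ * ENNReal.ofReal ((om x)⁻¹) ≤ ‖A0 x‖ₑ := by
      rw [← ofReal_norm, ← ofReal_norm, ← ENNReal.ofReal_mul (norm_nonneg _)]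
      apply ENNReal.ofReal_le_ofReal
      rw [← div_eq_mul_inv]; exact A0_ge x
    have a2 : ‖Real.sin (om x)‖ₑ * ENNReal.ofReal ((om x)⁻¹) ≤ ‖B0 x‖ₑ := by
      rw [← ofReal_norm, ← ofReal_norm, ← ENNReal.ofReal_mul (norm_nonneg _)]
      apply ENNReal.ofReal_le_ofReal
      rw [← div_eq_mul_inv, B0_norm, Real.norm_eq_abs]
      have : 0 ≤ |Real.sin (om x)| / om x := by positivity
      nlinarith
    have b1 : ‖A0 x‖ₑ ^ (-(1 / 4 : ℝ))
        ≤ ‖x‖ₑ ^ (-(1 / 4 : ℝ)) * ENNReal.ofReal ((om x)⁻¹) ^ (-(1 / 4 : ℝ)) := by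
      rw [← ENNReal.mul_rpow_of_ne_top enorm_ne_top ENNReal.ofReal_ne_top]
      exact neg_anti (by norm_num) a1
    have b2 : ‖B0 x‖ₑ ^ (-(1 / 4 : ℝ))
        ≤ ‖Real.sin (om x)‖ₑ ^ (-(1 / 4 : ℝ)) * ENNReal.ofReal ((om x)⁻¹) ^ (-(1 / 4 : ℝ)) := by
      rw [← ENNReal.mul_rpow_of_ne_top enorm_ne_top ENNReal.ofReal_ne_top]
      exact neg_anti (by norm_num) a2
    have c1 : ENNReal.ofReal ((om x)⁻¹) ^ (-(1 / 4 : ℝ)) * ENNReal.ofReal ((om x)⁻¹) ^ (-(1 / 4 : ℝ))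
        ≤ ENNReal.ofReal (om x) := by
      rw [← ENNReal.rpow_add _ _ (by simpa using hp) ENNReal.ofReal_ne_top,
        ENNReal.ofReal_inv_of_pos hp, ENNReal.inv_rpow, ← ENNReal.rpow_neg]
      have h1 : 1 ≤ ENNReal.ofReal (om x) := by
        rw [← ENNReal.ofReal_one]; exact ENNReal.ofReal_le_ofReal (om_ge_one x)
      calc _ ≤ ENNReal.ofReal (om x) ^ (1 : ℝ) :=
            ENNReal.rpow_le_rpow_of_exponent_le h1 (by norm_num)
        _ = _ := ENNReal.rpow_one _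
    have c2 : ENNReal.ofReal (wt x) * ENNReal.ofReal (om x)
        ≤ 2 * ENNReal.ofReal ((1 + x ^ 2)⁻¹) := by
      rw [← ENNReal.ofReal_mul (wt_pos x).le, show (2 : ℝ≥0∞) = ENNReal.ofReal 2 by norm_num,
        ← ENNReal.ofReal_mul (by norm_num)]
      apply ENNReal.ofReal_le_ofReal
      have e1 : om x ≤ 2 * (1 + x ^ 2) := by nlinarith [sq_nonneg x]
      unfold wt
      rw [← div_eq_mul_inv, ← div_eq_inv_mul, div_le_div_iff₀ (by positivity) (by positivity)]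
      nlinarith [sq_nonneg x]
    have c3 : ‖x‖ₑ ^ (-(1 / 4 : ℝ)) * ‖Real.sin (om x)‖ₑ ^ (-(1 / 4 : ℝ))
        ≤ ‖x‖ₑ ^ (-(1 / 2 : ℝ)) + ‖Real.sin (om x)‖ₑ ^ (-(1 / 2 : ℝ)) := by
      refine (mul_le_sq_add_sq _ _).trans ?_
      rw [neg_sq, neg_sq]
      norm_num
    calc ENNReal.ofReal (wt x) * (‖A0 x‖ₑ ^ (-(1 / 4 : ℝ)) * ‖B0 x‖ₑ ^ (-(1 / 4 : ℝ)))
        ≤ ENNReal.ofReal (wt x) * ((‖x‖ₑ ^ (-(1 / 4 : ℝ))
          * ENNReal.ofReal ((om x)⁻¹) ^ (-(1 / 4 : ℝ))) * (‖Real.sin (om x)‖ₑ ^ (-(1 / 4 : ℝ))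
          * ENNReal.ofReal ((om x)⁻¹) ^ (-(1 / 4 : ℝ)))) := by gcongr
      _ = ENNReal.ofReal (wt x) * (ENNReal.ofReal ((om x)⁻¹) ^ (-(1 / 4 : ℝ))
          * ENNReal.ofReal ((om x)⁻¹) ^ (-(1 / 4 : ℝ))) * (‖x‖ₑ ^ (-(1 / 4 : ℝ))
            * ‖Real.sin (om x)‖ₑ ^ (-(1 / 4 : ℝ))) := by ring
      _ ≤ ENNReal.ofReal (wt x) * ENNReal.ofReal (om x) * (‖x‖ₑ ^ (-(1 / 2 : ℝ))
            + ‖Real.sin (om x)‖ₑ ^ (-(1 / 2 : ℝ))) := by gcongr
      _ ≤ (2 * ENNReal.ofReal ((1 + x ^ 2)⁻¹)) * (‖x‖ₑ ^ (-(1 / 2 : ℝ))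
            + ‖Real.sin (om x)‖ₑ ^ (-(1 / 2 : ℝ))) := by gcongr
      _ = _ := by ring
  refine lt_of_le_of_lt (lintegral_mono hpt) ?_
  rw [lintegral_const_mul' _ _ (by simp), lintegral_add_left (by fun_prop)]
  exact ENNReal.mul_lt_top (by simp) (ENNReal.add_lt_top.2 ⟨lint_abs, lint_sin_om⟩)

end Pool.Agent.H309.SD
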