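import Pool.Agent.H309.SD.Quad

/-! The five-fold composite of a matrix of `SU(2)`. A matrix of `SU(2)` is represented by its
first column. -/

open MeasureTheory Set Polynomial
open scoped ENNReal Real ComplexConjugate

namespace Pool.Agent.H309.SD

/-- The first column of the product of two matrices of the form `[[a, -b̄], [b, ā]]`. -/
noncomputable def pmul (x y : ℂ × ℂ) : ℂ × ℂ :=
  (x.1 * y.1 - conj x.2 * y.2, x.2 * y.1 + conj x.1 * y.2)

/-- A primitive third root of unity. -/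
noncomputable def ww : ℂ := ⟨-1 / 2, √3 / 2⟩

lemma ww_sq : ww ^ 2 + ww + 1 = 0 := by
  have h : (√3 : ℝ) * √3 = 3 := Real.mul_self_sqrt (by norm_num)
  apply Complex.ext
  · simp only [ww, sq, Complex.add_re, Complex.mul_re, Complex.one_re, Complex.zero_re]
    nlinarith
  · simp only [ww, sq, Complex.add_im, Complex.mul_im, Complex.one_im, Complex.zero_im]
    ring

lemma ww_conj : conj ww = -1 - ww := by
  apply Complex.ext
  · simp [ww]; norm_num
  · simp [ww]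

lemma ww_norm : ‖ww‖ = 1 := by
  have h : (√3 : ℝ) * √3 = 3 := Real.mul_self_sqrt (by norm_num)
  have h1 : Complex.normSq ww = 1 := by
    simp only [Complex.normSq_apply, ww]
    nlinarith
  rw [Complex.norm_def, h1, Real.sqrt_one]

lemma ww1_norm : ‖1 + ww‖ = 1 := by
  have h : 1 + ww = - (ww ^ 2) := by linear_combination ww_sq
  rw [h, norm_neg, norm_pow, ww_norm, one_pow]

/-- The five-fold composite. -/
noncomputable def comp5 (A B : ℂ) : ℂ × ℂ :=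
  pmul (A, B) (pmul (A, B) (pmul (A, ww * B) (pmul (A, (1 + ww) * B) (A, ww * B))))

lemma comp5_fst (A B : ℂ) : (comp5 A B).1 = A ^ 5 + B * conj B *
    ((ww ^ 2 - 1) * A ^ 3 + 2 * ww ^ 2 * A ^ 2 * conj A + (ww ^ 2 - ww) * A * conj A ^ 2
      - ww * conj A ^ 3) := by
  simp only [comp5, pmul, map_mul, map_add, map_one, ww_conj]
  have h := ww_sq
  generalize conj A = a
  generalize conj B = b
  generalize ww = w at *
  linear_combination (-1 * a * B^2 * b^2 * w - A*B^2*b^2 - A*B^2*b^2*w - A*a^2*B*b - A^2*a*B*b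
    + A^3*B*b) * h

lemma comp5_snd (A B : ℂ) : (comp5 A B).2 = B * (A ^ 4 + A ^ 3 * conj A
    + ww * A ^ 2 * conj A ^ 2 - ww ^ 2 * A * conj A ^ 3 + ww * conj A ^ 4
    + B * conj B * (ww ^ 2 * A ^ 2 + (ww ^ 2 - 2) * A * conj A - ww * conj A ^ 2)
    - (B * conj B) ^ 2) := by
  simp only [comp5, pmul, map_mul, map_add, map_one, ww_conj]
  have h := ww_sq
  generalize conj A = a
  generalize conj B = b
  generalize ww = w at *
  linear_combination (B^3*b^2 - B^3*b^2*w + a^2*B^2*b*w + 2*A*a*B^2*b + A*a^3*B + A^2*B^2*b) * h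

lemma comp5_small (A B : ℂ) (hA : ‖A‖ ≤ 1) (hB : ‖B‖ ≤ 1) : ‖(comp5 A B).1‖ ≤ 8 * ‖A‖ ^ 3 := by
  rw [comp5_fst]
  have h1 : ‖ww ^ 2 - 1‖ ≤ 2 := (norm_sub_le _ _).trans (by rw [norm_pow, ww_norm]; norm_num)
  have h2 : ‖ww ^ 2 - ww‖ ≤ 2 := (norm_sub_le _ _).trans (by rw [norm_pow, ww_norm]; norm_num)
  have hA0 := norm_nonneg A
  have hA5 : ‖A ^ 5‖ ≤ ‖A‖ ^ 3 := by
    rw [norm_pow]
    exact pow_le_pow_of_le_one hA0 hA (by norm_num)
  have hBB : ‖B * conj B‖ ≤ 1 := by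
    rw [norm_mul, Complex.norm_conj]
    nlinarith [norm_nonneg B]
  have t1 : ‖(ww ^ 2 - 1) * A ^ 3‖ ≤ 2 * ‖A‖ ^ 3 := by
    rw [norm_mul, norm_pow]; gcongr
  have t2 : ‖2 * ww ^ 2 * A ^ 2 * conj A‖ ≤ 2 * ‖A‖ ^ 3 := by
    simp only [norm_mul, norm_pow, ww_norm, Complex.norm_conj]
    norm_num
    apply le_of_eq; ring
  have t3 : ‖(ww ^ 2 - ww) * A * conj A ^ 2‖ ≤ 2 * ‖A‖ ^ 3 := by
    simp only [norm_mul, norm_pow, Complex.norm_conj]
    calc ‖ww ^ 2 - ww‖ * ‖A‖ * ‖A‖ ^ 2 ≤ 2 * ‖A‖ * ‖A‖ ^ 2 := by gcongr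
      _ = _ := by ring
  have t4 : ‖ww * conj A ^ 3‖ ≤ ‖A‖ ^ 3 := by
    simp only [norm_mul, norm_pow, ww_norm, Complex.norm_conj]; simp
  have s : ‖(ww ^ 2 - 1) * A ^ 3 + 2 * ww ^ 2 * A ^ 2 * conj A + (ww ^ 2 - ww) * A * conj A ^ 2
      - ww * conj A ^ 3‖ ≤ 7 * ‖A‖ ^ 3 := by
    refine (norm_sub_le _ _).trans ?_
    have := (norm_add_le ((ww ^ 2 - 1) * A ^ 3 + 2 * ww ^ 2 * A ^ 2 * conj A)
      ((ww ^ 2 - ww) * A * conj A ^ 2))
    have := (norm_add_le ((ww ^ 2 - 1) * A ^ 3) (2 * ww ^ 2 * A ^ 2 * conj A))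
    linarith
  refine (norm_add_le _ _).trans ?_
  rw [norm_mul]
  have : ‖B * conj B‖ * ‖(ww ^ 2 - 1) * A ^ 3 + 2 * ww ^ 2 * A ^ 2 * conj A
      + (ww ^ 2 - ww) * A * conj A ^ 2 - ww * conj A ^ 3‖ ≤ 1 * (7 * ‖A‖ ^ 3) := by
    gcongr
  linarith

/-- The polynomial of the first entry. -/
noncomputable def pP (a : ℂ) (n : ℂ) : ℂ[X] :=
  C (a ^ 5) * X ^ 8 + C (n * (ww ^ 2 - 1) * a ^ 3) * X ^ 6
    + C (n * 2 * ww ^ 2 * a ^ 2 * conj a) * X ^ 4
    + C (n * (ww ^ 2 - ww) * a * conj a ^ 2) * X ^ 2 + C (-(n * ww * conj a ^ 3))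

/-- The polynomial of the second entry. -/
noncomputable def pQ (a : ℂ) (n : ℂ) : ℂ[X] :=
  C (a ^ 4) * X ^ 8 + C (a ^ 3 * conj a + n * ww ^ 2 * a ^ 2) * X ^ 6
    + C (ww * a ^ 2 * conj a ^ 2 + n * (ww ^ 2 - 2) * a * conj a - n ^ 2) * X ^ 4
    + C (-(ww ^ 2 * a * conj a ^ 3) - n * ww * conj a ^ 2) * X ^ 2 + C (ww * conj a ^ 4)

lemma pP_deg (a n : ℂ) : (pP a n).natDegree ≤ 8 := by unfold pP; compute_degree
lemma pQ_deg (a n : ℂ) : (pQ a n).natDegree ≤ 8 := by unfold pQ; compute_degree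
lemma pP_coeff (a n : ℂ) : (pP a n).coeff 8 = a ^ 5 := by
  simp only [pP, coeff_add, coeff_C_mul, coeff_X_pow, coeff_C]
  norm_num
lemma pQ_coeff (a n : ℂ) : (pQ a n).coeff 8 = a ^ 4 := by
  simp only [pQ, coeff_add, coeff_C_mul, coeff_X_pow, coeff_C]
  norm_num

lemma pP_eval (a b : ℂ) (β : ℝ) :
    ‖(pP a (b * conj b)).eval (Complex.exp (β * Complex.I))‖
      = ‖(comp5 (Complex.exp (β * Complex.I) * a) (Complex.exp (-(β * Complex.I)) * b)).1‖ := by
  have hz : conj (Complex.exp (β * Complex.I)) = Complex.exp (-(β * Complex.I)) := by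
    rw [← Complex.exp_conj]; simp
  have hz' : conj (Complex.exp (-(β * Complex.I))) = Complex.exp (β * Complex.I) := by
    rw [← Complex.exp_conj]; simp
  have h1 : Complex.exp (β * Complex.I) * Complex.exp (-(β * Complex.I)) = 1 := by
    rw [← Complex.exp_add]; simp
  have hn : ‖Complex.exp (β * Complex.I) ^ 3‖ = 1 := by
    rw [norm_pow, Complex.norm_exp_ofReal_mul_I, one_pow]
  have : (pP a (b * conj b)).eval (Complex.exp (β * Complex.I))
      = Complex.exp (β * Complex.I) ^ 3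
        * (comp5 (Complex.exp (β * Complex.I) * a) (Complex.exp (-(β * Complex.I)) * b)).1 := by
    rw [comp5_fst]
    simp only [pP, eval_add, eval_mul, eval_C, eval_pow, eval_X, map_mul, hz, hz']
    generalize Complex.exp (β * Complex.I) = z at *
    generalize Complex.exp (-(β * Complex.I)) = y at *
    have h2 : z ^ 2 * y ^ 2 = 1 := by rw [← mul_pow, h1, one_pow]
    have h3 : z ^ 3 * y ^ 3 = 1 := by rw [← mul_pow, h1, one_pow]
    generalize conj a = a'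
    generalize conj b = b'
    have e1 : z ^ 3 * ((z * a) ^ 5 + y * b * (z * b') * ((ww ^ 2 - 1) * (z * a) ^ 3
        + 2 * ww ^ 2 * (z * a) ^ 2 * (y * a') + (ww ^ 2 - ww) * (z * a) * (y * a') ^ 2
        - ww * (y * a') ^ 3)) = z ^ 8 * a ^ 5 + (z * y) * b * b' * ((ww ^ 2 - 1) * z ^ 6 * a ^ 3
        + 2 * ww ^ 2 * z ^ 4 * a ^ 2 * a' * (z * y) + (ww ^ 2 - ww) * z ^ 2 * a * a' ^ 2
          * (z ^ 2 * y ^ 2) - ww * a' ^ 3 * (z ^ 3 * y ^ 3)) := by ring
    rw [e1, h1, h2, h3]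
    ring
  rw [this, norm_mul, hn, one_mul]

lemma pQ_eval (a b : ℂ) (β : ℝ) :
    ‖b‖ * ‖(pQ a (b * conj b)).eval (Complex.exp (β * Complex.I))‖
      = ‖(comp5 (Complex.exp (β * Complex.I) * a) (Complex.exp (-(β * Complex.I)) * b)).2‖ := by
  have hz : conj (Complex.exp (β * Complex.I)) = Complex.exp (-(β * Complex.I)) := by
    rw [← Complex.exp_conj]; simp
  have hz' : conj (Complex.exp (-(β * Complex.I))) = Complex.exp (β * Complex.I) := by
    rw [← Complex.exp_conj]; simp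
  have h1 : Complex.exp (β * Complex.I) * Complex.exp (-(β * Complex.I)) = 1 := by
    rw [← Complex.exp_add]; simp
  have hn : ‖Complex.exp (β * Complex.I) ^ 5‖ = 1 := by
    rw [norm_pow, Complex.norm_exp_ofReal_mul_I, one_pow]
  have : b * (pQ a (b * conj b)).eval (Complex.exp (β * Complex.I))
      = Complex.exp (β * Complex.I) ^ 5
        * (comp5 (Complex.exp (β * Complex.I) * a) (Complex.exp (-(β * Complex.I)) * b)).2 := by
    rw [comp5_snd]
    simp only [pQ, eval_add, eval_mul, eval_C, eval_pow, eval_X, map_mul, hz, hz']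
    generalize Complex.exp (β * Complex.I) = z at *
    generalize Complex.exp (-(β * Complex.I)) = y at *
    have h2 : z ^ 2 * y ^ 2 = 1 := by rw [← mul_pow, h1, one_pow]
    have h3 : z ^ 3 * y ^ 3 = 1 := by rw [← mul_pow, h1, one_pow]
    have h4 : z ^ 4 * y ^ 4 = 1 := by rw [← mul_pow, h1, one_pow]
    generalize conj a = a'
    generalize conj b = b'
    have e1 : z ^ 5 * (y * b * ((z * a) ^ 4 + (z * a) ^ 3 * (y * a')
        + ww * (z * a) ^ 2 * (y * a') ^ 2 - ww ^ 2 * (z * a) * (y * a') ^ 3 + ww * (y * a') ^ 4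
        + y * b * (z * b') * (ww ^ 2 * (z * a) ^ 2 + (ww ^ 2 - 2) * (z * a) * (y * a')
          - ww * (y * a') ^ 2) - (y * b * (z * b')) ^ 2))
        = (z * y) * b * (z ^ 8 * a ^ 4 + z ^ 6 * a ^ 3 * a' * (z * y)
        + ww * z ^ 4 * a ^ 2 * a' ^ 2 * (z ^ 2 * y ^ 2)
        - ww ^ 2 * z ^ 2 * a * a' ^ 3 * (z ^ 3 * y ^ 3) + ww * a' ^ 4 * (z ^ 4 * y ^ 4)
        + (z * y) * b * b' * (ww ^ 2 * z ^ 6 * a ^ 2 + (ww ^ 2 - 2) * z ^ 4 * a * a' * (z * y)
          - ww * z ^ 2 * a' ^ 2 * (z ^ 2 * y ^ 2)) - z ^ 4 * ((z * y) * b * b') ^ 2) := by ring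
    rw [e1, h1, h2, h3, h4]
    ring
  have h2 := congrArg norm this
  rw [norm_mul, norm_mul, hn, one_mul] at h2
  exact h2

/-- **The negative moments are propagated by the composite.** -/
lemma step_moment (κ : ℝ) (hκ : 0 < κ) (hκ2 : κ ≤ 1 / 32) : ∃ K : ℝ≥0∞, K < ⊤ ∧ ∀ a b : ℂ,
    ‖a‖ ≤ 1 →
    ∫⁻ β in Ioc 0 (2 * π),
      ‖(comp5 (Complex.exp (β * Complex.I) * a) (Complex.exp (-(β * Complex.I)) * b)).1‖ₑ ^ (-κ)
      * ‖(comp5 (Complex.exp (β * Complex.I) * a) (Complex.exp (-(β * Complex.I)) * b)).2‖ₑ ^ (-κ)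
      ≤ K * (‖a‖ₑ ^ (-(10 * κ)) * ‖b‖ₑ ^ (-κ)) := by
  obtain ⟨K, hK, hmom⟩ := circ_moment 8 (2 * κ) (by linarith) (by push_cast; linarith)
  refine ⟨K + K, by simp [hK], fun a b ha => ?_⟩
  have hmeas : ∀ p : ℂ[X], Measurable
      (fun β : ℝ => ‖p.eval (Complex.exp (β * Complex.I))‖ₑ ^ (-(2 * κ))) := fun p =>
    ((p.continuous.comp (by fun_prop : Continuous
      (fun β : ℝ => Complex.exp (β * Complex.I)))).measurable.enorm).pow_const _
  have ha' : ‖a‖ₑ ≤ 1 := by rw [← ofReal_norm]; exact ENNReal.ofReal_le_one.2 ha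
  have h1 := hmom (pP a (b * conj b)) (pP_deg _ _) 8
  have h2 := hmom (pQ a (b * conj b)) (pQ_deg _ _) 8
  rw [pP_coeff] at h1
  rw [pQ_coeff] at h2
  have hb : ∫⁻ β in Ioc 0 (2 * π),
      ‖(comp5 (Complex.exp (β * Complex.I) * a) (Complex.exp (-(β * Complex.I)) * b)).1‖ₑ ^ (-κ)
      * ‖(comp5 (Complex.exp (β * Complex.I) * a) (Complex.exp (-(β * Complex.I)) * b)).2‖ₑ ^ (-κ)
      ≤ ∫⁻ β in Ioc 0 (2 * π), ‖b‖ₑ ^ (-κ) *
        (‖(pP a (b * conj b)).eval (Complex.exp (β * Complex.I))‖ₑ ^ (-(2 * κ))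
        + ‖(pQ a (b * conj b)).eval (Complex.exp (β * Complex.I))‖ₑ ^ (-(2 * κ))) := by
    apply lintegral_mono
    intro β
    simp only
    have e1 : ‖(comp5 (Complex.exp (β * Complex.I) * a)
        (Complex.exp (-(β * Complex.I)) * b)).1‖ₑ
        = ‖(pP a (b * conj b)).eval (Complex.exp (β * Complex.I))‖ₑ := by
      rw [← ofReal_norm, ← ofReal_norm, pP_eval]
    have e2 : ‖(comp5 (Complex.exp (β * Complex.I) * a)
        (Complex.exp (-(β * Complex.I)) * b)).2‖ₑ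
        = ‖b‖ₑ * ‖(pQ a (b * conj b)).eval (Complex.exp (β * Complex.I))‖ₑ := by
      rw [← ofReal_norm, ← ofReal_norm, ← ofReal_norm, ← pQ_eval,
        ENNReal.ofReal_mul (norm_nonneg _)]
    rw [e1, e2, ENNReal.mul_rpow_of_ne_top enorm_ne_top enorm_ne_top]
    calc _ = ‖b‖ₑ ^ (-κ) * (‖(pP a (b * conj b)).eval (Complex.exp (β * Complex.I))‖ₑ ^ (-κ)
          * ‖(pQ a (b * conj b)).eval (Complex.exp (β * Complex.I))‖ₑ ^ (-κ)) := by ring
      _ ≤ _ := by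
        gcongr
        refine (mul_le_sq_add_sq _ _).trans ?_
        rw [neg_sq, neg_sq]
  refine hb.trans ?_
  rcases eq_or_ne b 0 with hb0 | hb0
  · rcases eq_or_ne (K + K) 0 with hK0 | hK0
    · have hK00 : K = 0 := by simpa using hK0
      rw [hK00, zero_mul] at h1
      exfalso
      have : ∫⁻ β in Ioc 0 (2 * π),
        ‖(pP a (b * conj b)).eval (Complex.exp (β * Complex.I))‖ₑ ^ (-(2 * κ)) ≠ 0 := by
        intro h0
        rw [lintegral_eq_zero_iff (hmeas _)] at h0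
        have hpos : (volume.restrict (Ioc 0 (2 * π))) univ ≠ 0 := by
          simp [Real.pi_pos]
        have : NeZero (volume.restrict (Ioc 0 (2 * π))) :=
          ⟨fun h => hpos (by rw [h]; simp)⟩
        obtain ⟨β, hβ⟩ := h0.exists
        simp only [Pi.zero_apply, ENNReal.rpow_eq_zero_iff] at hβ
        rcases hβ with ⟨_, h⟩ | ⟨h, _⟩
        · linarith
        · exact enorm_ne_top h
      exact this (le_antisymm h1 (by simp))
    · rw [hb0]
      simp only [enorm_zero]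
      rw [ENNReal.zero_rpow_of_neg (by linarith), ENNReal.mul_top (by
        rw [ENNReal.rpow_neg]; simp; intro _; linarith), ENNReal.mul_top hK0]
      exact le_top
  rw [lintegral_const_mul' _ _ (by
    apply ENNReal.rpow_ne_top_of_ne_zero
    · simpa using hb0
    · simp), lintegral_add_left (hmeas _)]
  have h3 : ‖a ^ 5‖ₑ ^ (-(2 * κ)) = ‖a‖ₑ ^ (-(10 * κ)) := by
    rw [enorm_pow, ← ENNReal.rpow_natCast, ← ENNReal.rpow_mul]; congr 1; push_cast; ring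
  have h4 : ‖a ^ 4‖ₑ ^ (-(2 * κ)) ≤ ‖a‖ₑ ^ (-(10 * κ)) := by
    rw [enorm_pow, ← ENNReal.rpow_natCast, ← ENNReal.rpow_mul]
    apply ENNReal.rpow_le_rpow_of_exponent_ge ha'
    push_cast; linarith
  rw [h3] at h1
  calc _ ≤ ‖b‖ₑ ^ (-κ) * (K * ‖a‖ₑ ^ (-(10 * κ)) + K * ‖a‖ₑ ^ (-(10 * κ))) := by
        gcongr
        exact h2.trans (by gcongr)
    _ = _ := by ring

end Pool.Agent.H309.SD
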