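import Mathlib

/-! Unfolded forms of the definitions of `Stmt.lean`, used in the proofs. -/

open MeasureTheory Set FourierTransform
open scoped ENNReal Real

namespace Pool.Agent.H309.SD

/-- The values of the solutions: `ℂ²` with its Euclidean norm. -/
abbrev E2 := EuclideanSpace ℂ (Fin 2)

/-- The Pauli matrix `σ₃`. -/
def sigma3 : Matrix (Fin 2) (Fin 2) ℂ := !![1, 0; 0, -1]

/-- The Fourier symbol of the operator `i σ₃ ∂ₓ + ν(t)` at the frequency `ξ`. In the convention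
of Mathlib, `𝓕 f ξ = ∫ e^(-2πixξ) f(x) dx`, the derivative `∂ₓ` has the symbol `2πiξ`. -/
noncomputable def symbol (ν : ℝ → Matrix (Fin 2) (Fin 2) ℂ) (t ξ : ℝ) :
    Matrix (Fin 2) (Fin 2) ℂ :=
  (Complex.I * (2 * π * Complex.I * ξ)) • sigma3 + ν t

/-- `α : [0,∞) → L²(ℝ; ℂ²)` solves the equation `i ∂ₜ α = (i σ₃ ∂ₓ + ν(t)) α`: for almost every
frequency `ξ` the Fourier transform of `α` at `ξ` is a continuous function of `t ≥ 0` which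
satisfies the ordinary differential equation `i a'(t) = (-2πξ σ₃ + ν(t)) a(t)` in integrated form,
`i (a(t) - a(0)) = ∫_0^t (-2πξ σ₃ + ν(s)) a(s) ds`. -/
def IsSolution (ν : ℝ → Matrix (Fin 2) (Fin 2) ℂ) (α : ℝ → Lp E2 2 (volume : Measure ℝ)) : Prop :=
  ∃ a : ℝ → ℝ → E2, (∀ t, 0 ≤ t → (𝓕 (α t) : Lp E2 2 (volume : Measure ℝ)) =ᵐ[volume] a t) ∧
    ∀ᵐ ξ : ℝ, ContinuousOn (fun t => a t ξ) (Ici 0) ∧ ∀ t, 0 ≤ t → ∀ i : Fin 2,
      Complex.I * (a t ξ i - a 0 ξ i)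
        = ∫ s in (0 : ℝ)..t, ((symbol ν s ξ).mulVec (WithLp.ofLp (a s ξ))) i

/-- The decay estimate of order `(r, σ)`: `‖α(t)‖_∞ ≤ c t^(-σ) ‖⟨i∂ₓ⟩^r α(0)‖_1` for all `t > 0`
and all solutions for which the right hand side is finite, that is for which there is an
integrable function `g = ⟨i∂ₓ⟩^r α(0)`, or `𝓕 g (ξ) = (1 + (2πξ)²)^(r/2) 𝓕 (α 0) (ξ)`. -/
def DecayEstimate (ν : ℝ → Matrix (Fin 2) (Fin 2) ℂ) (r σ : ℝ) : Prop :=
  ∃ c : ℝ, ∀ α : ℝ → Lp E2 2 (volume : Measure ℝ), IsSolution ν α →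
    ∀ g : ℝ → E2, Integrable g →
      (∀ᵐ ξ : ℝ, 𝓕 g ξ = (((1 + (2 * π * ξ) ^ 2) ^ (r / 2) : ℝ) : ℂ)
        • (𝓕 (α 0) : Lp E2 2 (volume : Measure ℝ)) ξ) →
      ∀ t : ℝ, 0 < t →
        eLpNorm (α t) ⊤ volume ≤ ENNReal.ofReal (c / t ^ σ) * eLpNorm g 1 volume

end Pool.Agent.H309.SD
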