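import Pool.Agent.H309.SD.Reach

/-! The periodic extension of a forcing, existence and uniqueness for the differential equation. -/

open MeasureTheory Set
open scoped ENNReal Real ComplexConjugate

namespace Pool.Agent.H309.SD

lemma pmul_assoc (a b c : ℂ × ℂ) : pmul (pmul a b) c = pmul a (pmul b c) := by
  simp only [pmul, map_sub, map_add, map_mul, Complex.conj_conj, Prod.mk.injEq]
  constructor <;> ring

lemma pmul_one (a : ℂ × ℂ) : pmul (1, 0) a = a := by
  simp [pmul]

/-- The number of the period. -/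
noncomputable def fl (T t : ℝ) : ℤ := ⌊t / T⌋

lemma fl_eq {T t : ℝ} (hT : 0 < T) (n : ℤ) (h1 : n * T ≤ t) (h2 : t < (n + 1) * T) :
    fl T t = n := by
  unfold fl
  rw [Int.floor_eq_iff]
  constructor
  · rw [le_div_iff₀ hT]; exact h1
  · rw [div_lt_iff₀ hT]; exact h2

/-- The periodic extension. -/
noncomputable def per {X : Type*} (T : ℝ) (d : ℝ → X) (t : ℝ) : X := d (t - fl T t * T)

lemma per_add {X : Type*} {T : ℝ} (hT : 0 < T) (d : ℝ → X) (t : ℝ) :
    per T d (t + T) = per T d t := by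
  unfold per
  have : fl T (t + T) = fl T t + 1 := by
    unfold fl
    rw [add_div, div_self hT.ne', Int.floor_add_one]
  rw [this]
  congr 1
  push_cast; ring

lemma per_meas {X : Type*} [MeasurableSpace X] {T : ℝ} {d : ℝ → X} (hd : Measurable d) :
    Measurable (per T d) := by
  unfold per fl
  apply hd.comp
  apply Measurable.sub measurable_id
  apply Measurable.mul_const
  exact measurable_from_top.comp (Int.measurable_floor.comp (measurable_id.div_const T))

/-- The propagator at the multiples of the period. -/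
noncomputable def Un (f g : ℝ → ℂ) : ℕ → ℝ → ℂ × ℂ
  | 0, _ => (1, 0)
  | n + 1, x => pmul (f x, g x) (Un f g n x)

/-- The propagator. -/
noncomputable def UU (T : ℝ) (p q : ℝ → ℝ → ℂ) (t x : ℝ) : ℂ × ℂ :=
  pmul (p (t - fl T t * T) x, q (t - fl T t * T) x) (Un (p T) (q T) (fl T t).toNat x)

lemma UU_eq {T : ℝ} {d : ℝ → ℝ} {e : ℝ → ℂ} {p q : ℝ → ℝ → ℂ} (P : Path T d e p q) (n : ℕ)
    (t : ℝ) (h1 : n * T ≤ t) (h2 : t ≤ (n + 1) * T) (x : ℝ) :
    UU T p q t x = pmul (p (t - n * T) x, q (t - n * T) x) (Un (p T) (q T) n x) := by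
  have hT := P.pos
  rcases h2.lt_or_eq with h | h
  · unfold UU
    rw [fl_eq hT (n : ℤ) (by exact_mod_cast h1) (by exact_mod_cast h)]
    simp
  · unfold UU
    rw [fl_eq hT ((n + 1 : ℕ) : ℤ) (by push_cast; exact h.ge) (by push_cast; rw [h]; nlinarith)]
    have e1 : t - (((n + 1 : ℕ) : ℤ) : ℝ) * T = 0 := by rw [h]; push_cast; ring
    have e2 : t - n * T = T := by rw [h]; ring
    rw [e1, e2, (P.init x).1, (P.init x).2, pmul_one, Int.toNat_natCast]
    rfl

lemma UU_zero {T : ℝ} {d : ℝ → ℝ} {e : ℝ → ℂ} {p q : ℝ → ℝ → ℂ} (P : Path T d e p q) (x : ℝ) :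
    UU T p q 0 x = (1, 0) := by
  have hT := P.pos
  rw [UU_eq P 0 0 (by simp) (by simp; exact hT.le) x]
  simp [(P.init x).1, (P.init x).2, Un, pmul]

lemma exists_period {T t : ℝ} (hT : 0 < T) (ht : 0 ≤ t) :
    ∃ n : ℕ, n * T ≤ t ∧ t < (n + 1) * T := by
  refine ⟨⌊t / T⌋₊, ?_, ?_⟩
  · have := Nat.floor_le (div_nonneg ht hT.le)
    rwa [le_div_iff₀ hT] at this
  · have := Nat.lt_floor_add_one (t / T)
    rwa [div_lt_iff₀ hT] at this

lemma contOn_Ici {X : Type*} [TopologicalSpace X] {g : ℝ → X} {T : ℝ} (hT : 0 < T)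
    (h : ∀ n : ℕ, ContinuousOn g (Icc (n * T) ((n + 1) * T))) : ContinuousOn g (Ici 0) := by
  have h1 : ∀ n : ℕ, ContinuousOn g (Icc 0 (n * T)) := by
    intro n
    induction n with
    | zero => simp
    | succ n ih =>
      have e : Icc (0 : ℝ) ((n + 1 : ℕ) * T) = Icc 0 (n * T) ∪ Icc (n * T) ((n + 1) * T) := by
        rw [Icc_union_Icc_eq_Icc (by positivity) (by nlinarith)]
        push_cast; rfl
      rw [e]
      exact ih.union_of_isClosed (h n) isClosed_Icc isClosed_Icc
  intro t ht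
  obtain ⟨n, hn1, hn2⟩ := exists_period hT ht
  have h2 := h1 (n + 1) t ⟨ht, by push_cast; exact hn2.le⟩
  apply h2.mono_of_mem_nhdsWithin
  rw [mem_nhdsWithin]
  exact ⟨Iio (((n + 1 : ℕ) : ℝ) * T), isOpen_Iio, by push_cast; exact hn2,
    fun s hs => ⟨hs.2, le_of_lt hs.1⟩⟩

lemma Un_unit {f g : ℝ → ℂ} (h : ∀ x, ‖f x‖ ^ 2 + ‖g x‖ ^ 2 = 1) (n : ℕ) (x : ℝ) :
    ‖(Un f g n x).1‖ ^ 2 + ‖(Un f g n x).2‖ ^ 2 = 1 := by
  induction n with
  | zero => simp [Un]
  | succ n ih => exact pmul_unit (h x) ih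

lemma UU_unit {T : ℝ} {d : ℝ → ℝ} {e : ℝ → ℂ} {p q : ℝ → ℝ → ℂ} (P : Path T d e p q) {t : ℝ}
    (ht : 0 ≤ t) (x : ℝ) : ‖(UU T p q t x).1‖ ^ 2 + ‖(UU T p q t x).2‖ ^ 2 = 1 := by
  have hT := P.pos
  obtain ⟨n, h1, h2⟩ := exists_period hT ht
  rw [UU_eq P n t h1 h2.le x]
  apply pmul_unit
  · exact P.unit _ ⟨by linarith, by linarith⟩ x
  · exact Un_unit (fun x => P.unit T ⟨hT.le, le_rfl⟩ x) n x

/-- The solution is continuous. -/
lemma flow_cont {T : ℝ} {d : ℝ → ℝ} {e : ℝ → ℂ} {p q : ℝ → ℝ → ℂ} (P : Path T d e p q)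
    (v : ℂ × ℂ) (x : ℝ) :
    ContinuousOn (fun t => (pmul (UU T p q t x) v).1) (Ici 0) ∧
    ContinuousOn (fun t => (pmul (UU T p q t x) v).2) (Ici 0) := by
  have hT := P.pos
  have hc := P.cont x
  have hmaps : ∀ n : ℕ, MapsTo (fun t => t - n * T) (Icc (n * T) ((n + 1) * T)) (Icc 0 T) := by
    intro n t ht; constructor <;> linarith [ht.1, ht.2]
  have c1 : ∀ n : ℕ, ContinuousOn (fun t => p (t - n * T) x) (Icc (n * T) ((n + 1) * T)) :=
    fun n => hc.1.comp (by fun_prop) (hmaps n)
  have c2 : ∀ n : ℕ, ContinuousOn (fun t => q (t - n * T) x) (Icc (n * T) ((n + 1) * T)) :=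
    fun n => hc.2.comp (by fun_prop) (hmaps n)
  have c1' : ∀ n : ℕ, ContinuousOn (fun t => conj (p (t - n * T) x)) (Icc (n * T) ((n + 1) * T)) :=
    fun n => Complex.continuous_conj.comp_continuousOn (c1 n)
  have c2' : ∀ n : ℕ, ContinuousOn (fun t => conj (q (t - n * T) x)) (Icc (n * T) ((n + 1) * T)) :=
    fun n => Complex.continuous_conj.comp_continuousOn (c2 n)
  constructor
  · apply contOn_Ici hT
    intro n
    have : ContinuousOn (fun t => p (t - n * T) x * (pmul (Un (p T) (q T) n x) v).1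
        - conj (q (t - n * T) x) * (pmul (Un (p T) (q T) n x) v).2)
        (Icc (n * T) ((n + 1) * T)) :=
      ((c1 n).mul continuousOn_const).sub ((c2' n).mul continuousOn_const)
    apply this.congr
    intro t ht
    simp only
    rw [UU_eq P n t ht.1 ht.2 x, pmul_assoc]
    rfl
  · apply contOn_Ici hT
    intro n
    have : ContinuousOn (fun t => q (t - n * T) x * (pmul (Un (p T) (q T) n x) v).1
        + conj (p (t - n * T) x) * (pmul (Un (p T) (q T) n x) v).2)
        (Icc (n * T) ((n + 1) * T)) :=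
      ((c2 n).mul continuousOn_const).add ((c1' n).mul continuousOn_const)
    apply this.congr
    intro t ht
    simp only
    rw [UU_eq P n t ht.1 ht.2 x, pmul_assoc]
    rfl

/-- The solution satisfies the differential equation off a countable set. -/
lemma flow_deriv {T : ℝ} {d : ℝ → ℝ} {e : ℝ → ℂ} {p q : ℝ → ℝ → ℂ} (P : Path T d e p q) :
    ∃ S : Set ℝ, S.Countable ∧ ∀ t, 0 < t → t ∉ S → ∀ (x : ℝ) (v : ℂ × ℂ),
      HasDerivAt (fun t => (pmul (UU T p q t x) v).1)
        (-Complex.I * ((-(x : ℂ) + per T d t) * (pmul (UU T p q t x) v).1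
          + conj (per T e t) * (pmul (UU T p q t x) v).2)) t ∧
      HasDerivAt (fun t => (pmul (UU T p q t x) v).2)
        (-Complex.I * (per T e t * (pmul (UU T p q t x) v).1
          + ((x : ℂ) - per T d t) * (pmul (UU T p q t x) v).2)) t := by
  have hT := P.pos
  obtain ⟨S, hS, o⟩ := P.ode
  refine ⟨⋃ n : ℕ, ({(n : ℝ) * T} ∪ (fun t => t + n * T) '' S),
    countable_iUnion fun n => (countable_singleton _).union (hS.image _), ?_⟩
  intro t ht htS x v
  simp only [mem_iUnion, mem_union, mem_image, mem_singleton_iff, not_exists, not_or] at htS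
  obtain ⟨n, h1, h2⟩ := exists_period hT ht.le
  have h3 := htS n
  have h1' : n * T < t := lt_of_le_of_ne h1 (fun h => h3.1 h.symm)
  have ho := o (t - n * T) ⟨by linarith, by linarith⟩ (fun h => h3.2 _ ⟨h, by ring⟩) x
  have hfl : fl T t = (n : ℤ) := fl_eq hT (n : ℤ) (by exact_mod_cast h1) (by exact_mod_cast h2)
  have hd : per T d t = d (t - n * T) := by unfold per; rw [hfl]; push_cast; rfl
  have he : per T e t = e (t - n * T) := by unfold per; rw [hfl]; push_cast; rfl
  have hev : ∀ᶠ s in nhds t, n * T ≤ s ∧ s ≤ (n + 1) * T := by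
    filter_upwards [Ioi_mem_nhds h1', Iio_mem_nhds h2] with s hs1 hs2 using
      ⟨le_of_lt hs1, le_of_lt hs2⟩
  have k1 : HasDerivAt (fun s => p (s - n * T) x) _ t := HasDerivAt.comp_sub_const t _ ho.1
  have k2 : HasDerivAt (fun s => q (s - n * T) x) _ t := HasDerivAt.comp_sub_const t _ ho.2
  have k1' := hasDerivAt_conj k1
  have k2' := hasDerivAt_conj k2
  set w := pmul (Un (p T) (q T) n x) v with hw
  have hUt : pmul (UU T p q t x) v = pmul (p (t - n * T) x, q (t - n * T) x) w := by
    rw [UU_eq P n t h1 h2.le x, pmul_assoc]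
  rw [hd, he, hUt]
  constructor
  · have : HasDerivAt (fun s => (pmul (p (s - n * T) x, q (s - n * T) x) w).1)
        (-Complex.I * ((-(x : ℂ) + d (t - n * T)) *
          (pmul (p (t - n * T) x, q (t - n * T) x) w).1
        + conj (e (t - n * T)) * (pmul (p (t - n * T) x, q (t - n * T) x) w).2)) t := by
      simp only [pmul]
      refine ((k1.mul_const _).sub (k2'.mul_const _)).congr_deriv ?_
      simp only [map_mul, map_add, map_sub, map_neg, Complex.conj_I, Complex.conj_ofReal]
      ring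
    apply this.congr_of_eventuallyEq
    filter_upwards [hev] with s hs
    rw [UU_eq P n s hs.1 hs.2 x, pmul_assoc]
  · have : HasDerivAt (fun s => (pmul (p (s - n * T) x, q (s - n * T) x) w).2)
        (-Complex.I * (e (t - n * T) * (pmul (p (t - n * T) x, q (t - n * T) x) w).1
        + ((x : ℂ) - d (t - n * T)) * (pmul (p (t - n * T) x, q (t - n * T) x) w).2)) t := by
      simp only [pmul]
      refine ((k2.mul_const _).add (k1'.mul_const _)).congr_deriv ?_
      simp only [map_mul, map_add, map_neg, Complex.conj_I, Complex.conj_ofReal,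
        Complex.conj_conj]
      ring
    apply this.congr_of_eventuallyEq
    filter_upwards [hev] with s hs
    rw [UU_eq P n s hs.1 hs.2 x, pmul_assoc]

lemma bdd_intervalIntegrable {g : ℝ → ℂ} (hg : Measurable g) {C : ℝ} (hC : ∀ t, ‖g t‖ ≤ C)
    (a b : ℝ) : IntervalIntegrable g volume a b := by
  apply (intervalIntegrable_const (c := C)).mono_fun' hg.aestronglyMeasurable
  exact Filter.Eventually.of_forall fun t => hC t

/-- The system in integrated form. -/
def Sys (dp : ℝ → ℝ) (ep : ℝ → ℂ) (x : ℝ) (y z : ℝ → ℂ) : Prop :=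
  ContinuousOn y (Ici 0) ∧ ContinuousOn z (Ici 0) ∧ ∀ t, 0 ≤ t →
    Complex.I * (y t - y 0) = ∫ s in (0 : ℝ)..t, ((-(x : ℂ) + dp s) * y s + conj (ep s) * z s) ∧
    Complex.I * (z t - z 0) = ∫ s in (0 : ℝ)..t, (ep s * y s + ((x : ℂ) - dp s) * z s)

lemma cont_ii {g : ℝ → ℂ} (hg : ContinuousOn g (Ici 0)) {t : ℝ} (ht : 0 ≤ t) :
    ContinuousOn g (uIcc 0 t) := by
  rw [uIcc_of_le ht]
  exact hg.mono fun s hs => hs.1

/-- Existence. -/
lemma flow_sys {T : ℝ} {d : ℝ → ℝ} {e : ℝ → ℂ} {p q : ℝ → ℝ → ℂ} (P : Path T d e p q)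
    (v : ℂ × ℂ) (x : ℝ) :
    Sys (per T d) (per T e) x (fun t => (pmul (UU T p q t x) v).1)
      (fun t => (pmul (UU T p q t x) v).2) := by
  obtain ⟨c1, c2⟩ := flow_cont P v x
  obtain ⟨S, hS, hd⟩ := flow_deriv P
  obtain ⟨K, hK⟩ := P.bd
  have md : Measurable (fun t => ((per T d t : ℝ) : ℂ)) :=
    Complex.measurable_ofReal.comp (per_meas P.md)
  have me : Measurable (per T e) := per_meas P.me
  have me' : Measurable (fun t => conj (per T e t)) := Complex.continuous_conj.measurable.comp me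
  have bd : ∀ t, ‖((per T d t : ℝ) : ℂ)‖ ≤ K := fun t => by
    rw [Complex.norm_real]; exact (hK _).1
  have be : ∀ t, ‖per T e t‖ ≤ K := fun t => (hK _).2
  refine ⟨c1, c2, fun t ht => ?_⟩
  have i1 : IntervalIntegrable (fun s => (-(x : ℂ) + per T d s) * (pmul (UU T p q s x) v).1
      + conj (per T e s) * (pmul (UU T p q s x) v).2) volume 0 t := by
    apply IntervalIntegrable.add
    · exact (intervalIntegrable_const.add (bdd_intervalIntegrable md bd 0 t)).mul_continuousOn
        (cont_ii c1 ht)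
    · exact (bdd_intervalIntegrable me' (fun t => by simpa using be t) 0 t).mul_continuousOn
        (cont_ii c2 ht)
  have i2 : IntervalIntegrable (fun s => per T e s * (pmul (UU T p q s x) v).1
      + ((x : ℂ) - per T d s) * (pmul (UU T p q s x) v).2) volume 0 t := by
    apply IntervalIntegrable.add
    · exact (bdd_intervalIntegrable me be 0 t).mul_continuousOn (cont_ii c1 ht)
    · exact (intervalIntegrable_const.sub (bdd_intervalIntegrable md bd 0 t)).mul_continuousOn
        (cont_ii c2 ht)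
  have f1 := integral_eq_of_hasDerivAt_off_countable_of_le
    (fun t => (pmul (UU T p q t x) v).1) _ ht hS (c1.mono fun s hs => hs.1)
    (fun s hs => (hd s hs.1.1 hs.2 x v).1) (i1.const_mul (-Complex.I))
  have f2 := integral_eq_of_hasDerivAt_off_countable_of_le
    (fun t => (pmul (UU T p q t x) v).2) _ ht hS (c2.mono fun s hs => hs.1)
    (fun s hs => (hd s hs.1.1 hs.2 x v).2) (i2.const_mul (-Complex.I))
  rw [intervalIntegral.integral_const_mul] at f1 f2
  have hI : Complex.I * Complex.I = -1 := Complex.I_mul_I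
  constructor
  · rw [← f1, ← mul_assoc]
    rw [show Complex.I * -Complex.I = 1 by rw [mul_neg, hI]; ring, one_mul]
  · rw [← f2, ← mul_assoc]
    rw [show Complex.I * -Complex.I = 1 by rw [mul_neg, hI]; ring, one_mul]

/-- Uniqueness. -/
lemma sys_unique {dp : ℝ → ℝ} {ep : ℝ → ℂ} {K x : ℝ} (hdm : Measurable dp) (hem : Measurable ep)
    (hK : ∀ t, |dp t| ≤ K ∧ ‖ep t‖ ≤ K) {y z y' z' : ℝ → ℂ} (h : Sys dp ep x y z)
    (h' : Sys dp ep x y' z') (h0 : y 0 = y' 0) (h1 : z 0 = z' 0) :
    ∀ t, 0 ≤ t → y t = y' t ∧ z t = z' t := by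
  obtain ⟨cy, cz, hs⟩ := h
  obtain ⟨cy', cz', hs'⟩ := h'
  have hK0 : 0 ≤ K := (abs_nonneg _).trans (hK 0).1
  set N : ℝ → ℝ := fun t => ‖y t - y' t‖ + ‖z t - z' t‖ with hN
  have cN : ContinuousOn N (Ici 0) := ((cy.sub cy').norm).add ((cz.sub cz').norm)
  have md : Measurable (fun t => ((dp t : ℝ) : ℂ)) := Complex.measurable_ofReal.comp hdm
  have me' : Measurable (fun t => conj (ep t)) := Complex.continuous_conj.measurable.comp hem
  have bd : ∀ t, ‖((dp t : ℝ) : ℂ)‖ ≤ K := fun t => by
    rw [Complex.norm_real]; exact (hK _).1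
  have be : ∀ t, ‖ep t‖ ≤ K := fun t => (hK _).2
  have i1 : ∀ (u v : ℝ → ℂ), ContinuousOn u (Ici 0) → ContinuousOn v (Ici 0) → ∀ t, 0 ≤ t →
      IntervalIntegrable (fun s => (-(x : ℂ) + dp s) * u s + conj (ep s) * v s) volume 0 t := by
    intro u v hu hv t ht
    apply IntervalIntegrable.add
    · exact (intervalIntegrable_const.add (bdd_intervalIntegrable md bd 0 t)).mul_continuousOn
        (cont_ii hu ht)
    · exact (bdd_intervalIntegrable me' (fun t => by simpa using be t) 0 t).mul_continuousOn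
        (cont_ii hv ht)
  have i2 : ∀ (u v : ℝ → ℂ), ContinuousOn u (Ici 0) → ContinuousOn v (Ici 0) → ∀ t, 0 ≤ t →
      IntervalIntegrable (fun s => ep s * u s + ((x : ℂ) - dp s) * v s) volume 0 t := by
    intro u v hu hv t ht
    apply IntervalIntegrable.add
    · exact (bdd_intervalIntegrable hem be 0 t).mul_continuousOn (cont_ii hu ht)
    · exact (intervalIntegrable_const.sub (bdd_intervalIntegrable md bd 0 t)).mul_continuousOn
        (cont_ii hv ht)
  set L : ℝ := 2 * (|x| + K + K) with hL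
  have hL0 : 0 ≤ L := by positivity
  have key : ∀ t, 0 ≤ t → N t ≤ L * ∫ s in (0 : ℝ)..t, N s := by
    intro t ht
    have iN : IntervalIntegrable N volume 0 t := by
      apply ContinuousOn.intervalIntegrable
      rw [uIcc_of_le ht]; exact cN.mono fun s hs => hs.1
    have e1 : Complex.I * (y t - y' t) = ∫ s in (0 : ℝ)..t,
        ((-(x : ℂ) + dp s) * (y s - y' s) + conj (ep s) * (z s - z' s)) := by
      have := (hs t ht).1
      have h2 := (hs' t ht).1
      have h3 : Complex.I * (y t - y' t) = Complex.I * (y t - y 0) - Complex.I * (y' t - y' 0) := by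
        rw [h0]; ring
      rw [h3, this, h2, ← intervalIntegral.integral_sub (i1 y z cy cz t ht)
        (i1 y' z' cy' cz' t ht)]
      apply intervalIntegral.integral_congr
      intro s _
      simp only
      ring
    have e2 : Complex.I * (z t - z' t) = ∫ s in (0 : ℝ)..t,
        (ep s * (y s - y' s) + ((x : ℂ) - dp s) * (z s - z' s)) := by
      have := (hs t ht).2
      have h2 := (hs' t ht).2
      have h3 : Complex.I * (z t - z' t) = Complex.I * (z t - z 0) - Complex.I * (z' t - z' 0) := by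
        rw [h1]; ring
      rw [h3, this, h2, ← intervalIntegral.integral_sub (i2 y z cy cz t ht)
        (i2 y' z' cy' cz' t ht)]
      apply intervalIntegral.integral_congr
      intro s _
      simp only
      ring
    have hx1 : ∀ s, ‖-(x : ℂ) + dp s‖ ≤ |x| + K := by
      intro s
      refine (norm_add_le _ _).trans (add_le_add ?_ (bd s))
      rw [norm_neg, Complex.norm_real, Real.norm_eq_abs]
    have hx2 : ∀ s, ‖(x : ℂ) - dp s‖ ≤ |x| + K := by
      intro s
      refine (norm_sub_le _ _).trans (add_le_add ?_ (bd s))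
      rw [Complex.norm_real, Real.norm_eq_abs]
    have b1 : ‖y t - y' t‖ ≤ ∫ s in (0 : ℝ)..t, (|x| + K + K) * N s := by
      have : ‖y t - y' t‖ = ‖Complex.I * (y t - y' t)‖ := by rw [norm_mul, Complex.norm_I, one_mul]
      rw [this, e1]
      apply intervalIntegral.norm_integral_le_of_norm_le ht _ (iN.const_mul _)
      apply Filter.Eventually.of_forall
      intro s _
      refine (norm_add_le _ _).trans ?_
      rw [norm_mul, norm_mul, Complex.norm_conj]
      have a1 := hx1 s
      have a2 := be s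
      have a3 := norm_nonneg (y s - y' s)
      have a4 := norm_nonneg (z s - z' s)
      have a5 := abs_nonneg x
      have t1 : ‖-(x : ℂ) + dp s‖ * ‖y s - y' s‖ ≤ (|x| + K) * ‖y s - y' s‖ := by gcongr
      have t2 : ‖ep s‖ * ‖z s - z' s‖ ≤ K * ‖z s - z' s‖ := by gcongr
      rw [hN]
      simp only
      nlinarith [mul_nonneg hK0 a3, mul_nonneg a5 a4, mul_nonneg hK0 a4]
    have b2 : ‖z t - z' t‖ ≤ ∫ s in (0 : ℝ)..t, (|x| + K + K) * N s := by
      have : ‖z t - z' t‖ = ‖Complex.I * (z t - z' t)‖ := by rw [norm_mul, Complex.norm_I, one_mul]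
      rw [this, e2]
      apply intervalIntegral.norm_integral_le_of_norm_le ht _ (iN.const_mul _)
      apply Filter.Eventually.of_forall
      intro s _
      refine (norm_add_le _ _).trans ?_
      rw [norm_mul, norm_mul]
      have a1 := hx2 s
      have a2 := be s
      have a3 := norm_nonneg (y s - y' s)
      have a4 := norm_nonneg (z s - z' s)
      have a5 := abs_nonneg x
      have t1 : ‖(x : ℂ) - dp s‖ * ‖z s - z' s‖ ≤ (|x| + K) * ‖z s - z' s‖ := by gcongr
      have t2 : ‖ep s‖ * ‖y s - y' s‖ ≤ K * ‖y s - y' s‖ := by gcongr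
      rw [hN]
      simp only
      nlinarith [mul_nonneg hK0 a3, mul_nonneg a5 a3, mul_nonneg hK0 a4]
    rw [intervalIntegral.integral_const_mul] at b1 b2
    rw [hN]
    simp only
    calc ‖y t - y' t‖ + ‖z t - z' t‖ ≤ (|x| + K + K) * (∫ s in (0 : ℝ)..t, N s)
          + (|x| + K + K) * (∫ s in (0 : ℝ)..t, N s) := add_le_add b1 b2
      _ = _ := by rw [hL, hN]; ring
  -- Gronwall
  have hN0 : ∀ t, 0 ≤ N t := fun t => by rw [hN]; positivity
  set M : ℝ → ℝ := fun t => N (max t 0) with hM
  have cM : Continuous M := by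
    rw [hM]
    exact cN.comp_continuous (by fun_prop) (fun t => mem_Ici.2 (le_max_right _ _))
  have hzero : ∀ t, 0 ≤ t → ∫ s in (0 : ℝ)..t, M s = 0 := by
    intro t ht
    have hderiv : ∀ u : ℝ, HasDerivAt (fun u => ∫ s in (0 : ℝ)..u, M s) (M u) u := fun u =>
      intervalIntegral.integral_hasDerivAt_right (cM.intervalIntegrable _ _)
        (cM.stronglyMeasurableAtFilter _ _) cM.continuousAt
    have := eq_zero_of_abs_deriv_le_mul_abs_self_of_eq_zero_right (K := L)
      (f := fun u => ∫ s in (0 : ℝ)..u, M s) (f' := M) (a := 0) (b := t)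
      (fun u _ => (hderiv u).continuousAt.continuousWithinAt)
      (fun u _ => (hderiv u).hasDerivWithinAt) (by simp) (fun u hu => by
        have h2 := key u hu.1
        have h3 : ∫ s in (0 : ℝ)..u, N s = ∫ s in (0 : ℝ)..u, M s := by
          apply intervalIntegral.integral_congr
          intro s hs
          rw [uIcc_of_le hu.1] at hs
          simp [hM, max_eq_left hs.1]
        have h4 : M u = N u := by simp [hM, max_eq_left hu.1]
        rw [Real.norm_eq_abs, Real.norm_eq_abs, h4, abs_of_nonneg (hN0 u)]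
        rw [h3] at h2
        refine h2.trans ?_
        gcongr
        exact le_abs_self _)
    exact this t ⟨ht, le_rfl⟩
  intro t ht
  have h2 := key t ht
  have h3 : ∫ s in (0 : ℝ)..t, N s = ∫ s in (0 : ℝ)..t, M s := by
    apply intervalIntegral.integral_congr
    intro s hs
    rw [uIcc_of_le ht] at hs
    simp [hM, max_eq_left hs.1]
  rw [h3, hzero t ht, mul_zero] at h2
  have h4 := norm_nonneg (y t - y' t)
  have h5 := norm_nonneg (z t - z' t)
  rw [hN] at h2
  simp only at h2
  constructor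
  · exact sub_eq_zero.1 (norm_eq_zero.1 (by linarith))
  · exact sub_eq_zero.1 (norm_eq_zero.1 (by linarith))

end Pool.Agent.H309.SD
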