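import Pool.Agent.H309.SD.Defs

/-! Facts on the Fourier transform. -/

open MeasureTheory Set FourierTransform
open scoped ENNReal Real SchwartzMap ComplexConjugate

namespace Pool.Agent.H309.SD

/-- If the Fourier transform of a square integrable function is integrable, then the function is
given by the Fourier integral. -/
lemma inv_ae {u : Lp E2 2 (volume : Measure ℝ)} {h : ℝ → E2} (hh : Integrable h)
    (hu : (𝓕 u : Lp E2 2 (volume : Measure ℝ)) =ᵐ[volume] h) :
    (u : ℝ → E2) =ᵐ[volume] (𝓕⁻ h : ℝ → E2) := by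
  have hcont : Continuous (𝓕⁻ h : ℝ → E2) := by
    have : (𝓕⁻ h : ℝ → E2) = VectorFourier.fourierIntegral Real.fourierChar volume
        (-innerₗ ℝ) h := by
      ext w; rfl
    rw [this]
    exact VectorFourier.fourierIntegral_continuous Real.continuous_fourierChar
      (by simp only [LinearMap.neg_apply]; exact continuous_inner.neg) hh
  have hloc : LocallyIntegrable (fun x => u x - 𝓕⁻ h x) volume := by
    apply LocallyIntegrable.sub
    · exact (Lp.memLp u).locallyIntegrable (by norm_num)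
    · exact hcont.locallyIntegrable
  have key : ∀ φ : 𝓢(ℝ, ℂ), ∫ x, φ x • u x = ∫ x, φ x • (𝓕⁻ h x) := by
    intro φ
    have h1 : (u : 𝓢'(ℝ, E2)) φ = ∫ x, φ x • u x := Lp.toTemperedDistribution_apply u φ
    have h2 : 𝓕⁻ ((𝓕 u : Lp E2 2 (volume : Measure ℝ)) : 𝓢'(ℝ, E2)) = (u : 𝓢'(ℝ, E2)) := by
      rw [Lp.fourierInv_toTemperedDistribution_eq, fourierInv_fourier_eq]
    rw [← h1, ← h2, TemperedDistribution.fourierInv_apply, Lp.toTemperedDistribution_apply]
    have h3 : ∫ x, (𝓕⁻ φ) x • (𝓕 u : Lp E2 2 (volume : Measure ℝ)) x = ∫ x, (𝓕⁻ φ) x • h x := by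
      apply integral_congr_ae
      filter_upwards [hu] with x hx
      rw [hx]
    rw [h3]
    have h4 := VectorFourier.integral_fourierIntegral_smul_eq_flip (e := Real.fourierChar)
      (μ := (volume : Measure ℝ)) (ν := (volume : Measure ℝ)) (L := -innerₗ ℝ) (f := φ) (g := h)
      Real.continuous_fourierChar
      (by simp only [LinearMap.neg_apply]; exact continuous_inner.neg) φ.integrable hh
    rw [SchwartzMap.fourierInv_coe]
    refine h4.trans ?_
    apply integral_congr_ae
    filter_upwards with x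
    congr 1
    have : (-innerₗ ℝ : ℝ →ₗ[ℝ] ℝ →ₗ[ℝ] ℝ).flip = -innerₗ ℝ := by
      ext; simp
    rw [this]
    rfl
  have h0 := ae_eq_zero_of_integral_contDiff_smul_eq_zero hloc ?_
  · filter_upwards [h0] with x hx
    exact sub_eq_zero.1 hx
  · intro g g_smooth g_cpt
    have hg₁ : HasCompactSupport (Complex.ofRealCLM ∘ g) := g_cpt.comp_left rfl
    have hg₂ : ContDiff ℝ ((⊤ : ℕ∞) : WithTop ℕ∞) (Complex.ofRealCLM ∘ g) :=
      Complex.ofRealCLM.contDiff.comp g_smooth
    have hk := key (hg₁.toSchwartzMap hg₂)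
    have i1 : Integrable (fun x => g x • u x) volume :=
      ((Lp.memLp u).locallyIntegrable (by norm_num)).integrable_smul_left_of_hasCompactSupport
        g_smooth.continuous g_cpt
    have i2 : Integrable (fun x => g x • (𝓕⁻ h x)) volume :=
      hcont.locallyIntegrable.integrable_smul_left_of_hasCompactSupport g_smooth.continuous g_cpt
    simp only [smul_sub]
    rw [integral_sub i1 i2, sub_eq_zero]
    have e1 : ∀ x, (hg₁.toSchwartzMap hg₂) x = ((g x : ℝ) : ℂ) := fun x => rfl
    simp only [e1] at hk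
    have e2 : ∀ (x : ℝ) (v : E2), ((g x : ℝ) : ℂ) • v = g x • v := fun x v =>
      Complex.coe_smul (g x) v
    simp only [e2] at hk
    exact hk

/-- The scalar convolution estimate. -/
lemma conv_bound {ρ G : ℝ → ℂ} (hρ : Integrable ρ) (hG : Integrable G) {M : ℝ}
    (hM : ∀ y : ℝ, ‖∫ ξ : ℝ, ρ ξ * Complex.exp ((2 * π * y * ξ : ℝ) * Complex.I)‖ ≤ M) (X : ℝ) :
    ‖∫ ξ : ℝ, Complex.exp ((2 * π * X * ξ : ℝ) * Complex.I) * (ρ ξ * 𝓕 G ξ)‖
      ≤ M * ∫ x, ‖G x‖ := by
  set ρX : ℝ → ℂ := fun ξ => Complex.exp ((2 * π * X * ξ : ℝ) * Complex.I) * ρ ξ with hρX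
  have hρX' : Integrable ρX := by
    apply (hρ.bdd_mul (c := 1) (f := fun ξ : ℝ =>
      Complex.exp ((2 * π * X * ξ : ℝ) * Complex.I))) (by fun_prop)
    exact Filter.Eventually.of_forall fun ξ => by rw [Complex.norm_exp_ofReal_mul_I]
  have h4 := VectorFourier.integral_fourierIntegral_smul_eq_flip (e := Real.fourierChar)
    (μ := (volume : Measure ℝ)) (ν := (volume : Measure ℝ)) (L := innerₗ ℝ) (f := G) (g := ρX)
    Real.continuous_fourierChar continuous_inner hG hρX'
  have h5 : ∫ ξ : ℝ, Complex.exp ((2 * π * X * ξ : ℝ) * Complex.I) * (ρ ξ * 𝓕 G ξ)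
      = ∫ ξ, (VectorFourier.fourierIntegral Real.fourierChar volume (innerₗ ℝ) G ξ) • ρX ξ := by
    apply integral_congr_ae
    filter_upwards with ξ
    rw [hρX, smul_eq_mul]
    change _ = 𝓕 G ξ * _
    ring
  rw [h5, h4]
  have h6 : ∀ x, ‖VectorFourier.fourierIntegral Real.fourierChar volume (innerₗ ℝ).flip ρX x‖
      ≤ M := by
    intro x
    have h7 : VectorFourier.fourierIntegral Real.fourierChar volume (innerₗ ℝ).flip ρX x
        = ∫ ξ : ℝ, ρ ξ * Complex.exp ((2 * π * (X - x) * ξ : ℝ) * Complex.I) := by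
      unfold VectorFourier.fourierIntegral
      apply integral_congr_ae
      filter_upwards with ξ
      rw [Circle.smul_def, Real.fourierChar_apply, hρX]
      simp only [smul_eq_mul, LinearMap.flip_apply, innerₗ_apply_apply, RCLike.inner_apply,
        conj_trivial]
      rw [← mul_assoc, ← Complex.exp_add, mul_comm]
      congr 2
      push_cast
      ring
    rw [h7]
    exact hM _
  calc ‖∫ x, G x • VectorFourier.fourierIntegral Real.fourierChar volume (innerₗ ℝ).flip ρX x‖
      ≤ ∫ x, ‖G x‖ * M := by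
        apply norm_integral_le_of_norm_le (hG.norm.mul_const M)
        filter_upwards with x
        rw [norm_smul]
        gcongr
        exact h6 x
    _ = _ := by rw [integral_mul_const, mul_comm]

/-- The components of the Fourier transform. -/
lemma fourier_comp (g : ℝ → E2) (hg : Integrable g) (ξ : ℝ) (i : Fin 2) :
    (𝓕 g ξ) i = 𝓕 (fun x => g x i) ξ := by
  rw [Real.fourier_eq, Real.fourier_eq]
  have h1 : Integrable (fun v : ℝ => Real.fourierChar (-(inner ℝ v ξ)) • g v) :=
    (Real.fourierIntegral_convergent_iff ξ).2 hg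
  set L : E2 →L[ℂ] ℂ := EuclideanSpace.proj i with hL
  have h2 := L.integral_comp_comm h1
  have h3 : (∫ v : ℝ, Real.fourierChar (-(inner ℝ v ξ)) • g v) i
      = L (∫ v : ℝ, Real.fourierChar (-(inner ℝ v ξ)) • g v) := rfl
  rw [h3, ← h2]
  rfl

end Pool.Agent.H309.SD
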