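import Pool.Agent.H309.SD.Piece

/-! The uniform decay of the kernel. -/

open MeasureTheory Set
open scoped ENNReal Real ComplexConjugate

namespace Pool.Agent.H309.SD

lemma lip_of_deriv {g g' : ℝ → ℝ} {L : ℝ} (h : ∀ x, HasDerivAt g (g' x) x) (hb : ∀ x, |g' x| ≤ L)
    (x y : ℝ) : |g x| ≤ |g y| + L * |x - y| := by
  have := Convex.norm_image_sub_le_of_norm_hasDerivWithin_le (s := univ) (f := g) (f' := g')
    (fun x _ => (h x).hasDerivWithinAt) (fun x _ => hb x) convex_univ (mem_univ y) (mem_univ x)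
  rw [Real.norm_eq_abs, Real.norm_eq_abs] at this
  have h2 := abs_sub_abs_le_abs_sub (g x) (g y)
  linarith

lemma lip_GD {f : ℝ → ℂ} (hf : Smooth f) : ∃ L : ℝ, 1 ≤ L ∧ ∀ x y,
    |GG f x| ≤ |GG f y| + L * |x - y| ∧ |DD f x| ≤ |DD f y| + L * |x - y| := by
  obtain ⟨C0, hC0, hb0⟩ := hf.bdd
  obtain ⟨C1, hC1, hb1⟩ := hf.deriv.bdd
  obtain ⟨C2, hC2, hb2⟩ := hf.deriv.deriv.bdd
  obtain ⟨C3, hC3, hb3⟩ := hf.deriv.deriv.deriv.bdd
  set F : ℝ → ℝ := fun x => (f x).re with hF
  set F1 : ℝ → ℝ := fun x => (deriv f x).re with hF1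
  set F2 : ℝ → ℝ := fun x => (deriv (deriv f) x).re with hF2
  set F3 : ℝ → ℝ := fun x => (deriv (deriv (deriv f)) x).re with hF3
  have dF : ∀ x, HasDerivAt F (F1 x) x := fun x => hasDerivAt_re (hf.hasDerivAt x)
  have dF1 : ∀ x, HasDerivAt F1 (F2 x) x := fun x => hasDerivAt_re (hf.deriv.hasDerivAt x)
  have dF2 : ∀ x, HasDerivAt F2 (F3 x) x := fun x => hasDerivAt_re (hf.deriv.deriv.hasDerivAt x)
  have b0 : ∀ x, |F x| ≤ C0 := fun x => (Complex.abs_re_le_norm _).trans (hb0 x)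
  have b1 : ∀ x, |F1 x| ≤ C1 := fun x => (Complex.abs_re_le_norm _).trans (hb1 x)
  have b2 : ∀ x, |F2 x| ≤ C2 := fun x => (Complex.abs_re_le_norm _).trans (hb2 x)
  have b3 : ∀ x, |F3 x| ≤ C3 := fun x => (Complex.abs_re_le_norm _).trans (hb3 x)
  have dD : ∀ x, HasDerivAt (DD f) (-(2 * F x * F1 x)) x := by
    intro x
    have := ((dF x).pow 2).const_sub 1
    refine this.congr_deriv ?_
    simp
  have dG : ∀ x, HasDerivAt (GG f) (-(2 * F x * F1 x) * F2 x + (1 - F x ^ 2) * F3 x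
      + (F1 x * F1 x ^ 2 + F x * (2 * F1 x * F2 x))) x := by
    intro x
    have e1 := (dD x).mul (dF2 x)
    have e2 := (dF x).mul ((dF1 x).pow 2)
    refine (e1.add e2).congr_deriv ?_
    simp only [DD, hF]
    norm_num
  have bD : ∀ x, |(-(2 * F x * F1 x))| ≤ 2 * C0 * C1 := by
    intro x
    rw [abs_neg, abs_mul, abs_mul, abs_two]
    have := b0 x; have := b1 x
    gcongr
  have bG : ∀ x, |(-(2 * F x * F1 x) * F2 x + (1 - F x ^ 2) * F3 x
      + (F1 x * F1 x ^ 2 + F x * (2 * F1 x * F2 x)))| ≤ 2 * C0 * C1 * C2 + (1 + C0 ^ 2) * C3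
      + (C1 * C1 ^ 2 + C0 * (2 * C1 * C2)) := by
    intro x
    have := b0 x; have := b1 x; have := b2 x; have := b3 x
    have t1 : |(-(2 * F x * F1 x) * F2 x)| ≤ 2 * C0 * C1 * C2 := by
      rw [abs_mul]
      exact mul_le_mul (bD x) (b2 x) (abs_nonneg _) (by positivity)
    have t2 : |(1 - F x ^ 2) * F3 x| ≤ (1 + C0 ^ 2) * C3 := by
      rw [abs_mul]
      apply mul_le_mul _ (b3 x) (abs_nonneg _) (by positivity)
      have : |F x ^ 2| ≤ C0 ^ 2 := by rw [abs_pow]; gcongr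
      exact (abs_sub _ _).trans (by rw [abs_one]; linarith)
    have t3 : |F1 x * F1 x ^ 2| ≤ C1 * C1 ^ 2 := by
      rw [abs_mul, abs_pow]; gcongr
    have t4 : |F x * (2 * F1 x * F2 x)| ≤ C0 * (2 * C1 * C2) := by
      rw [abs_mul, abs_mul, abs_mul, abs_two]; gcongr
    calc _ ≤ |(-(2 * F x * F1 x) * F2 x + (1 - F x ^ 2) * F3 x)|
          + |(F1 x * F1 x ^ 2 + F x * (2 * F1 x * F2 x))| := abs_add_le _ _
      _ ≤ (|(-(2 * F x * F1 x) * F2 x)| + |(1 - F x ^ 2) * F3 x|)
          + (|F1 x * F1 x ^ 2| + |F x * (2 * F1 x * F2 x)|) :=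
          add_le_add (abs_add_le _ _) (abs_add_le _ _)
      _ ≤ _ := by linarith
  set L := 1 + 2 * C0 * C1 + (2 * C0 * C1 * C2 + (1 + C0 ^ 2) * C3
      + (C1 * C1 ^ 2 + C0 * (2 * C1 * C2))) with hL
  have hp1 : 0 ≤ 2 * C0 * C1 := by positivity
  have hp2 : 0 ≤ 2 * C0 * C1 * C2 + (1 + C0 ^ 2) * C3 + (C1 * C1 ^ 2 + C0 * (2 * C1 * C2)) := by
    positivity
  refine ⟨L, by linarith, fun x y => ⟨?_, ?_⟩⟩
  · exact lip_of_deriv dG (fun x => (bG x).trans (by linarith)) x y
  · exact lip_of_deriv dD (fun x => (bD x).trans (by linarith)) x y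

lemma wt_comp {x y : ℝ} (h : |x - y| ≤ 1) : wt x ≤ 9 * wt y := by
  unfold wt
  have h1 : 1 + y ^ 2 ≤ 3 * (1 + x ^ 2) := by
    have := abs_le.1 h
    nlinarith [sq_nonneg (x - (x - y)), sq_nonneg (x + (x - y))]
  rw [← div_eq_mul_inv, inv_eq_one_div, div_le_div_iff₀ (by positivity) (by positivity)]
  have h2 : 0 < 1 + y ^ 2 := by positivity
  nlinarith

/-- The derivative of the weight. -/
noncomputable def wt' (x : ℝ) : ℝ := -(4 * x / (1 + x ^ 2)) * wt x

lemma hasDerivAt_wt (x : ℝ) : HasDerivAt wt (wt' x) x := by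
  have h1 : HasDerivAt (fun x : ℝ => (1 + x ^ 2) ^ 2) (2 * (1 + x ^ 2) * (2 * x)) x := by
    have e1 : HasDerivAt (fun x : ℝ => 1 + x ^ 2) (2 * x) x := by
      simpa using (hasDerivAt_pow 2 x).const_add 1
    have := e1.pow 2
    refine this.congr_deriv ?_
    simp
  have h2 := h1.inv (by positivity)
  refine h2.congr_deriv ?_
  unfold wt' wt
  have : (1 + x ^ 2) ≠ 0 := by positivity
  field_simp
  ring

lemma wt'_bd (x : ℝ) : |wt' x| ≤ 2 * wt x := by
  unfold wt'
  rw [abs_mul, abs_of_pos (wt_pos x), abs_neg, abs_div, abs_of_pos (by positivity : 0 < 1 + x ^ 2)]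
  apply mul_le_mul_of_nonneg_right _ (wt_pos x).le
  rw [div_le_iff₀ (by positivity), abs_mul]
  have : |(4 : ℝ)| = 4 := by norm_num
  rw [this]
  nlinarith [sq_nonneg (|x| - 1), sq_abs x]

lemma wt'_cont : Continuous wt' := by
  unfold wt'
  exact ((continuous_const.mul continuous_id).div (by fun_prop)
    (fun x => by positivity)).neg.mul wt_cont

/-- The amplitude with the weight. -/
lemma amp {K : ℝ} {a : ℝ → ℂ} (ha : C1b K a) (hb : ∀ x, ‖a x‖ ≤ 1) : ∃ b' : ℝ → ℂ,
    (∀ x, HasDerivAt (fun x => (wt x : ℂ) * a x) (b' x) x) ∧ Continuous b' ∧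
    (∀ x, ‖(wt x : ℂ) * a x‖ ≤ wt x) ∧ ∀ x, ‖b' x‖ ≤ (2 + K) * wt x := by
  have hac := ha.continuous
  obtain ⟨a', h1, h2, h3⟩ := ha
  refine ⟨fun x => (wt' x : ℂ) * a x + (wt x : ℂ) * a' x,
    fun x => (hasDerivAt_wt x).ofReal_comp.mul (h1 x), ?_, fun x => ?_, fun x => ?_⟩
  · have := wt_cont; have := wt'_cont; fun_prop
  · rw [norm_mul, Complex.norm_real, Real.norm_eq_abs, abs_of_pos (wt_pos x)]
    exact mul_le_of_le_one_right (wt_pos x).le (hb x)
  · refine (norm_add_le _ _).trans ?_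
    rw [norm_mul, norm_mul, Complex.norm_real, Complex.norm_real, Real.norm_eq_abs,
      Real.norm_eq_abs, abs_of_pos (wt_pos x)]
    have e1 : |wt' x| * ‖a x‖ ≤ 2 * wt x * 1 :=
      mul_le_mul (wt'_bd x) (hb x) (norm_nonneg _) (by have := wt_pos x; positivity)
    have e2 : wt x * ‖a' x‖ ≤ wt x * K := mul_le_mul_of_nonneg_left (h3 x) (wt_pos x).le
    linarith

/-- A smaller power of a small number. -/
lemma lint_bad {g : ℝ → ℝ} {κ : ℝ} (hκ : 0 < κ) {η : ℝ} (hη : 0 < η) (x : ℝ) (h : |g x| ≤ η) :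
    (1 : ℝ≥0∞) ≤ ENNReal.ofReal (η ^ κ) * ‖g x‖ₑ ^ (-κ) := by
  have h1 : ‖g x‖ₑ ≤ ENNReal.ofReal η := by
    rw [← ofReal_norm]; exact ENNReal.ofReal_le_ofReal h
  have h2 := neg_anti hκ.le h1
  calc (1 : ℝ≥0∞) = ENNReal.ofReal (η ^ κ) * ENNReal.ofReal η ^ (-κ) := by
        rw [← ENNReal.ofReal_rpow_of_pos hη, ← ENNReal.rpow_add _ _
          (by simpa using hη) ENNReal.ofReal_ne_top]
        simp
    _ ≤ _ := by gcongr

/-- **The decay of the kernel.** -/
theorem kernel_bound {f : ℝ → ℂ} (hf : Smooth f) (hf1 : ∀ x, ‖f x‖ ≤ 1) {κ : ℝ} (hκ : 0 < κ)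
    (hG : ∫⁻ x : ℝ, ENNReal.ofReal (wt x) * ‖GG f x‖ₑ ^ (-κ) < ⊤)
    (hD : ∫⁻ x : ℝ, ENNReal.ofReal (wt x) * ‖DD f x‖ₑ ^ (-κ) < ⊤) (K : ℝ) :
    ∃ C : ℝ, 0 < C ∧ ∀ n : ℕ, 2 ≤ n → ∀ α₁ α₂ v : ℝ → ℂ, C1b K α₁ → C1b K α₂ →
      (∀ x, ‖α₁ x‖ ≤ 1) → (∀ x, ‖α₂ x‖ ≤ 1) → Continuous v → (∀ x, ‖v x‖ ≤ 1) →
      (∀ x, 0 < DD f x → v x =
        α₁ x * ((Real.sin ((n : ℝ) * Real.arccos (f x).re) / √(DD f x) : ℝ) : ℂ)
        - α₂ x * ((Real.sin (((n : ℝ) - 1) * Real.arccos (f x).re) / √(DD f x) : ℝ) : ℂ)) →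
      ∀ y : ℝ, ‖∫ x, (wt x : ℂ) * v x * Complex.exp (Complex.I * ((y * x : ℝ) : ℂ))‖
        ≤ C * (n : ℝ) ^ (-(min (κ / 12) (1 / 4))) := by
  obtain ⟨L, hL1, hL⟩ := lip_GD hf
  obtain ⟨C, hC, hgood⟩ := good_piece hf
  have hL0 : 0 < L := by linarith
  have hw : ∫⁻ x : ℝ, ENNReal.ofReal (wt x) < ⊤ := by
    refine lt_of_le_of_lt (lintegral_mono fun x => ENNReal.ofReal_le_ofReal ?_) lint_inv
    unfold wt
    have h1 : 1 ≤ 1 + x ^ 2 := by nlinarith [sq_nonneg x]
    exact inv_anti₀ (by positivity) (by nlinarith)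
  set IG := ∫⁻ x : ℝ, ENNReal.ofReal (wt x) * ‖GG f x‖ₑ ^ (-κ) with hIG
  set ID := ∫⁻ x : ℝ, ENNReal.ofReal (wt x) * ‖DD f x‖ₑ ^ (-κ) with hID
  set IW := ∫⁻ x : ℝ, ENNReal.ofReal (wt x) with hIW
  set K0 : ℝ := max K 0 with hK0
  have hK00 : 0 ≤ K0 := le_max_right _ _
  set C' : ℝ := 4 * C * (9 * (3 + K0)) with hC'
  have hC'0 : 0 < C' := by positivity
  refine ⟨2 ^ κ * (IG + ID).toReal + C' * L * IW.toReal + 1, by positivity, ?_⟩
  intro n hn α₁ α₂ v hα₁ hα₂ hb₁ hb₂ hv hv1 hrel y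
  have hn0 : (0 : ℝ) < n := by
    have : 0 < n := by omega
    exact_mod_cast this
  have hn2 : (2 : ℝ) ≤ n := by exact_mod_cast hn
  set ε : ℝ := (n : ℝ) ^ (-(1 / 12) : ℝ) with hε
  have hε0 : 0 < ε := Real.rpow_pos_of_pos hn0 _
  have hε1 : ε ≤ 1 := Real.rpow_le_one_of_one_le_of_nonpos (by linarith) (by norm_num)
  set h : ℝ := ε / L with hh
  have hh0 : 0 < h := by positivity
  have hh1 : h ≤ 1 := by rw [hh, div_le_one hL0]; linarith
  have hLh : L * h = ε := by rw [hh]; field_simp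
  set u : ℝ → ℂ := fun x => (wt x : ℂ) * v x * Complex.exp (Complex.I * ((y * x : ℝ) : ℂ))
    with hu
  have hucont : Continuous u := by
    have := wt_cont
    rw [hu]; fun_prop
  have hunorm : ∀ x, ‖u x‖ ≤ wt x := by
    intro x
    rw [hu]
    simp only
    rw [norm_mul, norm_mul, mul_comm Complex.I, Complex.norm_exp_ofReal_mul_I, mul_one,
      Complex.norm_real, Real.norm_eq_abs, abs_of_pos (wt_pos x)]
    exact mul_le_of_le_one_right (wt_pos x).le (hv1 x)
  have hwint : Integrable wt := by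
    refine ⟨wt_cont.aestronglyMeasurable, ?_⟩
    rw [hasFiniteIntegral_iff_enorm]
    refine lt_of_le_of_lt (lintegral_mono fun x => ?_) hw
    rw [Real.enorm_eq_ofReal (wt_pos x).le]
  have huint : Integrable u := hwint.mono' hucont.aestronglyMeasurable
    (Filter.Eventually.of_forall hunorm)
  set δ : ℝ := C' * L * (ε ^ 3 * √n)⁻¹ with hδ
  have hδ0 : 0 < δ := by positivity
  set B : Set ℝ := {x | |GG f x| ≤ 2 * ε ∨ |DD f x| ≤ 2 * ε} with hB
  have hBm : MeasurableSet B := by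
    apply MeasurableSet.union
    · exact measurableSet_le (GG_cont hf).abs.measurable measurable_const
    · exact measurableSet_le (DD_cont hf).abs.measurable measurable_const
  set J : ℤ → Set ℝ := fun k => Ioc (k • h) ((k + 1) • h) with hJ
  have hDD0 : ∀ x, 0 ≤ DD f x := by
    intro x
    have h1 := (Complex.abs_re_le_norm (f x)).trans (hf1 x)
    have h2 := abs_le.1 h1
    unfold DD
    nlinarith
  -- the estimate on one piece
  have hpiece : ∀ k : ℤ, ‖∫ x in J k, u x‖ₑ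
      ≤ ∫⁻ x in J k, ENNReal.ofReal (wt x) * (B.indicator 1 x + ENNReal.ofReal δ) := by
    intro k
    set c : ℝ := k • h with hc
    set d : ℝ := (k + 1) • h with hd
    have hdc : d - c = h := by rw [hc, hd]; simp [add_mul]
    have hcd : c ≤ d := by linarith
    have hJk : J k = Ioc c d := rfl
    rw [hJk]
    by_cases hcase : ∀ x ∈ Icc c d, ε ≤ |GG f x| ∧ ε ≤ DD f x
    · -- good piece
      obtain ⟨b₁, p1, p2, p3, p4⟩ := amp hα₁ hb₁
      obtain ⟨b₂, r1, r2, r3, r4⟩ := amp hα₂ hb₂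
      have hM : ∀ x₀ ∈ Ioc c d, ‖∫ x in Ioc c d, u x‖ ≤ wt x₀ * (C' * (ε ^ 2 * √n)⁻¹) := by
        intro x₀ hx₀
        have hdist : ∀ x ∈ Icc c d, wt x ≤ 9 * wt x₀ := by
          intro x hx
          apply wt_comp
          rw [abs_le]; constructor <;> linarith [hx.1, hx.2, hx₀.1, hx₀.2]
        have hw0 := wt_pos x₀
        have g1 := hgood c d ε hcd (by linarith) hε0 hε1 hcase (fun x => (wt x : ℂ) * α₁ x) b₁
          (9 * wt x₀) ((2 + K0) * (9 * wt x₀)) (fun x _ => p1 x) p2.continuousOn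
          (fun x hx => (p3 x).trans (hdist x hx))
          (fun x hx => (p4 x).trans (by
            have := hdist x hx
            have := wt_pos x
            have : K ≤ K0 := le_max_left _ _
            nlinarith)) n (by linarith) y
        have g2 := hgood c d ε hcd (by linarith) hε0 hε1 hcase (fun x => (wt x : ℂ) * α₂ x) b₂
          (9 * wt x₀) ((2 + K0) * (9 * wt x₀)) (fun x _ => r1 x) r2.continuousOn
          (fun x hx => (r3 x).trans (hdist x hx))
          (fun x hx => (r4 x).trans (by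
            have := hdist x hx
            have := wt_pos x
            have : K ≤ K0 := le_max_left _ _
            nlinarith)) ((n : ℝ) - 1) (by linarith) y
        have hcont : ∀ (m : ℝ) (a : ℝ → ℂ), Continuous a → IntervalIntegrable (fun x => a x
            * ((Real.sin (m * Real.arccos (f x).re) / √(DD f x) : ℝ) : ℂ)
            * Complex.exp (Complex.I * ((y * x : ℝ) : ℂ))) volume c d := by
          intro m a hac
          apply ContinuousOn.intervalIntegrable
          rw [uIcc_of_le hcd]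
          have h0 := hf.continuous
          have hre := Complex.continuous_re
          have harc := Real.continuous_arccos
          have c1 : ContinuousOn (fun x => ((Real.sin (m * Real.arccos (f x).re)
              / √(DD f x) : ℝ) : ℂ)) (Icc c d) := by
            apply Complex.continuous_ofReal.comp_continuousOn
            apply ContinuousOn.div
            · exact (by fun_prop : Continuous
                (fun x => Real.sin (m * Real.arccos (f x).re))).continuousOn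
            · exact (Real.continuous_sqrt.comp (DD_cont hf)).continuousOn
            · intro x hx
              exact (Real.sqrt_pos.2 (lt_of_lt_of_le hε0 (hcase x hx).2)).ne'
          exact (hac.continuousOn.mul c1).mul
            (by fun_prop : Continuous (fun x : ℝ =>
              Complex.exp (Complex.I * ((y * x : ℝ) : ℂ)))).continuousOn
        have hwc := wt_cont
        have ha1c := hα₁.continuous
        have ha2c := hα₂.continuous
        have hsplit : ∫ x in c..d, u x = (∫ x in c..d, (wt x : ℂ) * α₁ x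
            * ((Real.sin ((n : ℝ) * Real.arccos (f x).re) / √(DD f x) : ℝ) : ℂ)
            * Complex.exp (Complex.I * ((y * x : ℝ) : ℂ)))
            - ∫ x in c..d, (wt x : ℂ) * α₂ x
            * ((Real.sin (((n : ℝ) - 1) * Real.arccos (f x).re) / √(DD f x) : ℝ) : ℂ)
            * Complex.exp (Complex.I * ((y * x : ℝ) : ℂ)) := by
          rw [← intervalIntegral.integral_sub (hcont n _ (by fun_prop))
            (hcont ((n : ℝ) - 1) _ (by fun_prop))]
          apply intervalIntegral.integral_congr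
          intro x hx
          rw [uIcc_of_le hcd] at hx
          simp only [hu]
          rw [hrel x (lt_of_lt_of_le hε0 (hcase x hx).2)]
          ring
        rw [← intervalIntegral.integral_of_le hcd, hsplit]
        refine (norm_sub_le _ _).trans ?_
        have hsn : 0 < √(n : ℝ) := Real.sqrt_pos.2 hn0
        have hsn1 : √(n : ℝ) ≤ 2 * √((n : ℝ) - 1) := by
          rw [show (2 : ℝ) = √4 by
            rw [show (4 : ℝ) = 2 ^ 2 by norm_num, Real.sqrt_sq (by norm_num)],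
            ← Real.sqrt_mul (by norm_num)]
          exact Real.sqrt_le_sqrt (by linarith)
        have hsn2 : 0 < √((n : ℝ) - 1) := Real.sqrt_pos.2 (by linarith)
        have q1 : C * (9 * wt x₀ + (2 + K0) * (9 * wt x₀)) / (ε ^ 2 * √(n : ℝ))
            ≤ C * (9 * (3 + K0)) * wt x₀ * (ε ^ 2 * √n)⁻¹ := by
          rw [div_eq_mul_inv]
          apply le_of_eq; ring
        have q2 : C * (9 * wt x₀ + (2 + K0) * (9 * wt x₀)) / (ε ^ 2 * √((n : ℝ) - 1))
            ≤ 2 * (C * (9 * (3 + K0)) * wt x₀ * (ε ^ 2 * √n)⁻¹) := by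
          rw [← div_eq_mul_inv, ← mul_div_assoc, div_le_div_iff₀ (by positivity) (by positivity)]
          have e1 : C * (9 * wt x₀ + (2 + K0) * (9 * wt x₀)) = C * (9 * (3 + K0)) * wt x₀ := by
            ring
          rw [e1]
          have e2 : 0 ≤ C * (9 * (3 + K0)) * wt x₀ * ε ^ 2 := by positivity
          nlinarith
        have q3 : 0 ≤ C * (9 * (3 + K0)) * wt x₀ * (ε ^ 2 * √n)⁻¹ := by positivity
        calc _ ≤ C * (9 * wt x₀ + (2 + K0) * (9 * wt x₀)) / (ε ^ 2 * √(n : ℝ))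
              + C * (9 * wt x₀ + (2 + K0) * (9 * wt x₀)) / (ε ^ 2 * √((n : ℝ) - 1)) :=
              add_le_add g1 g2
          _ ≤ 3 * (C * (9 * (3 + K0)) * wt x₀ * (ε ^ 2 * √n)⁻¹) := by linarith
          _ ≤ 4 * (C * (9 * (3 + K0)) * wt x₀ * (ε ^ 2 * √n)⁻¹) := by linarith
          _ = _ := by rw [hC']; ring
      have hvol : volume (Ioc c d) = ENNReal.ofReal h := by rw [Real.volume_Ioc, hdc]
      have h1 : ‖∫ x in Ioc c d, u x‖ₑ
          = ∫⁻ x in Ioc c d, ENNReal.ofReal (‖∫ x in Ioc c d, u x‖ / h) := by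
        rw [lintegral_const, Measure.restrict_apply MeasurableSet.univ, univ_inter, hvol,
          ← ENNReal.ofReal_mul (by positivity), div_mul_cancel₀ _ hh0.ne', ofReal_norm]
      rw [h1]
      apply setLIntegral_mono' measurableSet_Ioc
      intro x hx
      refine le_trans ?_ (mul_le_mul_right (le_add_self : ENNReal.ofReal δ ≤ _) _)
      rw [← ENNReal.ofReal_mul (wt_pos x).le]
      apply ENNReal.ofReal_le_ofReal
      rw [div_le_iff₀ hh0]
      refine (hM x hx).trans (le_of_eq ?_)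
      rw [hδ, hh]
      have : √(n : ℝ) ≠ 0 := (Real.sqrt_pos.2 hn0).ne'
      field_simp
    · -- bad piece
      push Not at hcase
      obtain ⟨x₁, hx₁, hbad⟩ := hcase
      have hsub : ∀ x ∈ Ioc c d, x ∈ B := by
        intro x hx
        have hdist : L * |x - x₁| ≤ ε := by
          rw [← hLh]
          apply mul_le_mul_of_nonneg_left _ hL0.le
          rw [← hdc, abs_le]; constructor <;> linarith [hx.1, hx.2, hx₁.1, hx₁.2]
        by_cases hG1 : ε ≤ |GG f x₁|
        · right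
          have h2 := hbad hG1
          have h3 := (hL x x₁).2
          have h4 : |DD f x₁| < ε := by rw [abs_of_nonneg (hDD0 x₁)]; exact h2
          linarith
        · left
          have h3 := (hL x x₁).1
          push Not at hG1
          linarith
      calc ‖∫ x in Ioc c d, u x‖ₑ ≤ ∫⁻ x in Ioc c d, ‖u x‖ₑ := enorm_integral_le_lintegral_enorm _
        _ ≤ _ := by
          apply setLIntegral_mono' measurableSet_Ioc
          intro x hx
          have h1 : B.indicator (1 : ℝ → ℝ≥0∞) x = 1 := by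
            rw [indicator_of_mem (hsub x hx)]; rfl
          rw [h1]
          calc ‖u x‖ₑ = ENNReal.ofReal ‖u x‖ := (ofReal_norm _).symm
            _ ≤ ENNReal.ofReal (wt x) := ENNReal.ofReal_le_ofReal (hunorm x)
            _ = ENNReal.ofReal (wt x) * 1 := (mul_one _).symm
            _ ≤ _ := mul_le_mul_right le_self_add _
  -- summation over the pieces
  have hJm : ∀ k, MeasurableSet (J k) := fun k => measurableSet_Ioc
  have hJd : Pairwise (Function.onFun Disjoint J) := by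
    rw [hJ]; exact pairwise_disjoint_Ioc_zsmul h
  have hJu : ⋃ k, J k = univ := iUnion_Ioc_zsmul hh0
  have hsum : ‖∫ x, u x‖ₑ
      ≤ ∫⁻ x, ENNReal.ofReal (wt x) * (B.indicator 1 x + ENNReal.ofReal δ) := by
    have e1 : ∫ x, u x = ∑' k, ∫ x in J k, u x := by
      have := integral_iUnion (μ := volume) (f := u) hJm hJd (by rw [hJu]; exact huint.integrableOn)
      rw [hJu, Measure.restrict_univ] at this
      exact this
    have e2 : ∫⁻ x, ENNReal.ofReal (wt x) * (B.indicator 1 x + ENNReal.ofReal δ)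
        = ∑' k, ∫⁻ x in J k, ENNReal.ofReal (wt x) * (B.indicator 1 x + ENNReal.ofReal δ) := by
      have := lintegral_iUnion (μ := volume) hJm hJd
        (fun x => ENNReal.ofReal (wt x) * (B.indicator 1 x + ENNReal.ofReal δ))
      rw [hJu, Measure.restrict_univ] at this
      exact this
    rw [e1, e2]
    exact enorm_tsum_le_tsum_enorm.trans (ENNReal.tsum_le_tsum hpiece)
  have hB1 : ∫⁻ x, ENNReal.ofReal (wt x) * (B.indicator 1 x + ENNReal.ofReal δ)
      ≤ ENNReal.ofReal ((2 * ε) ^ κ) * (IG + ID) + ENNReal.ofReal δ * IW := by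
    have hpt : ∀ x, ENNReal.ofReal (wt x) * (B.indicator 1 x + ENNReal.ofReal δ)
        ≤ (ENNReal.ofReal ((2 * ε) ^ κ) * (ENNReal.ofReal (wt x) * ‖GG f x‖ₑ ^ (-κ))
          + ENNReal.ofReal ((2 * ε) ^ κ) * (ENNReal.ofReal (wt x) * ‖DD f x‖ₑ ^ (-κ)))
          + ENNReal.ofReal δ * ENNReal.ofReal (wt x) := by
      intro x
      rw [mul_add]
      apply add_le_add _ (le_of_eq (mul_comm _ _))
      by_cases hx : x ∈ B
      · have h1 : B.indicator (1 : ℝ → ℝ≥0∞) x = 1 := by rw [indicator_of_mem hx]; rfl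
        rw [h1]
        rcases hx with hx | hx
        · have := lint_bad hκ (by positivity : 0 < 2 * ε) x hx
          calc ENNReal.ofReal (wt x) * 1
              ≤ ENNReal.ofReal (wt x) * (ENNReal.ofReal ((2 * ε) ^ κ) * ‖GG f x‖ₑ ^ (-κ)) :=
                mul_le_mul_right this _
            _ = ENNReal.ofReal ((2 * ε) ^ κ) * (ENNReal.ofReal (wt x) * ‖GG f x‖ₑ ^ (-κ)) := by
                ring
            _ ≤ _ := le_self_add
        · have := lint_bad hκ (by positivity : 0 < 2 * ε) x hx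
          calc ENNReal.ofReal (wt x) * 1
              ≤ ENNReal.ofReal (wt x) * (ENNReal.ofReal ((2 * ε) ^ κ) * ‖DD f x‖ₑ ^ (-κ)) :=
                mul_le_mul_right this _
            _ = ENNReal.ofReal ((2 * ε) ^ κ) * (ENNReal.ofReal (wt x) * ‖DD f x‖ₑ ^ (-κ)) := by
                ring
            _ ≤ _ := le_add_self
      · rw [indicator_of_notMem hx, mul_zero]; exact bot_le
    have mG : Measurable (fun x => ENNReal.ofReal (wt x) * ‖GG f x‖ₑ ^ (-κ)) :=
      wt_cont.measurable.ennreal_ofReal.mul ((GG_cont hf).measurable.enorm.pow_const _)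
    have mD : Measurable (fun x => ENNReal.ofReal (wt x) * ‖DD f x‖ₑ ^ (-κ)) :=
      wt_cont.measurable.ennreal_ofReal.mul ((DD_cont hf).measurable.enorm.pow_const _)
    have mGD : Measurable (fun x => ENNReal.ofReal ((2 * ε) ^ κ)
        * (ENNReal.ofReal (wt x) * ‖GG f x‖ₑ ^ (-κ))
        + ENNReal.ofReal ((2 * ε) ^ κ) * (ENNReal.ofReal (wt x) * ‖DD f x‖ₑ ^ (-κ))) :=
      (mG.const_mul _).add (mD.const_mul _)
    refine (lintegral_mono hpt).trans (le_of_eq ?_)
    rw [lintegral_add_left mGD, lintegral_add_left (mG.const_mul _), lintegral_const_mul' _ _ ENNReal.ofReal_ne_top,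
      lintegral_const_mul' _ _ ENNReal.ofReal_ne_top,
      lintegral_const_mul' _ _ ENNReal.ofReal_ne_top, ← mul_add]
  have hfin1 : IG + ID ≠ ⊤ := (ENNReal.add_lt_top.2 ⟨hG, hD⟩).ne
  have hreal : ‖∫ x, u x‖ ≤ (2 * ε) ^ κ * (IG + ID).toReal + δ * IW.toReal := by
    have h1 := hsum.trans hB1
    have h2 : ENNReal.ofReal ((2 * ε) ^ κ) * (IG + ID) + ENNReal.ofReal δ * IW
        = ENNReal.ofReal ((2 * ε) ^ κ * (IG + ID).toReal + δ * IW.toReal) := by
      rw [ENNReal.ofReal_add (by positivity) (by positivity),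
        ENNReal.ofReal_mul (p := (2 * ε) ^ κ) (by positivity),
        ENNReal.ofReal_mul (p := δ) hδ0.le, ENNReal.ofReal_toReal hfin1,
        ENNReal.ofReal_toReal hw.ne]
    rw [h2, ← ofReal_norm] at h1
    exact (ENNReal.ofReal_le_ofReal_iff (by positivity)).1 h1
  refine hreal.trans ?_
  set σ := min (κ / 12) (1 / 4) with hσ
  have hn1 : (1 : ℝ) ≤ n := by linarith
  have k1 : (2 * ε) ^ κ ≤ 2 ^ κ * (n : ℝ) ^ (-σ) := by
    rw [Real.mul_rpow (by norm_num) hε0.le]
    gcongr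
    rw [hε, ← Real.rpow_mul hn0.le]
    apply Real.rpow_le_rpow_of_exponent_le hn1
    have : σ ≤ κ / 12 := min_le_left _ _
    linarith
  have k2 : δ ≤ C' * L * (n : ℝ) ^ (-σ) := by
    rw [hδ]
    gcongr
    have e1 : ε ^ 3 * √(n : ℝ) = (n : ℝ) ^ (1 / 4 : ℝ) := by
      rw [hε, ← Real.rpow_natCast, ← Real.rpow_mul hn0.le, Real.sqrt_eq_rpow,
        ← Real.rpow_add hn0]
      norm_num
    rw [e1, ← Real.rpow_neg hn0.le]
    apply Real.rpow_le_rpow_of_exponent_le hn1
    have : σ ≤ 1 / 4 := min_le_right _ _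
    linarith
  have k3 : 0 ≤ (n : ℝ) ^ (-σ) := Real.rpow_nonneg hn0.le _
  have k4 : 0 ≤ (IG + ID).toReal := ENNReal.toReal_nonneg
  have k5 : 0 ≤ IW.toReal := ENNReal.toReal_nonneg
  calc (2 * ε) ^ κ * (IG + ID).toReal + δ * IW.toReal
      ≤ (2 ^ κ * (n : ℝ) ^ (-σ)) * (IG + ID).toReal + (C' * L * (n : ℝ) ^ (-σ)) * IW.toReal := by
        gcongr
    _ ≤ _ := by nlinarith

end Pool.Agent.H309.SD
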