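import Pool.Agent.H309.SD.Base

/-! The recursion over the levels, with a choice of the phases. -/

open MeasureTheory Set Polynomial
open scoped ENNReal Real ComplexConjugate

namespace Pool.Agent.H309.SD

lemma Reach.unit {A B : ℝ → ℂ} (h : Reach A B) (x : ℝ) : ‖A x‖ ^ 2 + ‖B x‖ ^ 2 = 1 := by
  obtain ⟨T, d, e, p, q, P, e1⟩ := h
  rw [← (e1 x).1, ← (e1 x).2]
  exact P.unit T ⟨P.pos.le, le_rfl⟩ x

lemma Smooth.pmul1 {a b c d : ℝ → ℂ} (ha : Smooth a) (hb : Smooth b) (hc : Smooth c)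
    (hd : Smooth d) : Smooth (fun x => (pmul (a x, b x) (c x, d x)).1) :=
  (ha.mul hc).sub (hb.conj.mul hd)

lemma Smooth.pmul2 {a b c d : ℝ → ℂ} (ha : Smooth a) (hb : Smooth b) (hc : Smooth c)
    (hd : Smooth d) : Smooth (fun x => (pmul (a x, b x) (c x, d x)).2) :=
  (hb.mul hc).add (ha.conj.mul hd)

lemma Smooth.comp5 {A B : ℝ → ℂ} (hA : Smooth A) (hB : Smooth B) :
    Smooth (fun x => (comp5 (A x) (B x)).1) ∧ Smooth (fun x => (comp5 (A x) (B x)).2) := by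
  have h5 := hB.constMul ww
  have h4 := hB.constMul (1 + ww)
  have e4 := hA.pmul1 h4 hA h5
  have f4 := hA.pmul2 h4 hA h5
  have e3 := hA.pmul1 h5 e4 f4
  have f3 := hA.pmul2 h5 e4 f4
  have e2 := hA.pmul1 hB e3 f3
  have f2 := hA.pmul2 hB e3 f3
  exact ⟨hA.pmul1 hB e2 f2, hA.pmul2 hB e2 f2⟩

lemma comp5_cont : Continuous (fun z : ℂ × ℂ => (comp5 z.1 z.2).1) ∧
    Continuous (fun z : ℂ × ℂ => (comp5 z.1 z.2).2) := by
  have hc := Complex.continuous_conj
  constructor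
  · simp only [comp5_fst]
    have h1 : Continuous (fun z : ℂ × ℂ => conj z.1) := hc.comp continuous_fst
    have h2 : Continuous (fun z : ℂ × ℂ => conj z.2) := hc.comp continuous_snd
    fun_prop
  · simp only [comp5_snd]
    have h1 : Continuous (fun z : ℂ × ℂ => conj z.1) := hc.comp continuous_fst
    have h2 : Continuous (fun z : ℂ × ℂ => conj z.2) := hc.comp continuous_snd
    fun_prop

/-- A function of a parameter whose integral is finite is finite for some parameter. -/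
lemma exists_param {a b : ℝ} (hab : a < b) (f : ℝ → ℝ → ℝ≥0∞)
    (hf : Measurable (Function.uncurry f)) (g : ℝ → ℝ≥0∞)
    (h : ∀ x, ∫⁻ t in Ioc a b, f t x ≤ g x) (hg : ∫⁻ x, g x < ⊤) :
    ∃ t ∈ Ioc a b, ∫⁻ x, f t x < ⊤ := by
  have h1 : ∫⁻ t in Ioc a b, ∫⁻ x, f t x < ⊤ := by
    rw [lintegral_lintegral_swap hf.aemeasurable]
    exact lt_of_le_of_lt (lintegral_mono h) hg
  have h2 := ae_lt_top (μ := volume.restrict (Ioc a b)) (f := fun t => ∫⁻ x, f t x)
    hf.lintegral_prod_right' h1.ne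
  rw [ae_restrict_iff' measurableSet_Ioc] at h2
  by_contra hcon
  push Not at hcon
  have h3 : volume (Ioc a b) = 0 := by
    apply measure_mono_null _ (ae_iff.1 h2)
    intro t ht
    simp only [mem_ofPred_eq, Classical.not_imp]
    exact ⟨ht, not_lt.2 (hcon t ht)⟩
  rw [Real.volume_Ioc] at h3
  simp at h3
  linarith

/-- The level `k` is reached. -/
def Good (k : ℕ) : Prop := ∃ A B : ℝ → ℂ, Reach A B ∧ Smooth A ∧ Smooth B ∧
  (∃ C, ∀ x, ‖A x‖ ≤ C * |x| ^ k) ∧ ∃ κ : ℝ, 0 < κ ∧ κ ≤ 1 / 4 ∧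
    ∫⁻ x : ℝ, ENNReal.ofReal (wt x) * (‖A x‖ₑ ^ (-κ) * ‖B x‖ₑ ^ (-κ)) < ⊤

lemma good_one : Good 1 :=
  ⟨A0, B0, reach_pulse, A0_smooth, B0_smooth, ⟨2, fun x => by simpa using A0_small x⟩,
    1 / 4, by norm_num, le_rfl, base_moment⟩

lemma Good.step {k : ℕ} (h : Good k) : Good (3 * k) := by
  obtain ⟨A, B, hR, hA, hB, ⟨C, hC⟩, κ, hκ, hκ4, hm⟩ := h
  have hU := hR.unit
  have hAc := hA.continuous
  have hBc := hB.continuous
  obtain ⟨K, hK, hstep⟩ := step_moment (κ / 10) (by linarith) (by linarith)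
  set E : ℝ → ℝ → ℂ := fun β x => Complex.exp (((1 : ℝ) * x + β : ℝ) * Complex.I) with hE
  have hEn : ∀ β x, ‖E β x‖ = 1 := fun β x => Complex.norm_exp_ofReal_mul_I _
  have hEc : Continuous (fun z : ℝ × ℝ => E z.1 z.2) := by rw [hE]; fun_prop
  have hEcc : Continuous (fun z : ℝ × ℝ => conj (E z.1 z.2)) :=
    Complex.continuous_conj.comp hEc
  have hx : ∀ x, ∫⁻ β in Ioc 0 (2 * π), ENNReal.ofReal (wt x)
      * (‖(comp5 (E β x * A x) (conj (E β x) * B x)).1‖ₑ ^ (-(κ / 10))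
        * ‖(comp5 (E β x * A x) (conj (E β x) * B x)).2‖ₑ ^ (-(κ / 10)))
      ≤ K * (ENNReal.ofReal (wt x) * (‖A x‖ₑ ^ (-κ) * ‖B x‖ₑ ^ (-κ))) := by
    intro x
    rw [lintegral_const_mul' _ _ ENNReal.ofReal_ne_top]
    have h1 := hstep (Complex.exp (x * Complex.I) * A x) (Complex.exp (-(x * Complex.I)) * B x) (by
      rw [norm_mul, Complex.norm_exp_ofReal_mul_I, one_mul]
      exact (unit_le (hU x)).1)
    have e1 : ∀ β : ℝ, Complex.exp (β * Complex.I) * (Complex.exp (x * Complex.I) * A x)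
        = E β x * A x := by
      intro β
      rw [hE, ← mul_assoc, ← Complex.exp_add]
      congr 2; push_cast; ring
    have e2 : ∀ β : ℝ, Complex.exp (-(β * Complex.I)) * (Complex.exp (-(x * Complex.I)) * B x)
        = conj (E β x) * B x := by
      intro β
      rw [hE, ← mul_assoc, ← Complex.exp_add]
      simp only
      rw [← Complex.exp_conj]
      congr 2
      simp
      ring
    have n1 : ‖Complex.exp (x * Complex.I) * A x‖ₑ = ‖A x‖ₑ := by
      rw [← ofReal_norm, ← ofReal_norm, norm_mul, Complex.norm_exp_ofReal_mul_I, one_mul]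
    have n2 : ‖Complex.exp (-(x * Complex.I)) * B x‖ₑ = ‖B x‖ₑ := by
      rw [← ofReal_norm, ← ofReal_norm, norm_mul]
      have : -((x : ℂ) * Complex.I) = ((-x : ℝ) : ℂ) * Complex.I := by push_cast; ring
      rw [this, Complex.norm_exp_ofReal_mul_I, one_mul]
    simp only [e1, e2, n1, n2] at h1
    have hB1 : ‖B x‖ₑ ≤ 1 := by
      rw [← ofReal_norm]; exact ENNReal.ofReal_le_one.2 (unit_le (hU x)).2
    calc _ ≤ ENNReal.ofReal (wt x) * (K * (‖A x‖ₑ ^ (-(10 * (κ / 10)))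
          * ‖B x‖ₑ ^ (-(κ / 10)))) := by gcongr
      _ ≤ ENNReal.ofReal (wt x) * (K * (‖A x‖ₑ ^ (-κ) * ‖B x‖ₑ ^ (-κ))) := by
          have k1 : ‖A x‖ₑ ^ (-(10 * (κ / 10))) = ‖A x‖ₑ ^ (-κ) := by congr 1; ring
          have k2 : ‖B x‖ₑ ^ (-(κ / 10)) ≤ ‖B x‖ₑ ^ (-κ) :=
            neg_add_le_one_add _ hB1 (by linarith)
          rw [k1]
          exact mul_le_mul_right (mul_le_mul_right (mul_le_mul_right k2 _) _) _
      _ = _ := by ring
  obtain ⟨β, hβ, hfin⟩ := exists_param (by positivity : (0 : ℝ) < 2 * π)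
    (fun β x => ENNReal.ofReal (wt x)
      * (‖(comp5 (E β x * A x) (conj (E β x) * B x)).1‖ₑ ^ (-(κ / 10))
        * ‖(comp5 (E β x * A x) (conj (E β x) * B x)).2‖ₑ ^ (-(κ / 10)))) (by
      have c0 : Continuous (fun z : ℝ × ℝ => (E z.1 z.2 * A z.2, conj (E z.1 z.2) * B z.2)) := by
        fun_prop
      have c1 := (comp5_cont.1.comp c0).measurable.enorm.pow_const (-(κ / 10))
      have c2 := (comp5_cont.2.comp c0).measurable.enorm.pow_const (-(κ / 10))
      have c3 : Measurable (fun z : ℝ × ℝ => ENNReal.ofReal (wt z.2)) :=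
        (wt_cont.comp continuous_snd).measurable.ennreal_ofReal
      exact c3.mul (c1.mul c2)) _ hx (by
      rw [lintegral_const_mul' _ _ hK.ne]
      exact ENNReal.mul_lt_top hK hm)
  have hR1 := (reach_diag one_pos β).mul hR
  have hR2 : Reach (fun x => E β x * A x) (fun x => conj (E β x) * B x) := by
    convert hR1 using 2 with x x
    · simp [pmul, hE]
    · simp [pmul, hE]
  have hEs : Smooth (fun x => E β x) := Smooth.exp 1 β
  have hs := Smooth.comp5 (hEs.mul hA) (hEs.conj.mul hB)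
  refine ⟨_, _, hR2.comp5, hs.1, hs.2, ⟨8 * C ^ 3, fun x => ?_⟩, κ / 10, by linarith,
    by linarith, hfin⟩
  have hu := unit_le (hR2.unit x)
  refine (comp5_small _ _ hu.1 hu.2).trans ?_
  rw [norm_mul, hEn, one_mul]
  have h0 : 0 ≤ ‖A x‖ := norm_nonneg _
  calc 8 * ‖A x‖ ^ 3 ≤ 8 * (C * |x| ^ k) ^ 3 := by gcongr; exact hC x
    _ = 8 * C ^ 3 * |x| ^ (3 * k) := by rw [mul_pow, ← pow_mul, mul_comm k 3]; ring

lemma good_pow (n : ℕ) : Good (3 ^ n) := by
  induction n with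
  | zero => exact good_one
  | succ n ih => rw [pow_succ, mul_comm]; exact ih.step

/-! ### The last step -/

/-- `F`, `F'`, `F''`. -/
noncomputable def FF (f : ℝ → ℂ) (x : ℝ) : ℝ := (f x).re

/-- `(1 - F²) F'' + F F'²`. -/
noncomputable def GG (f : ℝ → ℂ) (x : ℝ) : ℝ :=
  (1 - (f x).re ^ 2) * (deriv (deriv f) x).re + (f x).re * (deriv f x).re ^ 2

/-- `1 - F²`. -/
noncomputable def DD (f : ℝ → ℂ) (x : ℝ) : ℝ := 1 - (f x).re ^ 2

/-- The coefficient. -/
noncomputable def c1 (a X Y : ℂ) : ℂ :=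
  1 / 2 * X - 1 / 8 * (a ^ 2 * conj X + 2 * a * conj a * X)
    + 1 / 8 * (conj a * Y ^ 2 + 2 * a * Y * conj Y)

noncomputable def pG (a Z Y : ℂ) : ℂ[X] :=
  C (-(1 / 8) * a ^ 2 * Z + 1 / 8 * a * Y ^ 2) * X ^ 6 + C (c1 a Z Y) * X ^ 4
    + C (1 / 2 * conj Z - 1 / 8 * (conj a ^ 2 * Z + 2 * a * conj a * conj Z)
      + 1 / 8 * (a * conj Y ^ 2 + 2 * conj a * Y * conj Y)) * X ^ 2
    + C (-(1 / 8) * conj a ^ 2 * conj Z + 1 / 8 * conj a * conj Y ^ 2)

noncomputable def pD (a : ℂ) : ℂ[X] :=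
  C (-(1 / 4) * a ^ 2) * X ^ 4 + C (1 - 1 / 2 * (a * conj a)) * X ^ 2
    + C (-(1 / 4) * conj a ^ 2)

lemma pG_deg (a Z Y : ℂ) : (pG a Z Y).natDegree ≤ 6 := by unfold pG; compute_degree
lemma pD_deg (a : ℂ) : (pD a).natDegree ≤ 6 := by
  have : (pD a).natDegree ≤ 4 := by unfold pD; compute_degree
  omega
lemma pG_coeff (a Z Y : ℂ) : (pG a Z Y).coeff 4 = c1 a Z Y := by
  simp only [pG, coeff_add, coeff_C_mul, coeff_X_pow, coeff_C]
  norm_num
lemma pD_coeff (a : ℂ) : (pD a).coeff 2 = 1 - 1 / 2 * (a * conj a) := by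
  simp only [pD, coeff_add, coeff_C_mul, coeff_X_pow, coeff_C]
  norm_num

lemma re_eq (z : ℂ) : (z.re : ℂ) = 1 / 2 * (z + conj z) := by
  rw [Complex.add_conj]; push_cast; ring

lemma pG_eval (a Z Y z : ℂ) (hz : ‖z‖ = 1) :
    ‖(pG a Z Y).eval z‖ = ‖((1 - (z * a).re ^ 2) * (z * Z).re
      + (z * a).re * (z * Y).re ^ 2 : ℝ)‖ := by
  have h1 : z * conj z = 1 := by
    rw [Complex.mul_conj, Complex.normSq_eq_norm_sq, hz]; simp
  have h2 : (pG a Z Y).eval z = z ^ 3 * (((1 - (z * a).re ^ 2) * (z * Z).re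
      + (z * a).re * (z * Y).re ^ 2 : ℝ) : ℂ) := by
    push_cast
    rw [re_eq (z * a), re_eq (z * Z), re_eq (z * Y)]
    simp only [pG, c1, eval_add, eval_mul, eval_C, eval_pow, eval_X, map_mul]
    generalize conj z = y at *
    generalize conj a = a'
    generalize conj Z = Z'
    generalize conj Y = Y'
    have e1 : z ^ 3 * ((1 - (1 / 2 * (z * a + y * a')) ^ 2) * (1 / 2 * (z * Z + y * Z'))
        + (1 / 2 * (z * a + y * a')) * (1 / 2 * (z * Y + y * Y')) ^ 2)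
        = 1 / 2 * (z ^ 4 * Z + (z * y) * z ^ 2 * Z')
          - 1 / 8 * (z ^ 2 * a + (z * y) * a') ^ 2 * (z ^ 2 * Z + (z * y) * Z')
          + 1 / 8 * (z ^ 2 * a + (z * y) * a') * (z ^ 2 * Y + (z * y) * Y') ^ 2 := by ring
    rw [e1, h1]
    ring
  rw [h2, norm_mul, norm_pow, hz, one_pow, one_mul, Complex.norm_real]

lemma pD_eval (a z : ℂ) (hz : ‖z‖ = 1) :
    ‖(pD a).eval z‖ = ‖(1 - (z * a).re ^ 2 : ℝ)‖ := by
  have h1 : z * conj z = 1 := by
    rw [Complex.mul_conj, Complex.normSq_eq_norm_sq, hz]; simp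
  have h2 : (pD a).eval z = z ^ 2 * ((1 - (z * a).re ^ 2 : ℝ) : ℂ) := by
    push_cast
    rw [re_eq (z * a)]
    simp only [pD, eval_add, eval_mul, eval_C, eval_pow, eval_X, map_mul]
    generalize conj z = y at *
    generalize conj a = a'
    have e1 : z ^ 2 * (1 - (1 / 2 * (z * a + y * a')) ^ 2)
        = z ^ 2 - 1 / 4 * (z ^ 2 * a + (z * y) * a') ^ 2 := by ring
    rw [e1, h1]
    ring
  rw [h2, norm_mul, norm_pow, hz, one_pow, one_mul, Complex.norm_real]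

lemma c1_phase (u a X Y : ℂ) (hu : ‖u‖ = 1) : c1 (u * a) (u * X) (u * Y) = u * c1 a X Y := by
  have h1 : u * conj u = 1 := by
    rw [Complex.mul_conj, Complex.normSq_eq_norm_sq, hu]; simp
  simp only [c1, map_mul]
  generalize conj u = y at *
  linear_combination (-(1 / 8) * (a ^ 2 * conj X * u + 2 * a * conj a * X * u)
    + 1 / 8 * (conj a * Y ^ 2 * u + 2 * a * Y * conj Y * u)) * h1

lemma c1_quad (a a' a'' : ℂ) : ∃ b c : ℂ, ∀ s : ℝ,
    c1 a (a'' + 2 * Complex.I * s * a' - s ^ 2 * a) (a' + Complex.I * s * a)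
      = (-(1 / 2) * a * (1 - a * conj a)) * s ^ 2 + b * s + c := by
  have hI : Complex.I ^ 2 = -1 := Complex.I_sq
  refine ⟨1 / 2 * (2 * Complex.I * a') - 1 / 8 * (a ^ 2 * (-2 * Complex.I * conj a')
      + 2 * a * conj a * (2 * Complex.I * a'))
      + 1 / 8 * (conj a * (2 * Complex.I * a * a')
        + 2 * a * (Complex.I * a * conj a' - Complex.I * a' * conj a)),
    1 / 2 * a'' - 1 / 8 * (a ^ 2 * conj a'' + 2 * a * conj a * a'')
      + 1 / 8 * (conj a * a' ^ 2 + 2 * a * a' * conj a'), fun s => ?_⟩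
  simp only [c1, map_mul, map_add, map_sub, map_pow, Complex.conj_I, Complex.conj_ofReal,
    map_ofNat]
  generalize conj a = b
  generalize conj a' = b'
  generalize conj a'' = b''
  linear_combination (-(1 / 8) * a ^ 2 * b * s ^ 2) * hI

/-- **The period maps used for the forcing.** -/
theorem level_final (n : ℕ) : ∃ f g : ℝ → ℂ, Reach f g ∧ Smooth f ∧ Smooth g ∧
    (∃ C, ∀ x, ‖f x‖ ≤ C * |x| ^ (3 ^ n)) ∧ ∃ κ : ℝ, 0 < κ ∧
    ∫⁻ x : ℝ, ENNReal.ofReal (wt x) * ‖GG f x‖ₑ ^ (-κ) < ⊤ ∧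
    ∫⁻ x : ℝ, ENNReal.ofReal (wt x) * ‖DD f x‖ₑ ^ (-κ) < ⊤ := by
  obtain ⟨A, B, hR, hA, hB, ⟨C, hC⟩, κ₀, hκ₀, hκ4, hm⟩ := good_pow n
  set κ := κ₀ / 24 with hκdef
  have hκ : 0 < κ := by positivity
  have hU := hR.unit
  have hAc := hA.continuous
  have hA1 := hA.deriv
  have hA2 := hA1.deriv
  have hA1c := hA1.continuous
  have hA2c := hA2.continuous
  obtain ⟨K₁, hK₁, hquad⟩ := quad_moment κ hκ (by linarith)
  obtain ⟨K₂, hK₂, hcirc⟩ := circ_moment 6 κ hκ (by push_cast; linarith)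
  have hw : ∫⁻ x : ℝ, ENNReal.ofReal (wt x) < ⊤ := by
    refine lt_of_le_of_lt (lintegral_mono fun x => ENNReal.ofReal_le_ofReal ?_) lint_inv
    unfold wt
    have h1 : 1 ≤ 1 + x ^ 2 := by nlinarith [sq_nonneg x]
    exact inv_anti₀ (by positivity) (by nlinarith)
  -- the choice of `s`
  set Y : ℝ → ℝ → ℂ := fun s x => deriv A x + Complex.I * s * A x with hY
  set Z : ℝ → ℝ → ℂ := fun s x => deriv (deriv A) x + 2 * Complex.I * s * deriv A x
    - s ^ 2 * A x with hZ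
  have hcc := Complex.continuous_conj
  have hc1 : Continuous (fun z : ℂ × ℂ × ℂ => c1 z.1 z.2.1 z.2.2) := by
    unfold c1
    have i1 : Continuous (fun z : ℂ × ℂ × ℂ => conj z.1) := hcc.comp continuous_fst
    have i2 : Continuous (fun z : ℂ × ℂ × ℂ => conj z.2.1) :=
      hcc.comp (continuous_fst.comp continuous_snd)
    have i3 : Continuous (fun z : ℂ × ℂ × ℂ => conj z.2.2) :=
      hcc.comp (continuous_snd.comp continuous_snd)
    fun_prop
  have hs1 : ∀ x, ∫⁻ s in Ioc (1 : ℝ) 2, ENNReal.ofReal (wt x)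
      * ‖c1 (A x) (Z s x) (Y s x)‖ₑ ^ (-κ)
      ≤ (2 * K₁) * (ENNReal.ofReal (wt x) * (‖A x‖ₑ ^ (-κ₀) * ‖B x‖ₑ ^ (-κ₀))) := by
    intro x
    rw [lintegral_const_mul' _ _ ENNReal.ofReal_ne_top]
    obtain ⟨b, c, hbc⟩ := c1_quad (A x) (deriv A x) (deriv (deriv A) x)
    have h1 : ∫⁻ s in Ioc (1 : ℝ) 2, ‖c1 (A x) (Z s x) (Y s x)‖ₑ ^ (-κ)
        ≤ K₁ * ‖-(1 / 2) * A x * (1 - A x * conj (A x))‖ₑ ^ (-κ) := by
      have := hquad (-(1 / 2) * A x * (1 - A x * conj (A x))) b c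
      simp only [← hbc] at this
      exact this
    have hA1' : ‖A x‖ₑ ≤ 1 := by
      rw [← ofReal_norm]; exact ENNReal.ofReal_le_one.2 (unit_le (hU x)).1
    have hB1 : ‖B x‖ₑ ≤ 1 := by
      rw [← ofReal_norm]; exact ENNReal.ofReal_le_one.2 (unit_le (hU x)).2
    have h2 : ‖-(1 / 2) * A x * (1 - A x * conj (A x))‖ₑ = 2⁻¹ * (‖A x‖ₑ * ‖B x‖ₑ ^ 2) := by
      have e1 : (1 : ℂ) - A x * conj (A x) = ((‖B x‖ ^ 2 : ℝ) : ℂ) := by
        have hh : ‖A x‖ ^ 2 = 1 - ‖B x‖ ^ 2 := by linarith [hU x]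
        rw [Complex.mul_conj, Complex.normSq_eq_norm_sq, hh]; push_cast; ring
      rw [e1, enorm_mul, enorm_mul]
      have e2 : ‖(-(1 / 2) : ℂ)‖ₑ = 2⁻¹ := by
        rw [← ofReal_norm]
        norm_num
        rw [ENNReal.ofReal_div_of_pos (by norm_num)]; simp
      have e3 : ‖((‖B x‖ ^ 2 : ℝ) : ℂ)‖ₑ = ‖B x‖ₑ ^ 2 := by
        rw [← ofReal_norm, Complex.norm_real, Real.norm_eq_abs, abs_of_nonneg (by positivity),
          ENNReal.ofReal_pow (norm_nonneg _), ofReal_norm]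
      rw [e2, e3, mul_assoc]
    have h3 : (2⁻¹ * (‖A x‖ₑ * ‖B x‖ₑ ^ 2)) ^ (-κ)
        ≤ 2 * (‖A x‖ₑ ^ (-κ₀) * ‖B x‖ₑ ^ (-κ₀)) := by
      rw [ENNReal.mul_rpow_of_ne_top (by simp) (by finiteness),
        ENNReal.mul_rpow_of_ne_top (by finiteness) (by finiteness)]
      have j1 : ((2 : ℝ≥0∞)⁻¹) ^ (-κ) ≤ 2 := by
        rw [ENNReal.inv_rpow, ENNReal.rpow_neg, inv_inv]
        calc (2 : ℝ≥0∞) ^ κ ≤ 2 ^ (1 : ℝ) :=
              ENNReal.rpow_le_rpow_of_exponent_le (by norm_num) (by linarith)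
          _ = 2 := by simp
      have j2 : ‖A x‖ₑ ^ (-κ) ≤ ‖A x‖ₑ ^ (-κ₀) := neg_add_le_one_add _ hA1' (by linarith)
      have j3 : (‖B x‖ₑ ^ 2) ^ (-κ) ≤ ‖B x‖ₑ ^ (-κ₀) := by
        rw [← ENNReal.rpow_natCast, ← ENNReal.rpow_mul]
        exact ENNReal.rpow_le_rpow_of_exponent_ge hB1 (by push_cast; linarith)
      exact mul_le_mul' j1 (mul_le_mul' j2 j3)
    rw [h2] at h1
    calc _ ≤ ENNReal.ofReal (wt x) * (K₁ * (2 * (‖A x‖ₑ ^ (-κ₀) * ‖B x‖ₑ ^ (-κ₀)))) :=
          mul_le_mul_right (h1.trans (mul_le_mul_right h3 _)) _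
      _ = _ := by ring
  obtain ⟨s, hs, hsfin⟩ := exists_param (by norm_num : (1 : ℝ) < 2)
    (fun s x => ENNReal.ofReal (wt x) * ‖c1 (A x) (Z s x) (Y s x)‖ₑ ^ (-κ)) (by
      have c0 : Continuous (fun z : ℝ × ℝ => (A z.2, Z z.1 z.2, Y z.1 z.2)) := by
        rw [hZ, hY]; fun_prop
      have c2 := (hc1.comp c0).measurable.enorm.pow_const (-κ)
      have c3 : Measurable (fun z : ℝ × ℝ => ENNReal.ofReal (wt z.2)) :=
        (wt_cont.comp continuous_snd).measurable.ennreal_ofReal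
      exact c3.mul c2) _ hs1 (by
      rw [lintegral_const_mul' _ _ (by finiteness)]
      exact ENNReal.mul_lt_top (by finiteness) hm)
  have hs0 : 0 < s := lt_trans one_pos hs.1
  -- the choice of `β`
  set E : ℝ → ℝ → ℂ := fun β x => Complex.exp ((s * x + β : ℝ) * Complex.I) with hE
  have hEn : ∀ β x, ‖E β x‖ = 1 := fun β x => Complex.norm_exp_ofReal_mul_I _
  have hEc : Continuous (fun z : ℝ × ℝ => E z.1 z.2) := by rw [hE]; fun_prop
  set G : ℝ → ℝ → ℝ := fun β x => (1 - (E β x * A x).re ^ 2) * (E β x * Z s x).re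
    + (E β x * A x).re * (E β x * Y s x).re ^ 2 with hG
  set D : ℝ → ℝ → ℝ := fun β x => 1 - (E β x * A x).re ^ 2 with hD
  have hβ1 : ∀ x, ∫⁻ β in Ioc 0 (2 * π), (ENNReal.ofReal (wt x) * ‖G β x‖ₑ ^ (-κ)
      + ENNReal.ofReal (wt x) * ‖D β x‖ₑ ^ (-κ))
      ≤ K₂ * (ENNReal.ofReal (wt x) * ‖c1 (A x) (Z s x) (Y s x)‖ₑ ^ (-κ))
        + (2 * K₂) * ENNReal.ofReal (wt x) := by
    intro x
    set u : ℂ := Complex.exp ((s * x : ℝ) * Complex.I) with hu
    have hun : ‖u‖ = 1 := Complex.norm_exp_ofReal_mul_I _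
    have hEu : ∀ β, E β x = Complex.exp (β * Complex.I) * u := by
      intro β
      rw [hE, hu, ← Complex.exp_add]
      congr 1; push_cast; ring
    have g1 := hcirc (pG (u * A x) (u * Z s x) (u * Y s x)) (pG_deg _ _ _) 4
    have g2 := hcirc (pD (u * A x)) (pD_deg _) 2
    rw [pG_coeff, c1_phase u _ _ _ hun] at g1
    rw [pD_coeff] at g2
    have e1 : ∀ β : ℝ, ‖(pG (u * A x) (u * Z s x) (u * Y s x)).eval
        (Complex.exp (β * Complex.I))‖ₑ = ‖G β x‖ₑ := by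
      intro β
      rw [← ofReal_norm, ← ofReal_norm, pG_eval _ _ _ _ (Complex.norm_exp_ofReal_mul_I _)]
      simp only [hG, hEu, mul_assoc]
    have e2 : ∀ β : ℝ, ‖(pD (u * A x)).eval (Complex.exp (β * Complex.I))‖ₑ = ‖D β x‖ₑ := by
      intro β
      rw [← ofReal_norm, ← ofReal_norm, pD_eval _ _ (Complex.norm_exp_ofReal_mul_I _)]
      simp only [hD, hEu, mul_assoc]
    have e3 : ‖u * c1 (A x) (Z s x) (Y s x)‖ₑ = ‖c1 (A x) (Z s x) (Y s x)‖ₑ := by
      rw [← ofReal_norm, ← ofReal_norm, norm_mul, hun, one_mul]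
    have e4 : ‖1 - 1 / 2 * (u * A x * conj (u * A x))‖ₑ ^ (-κ) ≤ 2 := by
      have f1 : (1 : ℂ) - 1 / 2 * (u * A x * conj (u * A x)) = ((1 - ‖A x‖ ^ 2 / 2 : ℝ) : ℂ) := by
        rw [Complex.mul_conj, Complex.normSq_eq_norm_sq, norm_mul, hun]; push_cast; ring
      have f2 : (2 : ℝ≥0∞)⁻¹ ≤ ‖(1 : ℂ) - 1 / 2 * (u * A x * conj (u * A x))‖ₑ := by
        rw [f1, ← ofReal_norm, Complex.norm_real, Real.norm_eq_abs]
        rw [show (2 : ℝ≥0∞)⁻¹ = ENNReal.ofReal (1 / 2) by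
            rw [one_div, ENNReal.ofReal_inv_of_pos (by norm_num)]; simp]
        apply ENNReal.ofReal_le_ofReal
        have := (unit_le (hU x)).1
        have h0 := norm_nonneg (A x)
        refine le_trans ?_ (le_abs_self _)
        nlinarith
      calc _ ≤ ((2 : ℝ≥0∞)⁻¹) ^ (-κ) := neg_anti hκ.le f2
        _ = 2 ^ κ := by rw [ENNReal.inv_rpow, ENNReal.rpow_neg, inv_inv]
        _ ≤ 2 ^ (1 : ℝ) := ENNReal.rpow_le_rpow_of_exponent_le (by norm_num) (by linarith)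
        _ = 2 := by simp
    simp only [e1, e2, e3] at g1 g2
    have hmG : Measurable (fun β => ENNReal.ofReal (wt x) * ‖G β x‖ₑ ^ (-κ)) := by
      have : Continuous (fun β => G β x) := by
        have hre := Complex.continuous_re
        have : Continuous (fun β => E β x) := by rw [hE]; fun_prop
        rw [hG]; fun_prop
      exact (this.measurable.enorm.pow_const _).const_mul _
    rw [lintegral_add_left hmG, lintegral_const_mul' _ _ ENNReal.ofReal_ne_top,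
      lintegral_const_mul' _ _ ENNReal.ofReal_ne_top]
    calc _ ≤ ENNReal.ofReal (wt x) * (K₂ * ‖c1 (A x) (Z s x) (Y s x)‖ₑ ^ (-κ))
          + ENNReal.ofReal (wt x) * (K₂ * 2) := by
          exact add_le_add (mul_le_mul_right g1 _)
            (mul_le_mul_right (g2.trans (mul_le_mul_right e4 _)) _)
      _ = _ := by ring
  obtain ⟨β, hβ, hβfin⟩ := exists_param (by positivity : (0 : ℝ) < 2 * π)
    (fun β x => ENNReal.ofReal (wt x) * ‖G β x‖ₑ ^ (-κ)
      + ENNReal.ofReal (wt x) * ‖D β x‖ₑ ^ (-κ)) (by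
      have hre := Complex.continuous_re
      have cG : Continuous (fun z : ℝ × ℝ => G z.1 z.2) := by
        rw [hG, hZ, hY]; fun_prop
      have cD : Continuous (fun z : ℝ × ℝ => D z.1 z.2) := by
        rw [hD]; fun_prop
      have c3 : Measurable (fun z : ℝ × ℝ => ENNReal.ofReal (wt z.2)) :=
        (wt_cont.comp continuous_snd).measurable.ennreal_ofReal
      exact (c3.mul (cG.measurable.enorm.pow_const _)).add
        (c3.mul (cD.measurable.enorm.pow_const _))) _ hβ1 (by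
      have hm1 : Measurable (fun x => ENNReal.ofReal (wt x)
          * ‖c1 (A x) (Z s x) (Y s x)‖ₑ ^ (-κ)) := by
        have c0 : Continuous (fun x : ℝ => (A x, Z s x, Y s x)) := by
          rw [hZ, hY]; fun_prop
        exact wt_cont.measurable.ennreal_ofReal.mul
          ((hc1.comp c0).measurable.enorm.pow_const (-κ))
      rw [lintegral_add_left (hm1.const_mul _), lintegral_const_mul' _ _ hK₂.ne,
        lintegral_const_mul' _ _ (by finiteness)]
      exact ENNReal.add_lt_top.2 ⟨ENNReal.mul_lt_top hK₂ hsfin,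
        ENNReal.mul_lt_top (by finiteness) hw⟩)
  have hR1 := (reach_diag hs0 β).mul hR
  have hR2 : Reach (fun x => E β x * A x) (fun x => conj (E β x) * B x) := by
    convert hR1 using 2 with x x
    · simp [pmul, hE]
    · simp [pmul, hE]
  have hEs : Smooth (fun x => E β x) := Smooth.exp s β
  have hEd : ∀ x, HasDerivAt (fun x => E β x) (Complex.I * s * E β x) x := by
    intro x
    have h1 : HasDerivAt (fun x : ℝ => ((s * x + β : ℝ) : ℂ) * Complex.I) (s * Complex.I) x := by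
      have h2 : HasDerivAt (fun x : ℝ => s * x + β) s x := by
        simpa using ((hasDerivAt_id x).const_mul s).add_const β
      exact (h2.ofReal_comp).mul_const _
    refine h1.cexp.congr_deriv ?_
    rw [hE]; ring
  have hd1 : deriv (fun x => E β x * A x) = fun x => E β x * Y s x := by
    ext x
    have hh : HasDerivAt (fun x => E β x * A x) _ x := (hEd x).mul (hA.hasDerivAt x)
    rw [hh.deriv, hY]
    ring
  have hd2 : deriv (deriv (fun x => E β x * A x)) = fun x => E β x * Z s x := by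
    rw [hd1]
    ext x
    have hYd : HasDerivAt (fun x => Y s x)
        (deriv (deriv A) x + Complex.I * s * deriv A x) x :=
      (hA1.hasDerivAt x).add ((hA.hasDerivAt x).const_mul (Complex.I * s))
    have hh : HasDerivAt (fun x => E β x * Y s x) _ x := (hEd x).mul hYd
    rw [hh.deriv, hY, hZ]
    have hI : Complex.I ^ 2 = -1 := Complex.I_sq
    linear_combination (s ^ 2 * E β x * A x) * hI
  refine ⟨fun x => E β x * A x, fun x => conj (E β x) * B x, hR2, hEs.mul hA, hEs.conj.mul hB,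
    ⟨C, fun x => by rw [norm_mul, hEn, one_mul]; exact hC x⟩, κ, hκ, ?_, ?_⟩
  · refine lt_of_le_of_lt (lintegral_mono fun x => ?_) hβfin
    have : GG (fun x => E β x * A x) x = G β x := by
      unfold GG; rw [hd2, hd1]
    rw [this]
    exact le_self_add
  · refine lt_of_le_of_lt (lintegral_mono fun x => ?_) hβfin
    exact le_add_self

end Pool.Agent.H309.SD
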