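import Mathlib

/-! Functions all of whose derivatives are bounded. -/

open MeasureTheory Set
open scoped ENNReal Real ComplexConjugate

namespace Pool.Agent.H309.SD

/-- `f` is continuous and bounded together with its first `k` derivatives. -/
def Nice : ℕ → (ℝ → ℂ) → Prop
  | 0, f => Continuous f ∧ ∃ C, ∀ x, ‖f x‖ ≤ C
  | k + 1, f => (Continuous f ∧ ∃ C, ∀ x, ‖f x‖ ≤ C) ∧ Differentiable ℝ f ∧ Nice k (deriv f)

lemma Nice.zero {k : ℕ} {f : ℝ → ℂ} (h : Nice k f) : Continuous f ∧ ∃ C, ∀ x, ‖f x‖ ≤ C := by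
  cases k with
  | zero => exact h
  | succ k => exact h.1

lemma Nice.pred {k : ℕ} {f : ℝ → ℂ} (h : Nice (k + 1) f) : Nice k f := by
  induction k generalizing f with
  | zero => exact h.1
  | succ k ih => exact ⟨h.1, h.2.1, ih h.2.2⟩

lemma Nice.const (k : ℕ) (c : ℂ) : Nice k (fun _ => c) := by
  induction k generalizing c with
  | zero => exact ⟨continuous_const, ‖c‖, fun _ => le_rfl⟩
  | succ k ih =>
    refine ⟨⟨continuous_const, ‖c‖, fun _ => le_rfl⟩, differentiable_const c, ?_⟩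
    have : deriv (fun _ : ℝ => c) = fun _ => 0 := by ext x; simp
    rw [this]; exact ih 0

lemma Nice.add {k : ℕ} {f g : ℝ → ℂ} (hf : Nice k f) (hg : Nice k g) :
    Nice k (fun x => f x + g x) := by
  induction k generalizing f g with
  | zero =>
    obtain ⟨h1, C, hC⟩ := hf; obtain ⟨h2, D, hD⟩ := hg
    exact ⟨h1.add h2, C + D, fun x => (norm_add_le _ _).trans (add_le_add (hC x) (hD x))⟩
  | succ k ih =>
    obtain ⟨⟨h1, C, hC⟩, h1d, h1n⟩ := hf; obtain ⟨⟨h2, D, hD⟩, h2d, h2n⟩ := hg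
    refine ⟨⟨h1.add h2, C + D, fun x => (norm_add_le _ _).trans (add_le_add (hC x) (hD x))⟩,
      h1d.add h2d, ?_⟩
    have : deriv (fun x => f x + g x) = fun x => deriv f x + deriv g x := by
      ext x; exact ((h1d x).hasDerivAt.add (h2d x).hasDerivAt).deriv
    rw [this]; exact ih h1n h2n

lemma Nice.mul {k : ℕ} {f g : ℝ → ℂ} (hf : Nice k f) (hg : Nice k g) :
    Nice k (fun x => f x * g x) := by
  induction k generalizing f g with
  | zero =>
    obtain ⟨h1, C, hC⟩ := hf; obtain ⟨h2, D, hD⟩ := hg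
    refine ⟨h1.mul h2, C * D, fun x => ?_⟩
    rw [norm_mul]
    exact mul_le_mul (hC x) (hD x) (norm_nonneg _) ((norm_nonneg _).trans (hC x))
  | succ k ih =>
    have hf0 := hf.pred; have hg0 := hg.pred
    obtain ⟨⟨h1, C, hC⟩, h1d, h1n⟩ := hf; obtain ⟨⟨h2, D, hD⟩, h2d, h2n⟩ := hg
    refine ⟨⟨h1.mul h2, C * D, fun x => ?_⟩, h1d.mul h2d, ?_⟩
    · rw [norm_mul]
      exact mul_le_mul (hC x) (hD x) (norm_nonneg _) ((norm_nonneg _).trans (hC x))
    · have : deriv (fun x => f x * g x) = fun x => deriv f x * g x + f x * deriv g x := by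
        ext x; exact ((h1d x).hasDerivAt.mul (h2d x).hasDerivAt).deriv
      rw [this]; exact (ih h1n hg0).add (ih hf0 h2n)

lemma hasDerivAt_conj {f : ℝ → ℂ} {f' : ℂ} {x : ℝ} (h : HasDerivAt f f' x) :
    HasDerivAt (fun x => conj (f x)) (conj f') x := by
  have := h.star
  simpa using this

lemma Nice.conj {k : ℕ} {f : ℝ → ℂ} (hf : Nice k f) : Nice k (fun x => conj (f x)) := by
  induction k generalizing f with
  | zero =>
    obtain ⟨h1, C, hC⟩ := hf
    exact ⟨Complex.continuous_conj.comp h1, C, fun x => by simpa using hC x⟩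
  | succ k ih =>
    obtain ⟨⟨h1, C, hC⟩, h1d, h1n⟩ := hf
    refine ⟨⟨Complex.continuous_conj.comp h1, C, fun x => by simpa using hC x⟩,
      fun x => (hasDerivAt_conj (h1d x).hasDerivAt).differentiableAt, ?_⟩
    have : deriv (fun x => (starRingEnd ℂ) (f x)) = fun x => (starRingEnd ℂ) (deriv f x) := by
      ext x; exact (hasDerivAt_conj (h1d x).hasDerivAt).deriv
    rw [this]; exact ih h1n

lemma Nice.constMul {k : ℕ} {f : ℝ → ℂ} (c : ℂ) (hf : Nice k f) : Nice k (fun x => c * f x) :=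
  (Nice.const k c).mul hf

lemma Nice.neg {k : ℕ} {f : ℝ → ℂ} (hf : Nice k f) : Nice k (fun x => - f x) := by
  have := hf.constMul (-1)
  simpa using this

lemma Nice.sub {k : ℕ} {f g : ℝ → ℂ} (hf : Nice k f) (hg : Nice k g) :
    Nice k (fun x => f x - g x) := by
  simpa [sub_eq_add_neg] using hf.add hg.neg

/-- `f` has bounded derivatives of all orders. -/
def Smooth (f : ℝ → ℂ) : Prop := ∀ k, Nice k f

lemma Smooth.const (c : ℂ) : Smooth (fun _ => c) := fun k => Nice.const k c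
lemma Smooth.add {f g : ℝ → ℂ} (hf : Smooth f) (hg : Smooth g) : Smooth (fun x => f x + g x) :=
  fun k => (hf k).add (hg k)
lemma Smooth.sub {f g : ℝ → ℂ} (hf : Smooth f) (hg : Smooth g) : Smooth (fun x => f x - g x) :=
  fun k => (hf k).sub (hg k)
lemma Smooth.mul {f g : ℝ → ℂ} (hf : Smooth f) (hg : Smooth g) : Smooth (fun x => f x * g x) :=
  fun k => (hf k).mul (hg k)
lemma Smooth.conj {f : ℝ → ℂ} (hf : Smooth f) : Smooth (fun x => conj (f x)) :=
  fun k => (hf k).conj
lemma Smooth.constMul {f : ℝ → ℂ} (c : ℂ) (hf : Smooth f) : Smooth (fun x => c * f x) :=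
  fun k => (hf k).constMul c
lemma Smooth.deriv {f : ℝ → ℂ} (hf : Smooth f) : Smooth (deriv f) := fun k => (hf (k + 1)).2.2
lemma Smooth.hasDerivAt {f : ℝ → ℂ} (hf : Smooth f) (x : ℝ) : HasDerivAt f (_root_.deriv f x) x :=
  ((hf 1).2.1 x).hasDerivAt
lemma Smooth.continuous {f : ℝ → ℂ} (hf : Smooth f) : Continuous f := (hf 0).1
lemma Smooth.bdd {f : ℝ → ℂ} (hf : Smooth f) : ∃ C, 0 < C ∧ ∀ x, ‖f x‖ ≤ C := by
  obtain ⟨C, hC⟩ := (hf 0).2
  exact ⟨max C 1, by positivity, fun x => (hC x).trans (le_max_left _ _)⟩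

/-- `exp (i (s x + b))`. -/
lemma Smooth.exp (s b : ℝ) : Smooth (fun x : ℝ => Complex.exp ((s * x + b : ℝ) * Complex.I)) := by
  have hd : ∀ x : ℝ, HasDerivAt (fun x : ℝ => Complex.exp ((s * x + b : ℝ) * Complex.I))
      ((s * Complex.I) * Complex.exp ((s * x + b : ℝ) * Complex.I)) x := by
    intro x
    have h1 : HasDerivAt (fun x : ℝ => ((s * x + b : ℝ) : ℂ) * Complex.I) (s * Complex.I) x := by
      have h2 : HasDerivAt (fun x : ℝ => s * x + b) s x := by
        simpa using ((hasDerivAt_id x).const_mul s).add_const b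
      exact (h2.ofReal_comp).mul_const _
    have := h1.cexp
    convert this using 1
    ring
  have h0 : Continuous (fun x : ℝ => Complex.exp ((s * x + b : ℝ) * Complex.I)) := by fun_prop
  have hb : ∃ C, ∀ x : ℝ, ‖Complex.exp ((s * x + b : ℝ) * Complex.I)‖ ≤ C :=
    ⟨1, fun x => by rw [Complex.norm_exp_ofReal_mul_I]⟩
  intro k
  induction k with
  | zero => exact ⟨h0, hb⟩
  | succ k ih =>
    refine ⟨⟨h0, hb⟩, fun x => (hd x).differentiableAt, ?_⟩
    have : _root_.deriv (fun x : ℝ => Complex.exp ((s * x + b : ℝ) * Complex.I))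
        = fun x : ℝ => (s * Complex.I) * Complex.exp ((s * x + b : ℝ) * Complex.I) := by
      ext x; exact (hd x).deriv
    rw [this]
    exact ih.constMul _

/-- The frequency of a pulse. -/
noncomputable def om (x : ℝ) : ℝ := √(x ^ 2 + (π / 2) ^ 2)

lemma om_pos (x : ℝ) : 0 < om x := by unfold om; positivity
lemma om_sq (x : ℝ) : om x ^ 2 = x ^ 2 + (π / 2) ^ 2 := Real.sq_sqrt (by positivity)
lemma om_ge_one (x : ℝ) : 1 ≤ om x := by
  have := om_sq x; have := om_pos x; have := Real.pi_gt_three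
  nlinarith [sq_nonneg x]
lemma abs_le_om (x : ℝ) : |x| ≤ om x := by
  have h1 := om_sq x
  have h2 := om_pos x
  apply abs_le_of_sq_le_sq _ h2.le
  nlinarith [sq_nonneg (π / 2)]

lemma hasDerivAt_om (x : ℝ) : HasDerivAt om (x / om x) x := by
  have h1 : HasDerivAt (fun x : ℝ => x ^ 2 + (π / 2) ^ 2) (2 * x) x := by
    simpa using (hasDerivAt_pow 2 x).add_const ((π / 2) ^ 2)
  have h2 := h1.sqrt (by positivity)
  have h3 : 2 * x / (2 * √(x ^ 2 + (π / 2) ^ 2)) = x / om x := by
    unfold om; rw [mul_div_mul_left _ _ (by norm_num)]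
  rw [h3] at h2
  exact h2

lemma base_smooth : Smooth (fun x => (Real.cos (om x) : ℂ)) ∧
    Smooth (fun x => (Real.sin (om x) : ℂ)) ∧
    Smooth (fun x => ((x / om x : ℝ) : ℂ)) ∧ Smooth (fun x => ((1 / om x : ℝ) : ℂ)) := by
  have d1 : ∀ x : ℝ, HasDerivAt (fun x => (Real.cos (om x) : ℂ))
      ((-1) * ((Real.sin (om x) : ℂ) * ((x / om x : ℝ) : ℂ))) x := by
    intro x
    have := ((hasDerivAt_om x).cos).ofReal_comp
    convert this using 1
    push_cast; ring
  have d2 : ∀ x : ℝ, HasDerivAt (fun x => (Real.sin (om x) : ℂ))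
      ((Real.cos (om x) : ℂ) * ((x / om x : ℝ) : ℂ)) x := by
    intro x
    have := ((hasDerivAt_om x).sin).ofReal_comp
    convert this using 1
    push_cast; ring
  have d3 : ∀ x : ℝ, HasDerivAt (fun x => ((x / om x : ℝ) : ℂ))
      (((1 / om x : ℝ) : ℂ) - ((x / om x : ℝ) : ℂ) * ((x / om x : ℝ) : ℂ)
        * ((1 / om x : ℝ) : ℂ)) x := by
    intro x
    have h := om_pos x
    have h1 : HasDerivAt (fun x => x / om x) (1 / om x - (x / om x) * (x / om x) * (1 / om x)) x := by
      have h2 : HasDerivAt (fun x => x / om x) _ x :=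
        (hasDerivAt_id x).div (hasDerivAt_om x) h.ne'
      refine h2.congr_deriv ?_
      simp only [id]
      field_simp
    have := h1.ofReal_comp
    convert this using 1
    push_cast
    ring
  have d4 : ∀ x : ℝ, HasDerivAt (fun x => ((1 / om x : ℝ) : ℂ))
      ((-1) * (((x / om x : ℝ) : ℂ) * (((1 / om x : ℝ) : ℂ) * ((1 / om x : ℝ) : ℂ)))) x := by
    intro x
    have h := om_pos x
    have h1 : HasDerivAt (fun x => 1 / om x) (-((x / om x) * ((1 / om x) * (1 / om x)))) x := by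
      have h2 : HasDerivAt (fun x => 1 / om x) _ x :=
        (hasDerivAt_const x (1 : ℝ)).div (hasDerivAt_om x) h.ne'
      refine h2.congr_deriv ?_
      field_simp
      ring
    have := h1.ofReal_comp
    convert this using 1
    push_cast
    ring
  have hom : Continuous om := by unfold om; fun_prop
  have c1 : Continuous (fun x => (Real.cos (om x) : ℂ)) := by fun_prop
  have c2 : Continuous (fun x => (Real.sin (om x) : ℂ)) := by fun_prop
  have c3 : Continuous (fun x => ((x / om x : ℝ) : ℂ)) :=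
    Complex.continuous_ofReal.comp (continuous_id.div hom (fun x => (om_pos x).ne'))
  have c4 : Continuous (fun x => ((1 / om x : ℝ) : ℂ)) :=
    Complex.continuous_ofReal.comp (continuous_const.div hom (fun x => (om_pos x).ne'))
  have b1 : ∃ C, ∀ x, ‖(Real.cos (om x) : ℂ)‖ ≤ C := ⟨1, fun x => by
    rw [Complex.norm_real]; exact Real.abs_cos_le_one _⟩
  have b2 : ∃ C, ∀ x, ‖(Real.sin (om x) : ℂ)‖ ≤ C := ⟨1, fun x => by
    rw [Complex.norm_real]; exact Real.abs_sin_le_one _⟩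
  have b3 : ∃ C, ∀ x, ‖((x / om x : ℝ) : ℂ)‖ ≤ C := ⟨1, fun x => by
    rw [Complex.norm_real, Real.norm_eq_abs, abs_div, abs_of_pos (om_pos x),
      div_le_one (om_pos x)]
    exact abs_le_om x⟩
  have b4 : ∃ C, ∀ x, ‖((1 / om x : ℝ) : ℂ)‖ ≤ C := ⟨1, fun x => by
    rw [Complex.norm_real, Real.norm_eq_abs, abs_div, abs_of_pos (om_pos x),
      div_le_one (om_pos x)]
    simpa using om_ge_one x⟩
  have key : ∀ k, Nice k (fun x => (Real.cos (om x) : ℂ)) ∧
      Nice k (fun x => (Real.sin (om x) : ℂ)) ∧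
      Nice k (fun x => ((x / om x : ℝ) : ℂ)) ∧ Nice k (fun x => ((1 / om x : ℝ) : ℂ)) := by
    intro k
    induction k with
    | zero => exact ⟨⟨c1, b1⟩, ⟨c2, b2⟩, ⟨c3, b3⟩, ⟨c4, b4⟩⟩
    | succ k ih =>
      obtain ⟨i1, i2, i3, i4⟩ := ih
      refine ⟨⟨⟨c1, b1⟩, fun x => (d1 x).differentiableAt, ?_⟩,
        ⟨⟨c2, b2⟩, fun x => (d2 x).differentiableAt, ?_⟩,
        ⟨⟨c3, b3⟩, fun x => (d3 x).differentiableAt, ?_⟩,
        ⟨⟨c4, b4⟩, fun x => (d4 x).differentiableAt, ?_⟩⟩
      · rw [show _root_.deriv (fun x => (Real.cos (om x) : ℂ)) = _ from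
          funext fun x => (d1 x).deriv]
        exact (i2.mul i3).constMul _
      · rw [show _root_.deriv (fun x => (Real.sin (om x) : ℂ)) = _ from
          funext fun x => (d2 x).deriv]
        exact i1.mul i3
      · rw [show _root_.deriv (fun x => ((x / om x : ℝ) : ℂ)) = _ from
          funext fun x => (d3 x).deriv]
        exact i4.sub ((i3.mul i3).mul i4)
      · rw [show _root_.deriv (fun x => ((1 / om x : ℝ) : ℂ)) = _ from
          funext fun x => (d4 x).deriv]
        exact (i3.mul (i4.mul i4)).constMul _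
  exact ⟨fun k => (key k).1, fun k => (key k).2.1, fun k => (key k).2.2.1,
    fun k => (key k).2.2.2⟩

end Pool.Agent.H309.SD
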