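import Mathlib

/-! Van der Corput's lemma with an amplitude. -/

open MeasureTheory Set
open scoped ENNReal Real ComplexConjugate

namespace Pool.Agent.H309.SD

lemma vdc_pos {c d : ℝ} (hcd : c ≤ d) {φ φ' φ'' : ℝ → ℝ} {A A' : ℝ → ℂ} {l A₀ A₁ : ℝ}
    (hl : 0 < l) (h1 : ∀ x ∈ Icc c d, HasDerivAt φ (φ' x) x)
    (h2 : ∀ x ∈ Icc c d, HasDerivAt φ' (φ'' x) x)
    (h3 : ∀ x ∈ Icc c d, HasDerivAt A (A' x) x)
    (hc2 : ContinuousOn φ'' (Icc c d)) (hcA : ContinuousOn A' (Icc c d))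
    (hlow : ∀ x ∈ Icc c d, l ≤ φ'' x) (hA0 : ∀ x ∈ Icc c d, ‖A x‖ ≤ A₀)
    (hA1 : ∀ x ∈ Icc c d, ‖A' x‖ ≤ A₁) :
    ‖∫ x in c..d, A x * Complex.exp (Complex.I * φ x)‖ ≤ (8 * A₀ + (d - c) * A₁) / √l := by
  set μ := √l with hμ
  have hμ0 : 0 < μ := Real.sqrt_pos.2 hl
  have hμ2 : μ ^ 2 = l := Real.sq_sqrt hl.le
  have hA₀ : 0 ≤ A₀ := (norm_nonneg _).trans (hA0 c ⟨le_rfl, hcd⟩)
  have hA₁ : 0 ≤ A₁ := (norm_nonneg _).trans (hA1 c ⟨le_rfl, hcd⟩)
  have cφ : ContinuousOn φ (Icc c d) := fun x hx => (h1 x hx).continuousAt.continuousWithinAt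
  have cφ' : ContinuousOn φ' (Icc c d) := fun x hx => (h2 x hx).continuousAt.continuousWithinAt
  have cA : ContinuousOn A (Icc c d) := fun x hx => (h3 x hx).continuousAt.continuousWithinAt
  have hden : ∀ x, 0 < φ' x ^ 2 + μ ^ 2 := fun x => by positivity
  -- the multiplier
  set q : ℝ → ℝ := fun x => φ' x / (φ' x ^ 2 + μ ^ 2) with hq
  set q' : ℝ → ℝ := fun x => φ'' x * (μ ^ 2 - φ' x ^ 2) / (φ' x ^ 2 + μ ^ 2) ^ 2 with hq'
  have dq : ∀ x ∈ Icc c d, HasDerivAt q (q' x) x := by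
    intro x hx
    have e1 : HasDerivAt (fun x => φ' x ^ 2 + μ ^ 2) (2 * φ' x * φ'' x) x := by
      have := ((h2 x hx).pow 2).add_const (μ ^ 2)
      refine this.congr_deriv ?_
      simp
    have e2 := (h2 x hx).div e1 (hden x).ne'
    refine e2.congr_deriv ?_
    rw [hq']
    have := (hden x).ne'
    field_simp
    ring
  have cq : ContinuousOn q (Icc c d) := fun x hx => (dq x hx).continuousAt.continuousWithinAt
  have cq' : ContinuousOn q' (Icc c d) := by
    apply ContinuousOn.div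
    · exact hc2.mul (continuousOn_const.sub (cφ'.pow 2))
    · exact ((cφ'.pow 2).add continuousOn_const).pow 2
    · intro x _; exact (pow_pos (hden x) 2).ne'
  have bq : ∀ x, |q x| ≤ 1 / (2 * μ) := by
    intro x
    rw [hq]
    simp only
    rw [abs_div, abs_of_pos (hden x), div_le_div_iff₀ (hden x) (by positivity)]
    have := sq_nonneg (|φ' x| - μ)
    have h4 := sq_abs (φ' x)
    nlinarith
  have bq' : ∀ x ∈ Icc c d, |q' x| ≤ φ'' x / (φ' x ^ 2 + μ ^ 2) := by
    intro x hx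
    have hpos : 0 < φ'' x := lt_of_lt_of_le hl (hlow x hx)
    rw [hq']
    simp only
    rw [abs_div, abs_mul, abs_of_pos hpos, abs_of_pos (pow_pos (hden x) 2),
      div_le_div_iff₀ (pow_pos (hden x) 2) (hden x)]
    have : |μ ^ 2 - φ' x ^ 2| ≤ φ' x ^ 2 + μ ^ 2 := by
      rw [abs_le]; constructor <;> nlinarith [sq_nonneg μ, sq_nonneg (φ' x)]
    have h5 := hden x
    calc φ'' x * |μ ^ 2 - φ' x ^ 2| * (φ' x ^ 2 + μ ^ 2)
        ≤ φ'' x * (φ' x ^ 2 + μ ^ 2) * (φ' x ^ 2 + μ ^ 2) := by gcongr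
      _ = _ := by ring
  set e : ℝ → ℂ := fun x => Complex.exp (Complex.I * φ x) with he
  have de : ∀ x ∈ Icc c d, HasDerivAt e (e x * (Complex.I * φ' x)) x := by
    intro x hx
    exact ((h1 x hx).ofReal_comp.const_mul Complex.I).cexp
  have ce : ContinuousOn e (Icc c d) := fun x hx => (de x hx).continuousAt.continuousWithinAt
  have ne : ∀ x, ‖e x‖ = 1 := by
    intro x; rw [he]; simp only; rw [mul_comm, Complex.norm_exp_ofReal_mul_I]
  set H : ℝ → ℂ := fun x => -Complex.I * (A x * (q x : ℂ) * e x) with hH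
  set R : ℝ → ℂ := fun x => Complex.I * ((A' x * q x + A x * q' x) * e x)
    + A x * ((μ ^ 2 / (φ' x ^ 2 + μ ^ 2) : ℝ) : ℂ) * e x with hR
  have dH : ∀ x ∈ Icc c d, HasDerivAt H (A x * e x - R x) x := by
    intro x hx
    have e1 := (((h3 x hx).mul (dq x hx).ofReal_comp).mul (de x hx)).const_mul (-Complex.I)
    refine e1.congr_deriv ?_
    have hqq : ((q x : ℝ) : ℂ) * φ' x = 1 - ((μ ^ 2 / (φ' x ^ 2 + μ ^ 2) : ℝ) : ℂ) := by
      rw [hq]
      have := (hden x).ne'
      norm_cast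
      field_simp
      ring
    have hI : Complex.I ^ 2 = -1 := Complex.I_sq
    rw [hR]
    simp only [Pi.mul_apply]
    linear_combination (A x * e x) * hqq - (A x * q x * φ' x * e x) * hI
  have cR : ContinuousOn R (Icc c d) := by
    have c1 : ContinuousOn (fun x => ((q x : ℝ) : ℂ)) (Icc c d) :=
      Complex.continuous_ofReal.comp_continuousOn cq
    have c2 : ContinuousOn (fun x => ((q' x : ℝ) : ℂ)) (Icc c d) :=
      Complex.continuous_ofReal.comp_continuousOn cq'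
    have c3 : ContinuousOn (fun x => ((μ ^ 2 / (φ' x ^ 2 + μ ^ 2) : ℝ) : ℂ)) (Icc c d) := by
      apply Complex.continuous_ofReal.comp_continuousOn
      exact continuousOn_const.div ((cφ'.pow 2).add continuousOn_const) (fun x _ => (hden x).ne')
    exact (continuousOn_const.mul (((hcA.mul c1).add (cA.mul c2)).mul ce)).add
      ((cA.mul c3).mul ce)
  have bR : ∀ x ∈ Icc c d, ‖R x‖ ≤ A₁ * (1 / (2 * μ))
      + 2 * A₀ * (φ'' x / (φ' x ^ 2 + μ ^ 2)) := by
    intro x hx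
    have hb : 0 ≤ φ'' x / (φ' x ^ 2 + μ ^ 2) :=
      div_nonneg (hl.le.trans (hlow x hx)) (hden x).le
    have n1 : ‖Complex.I * ((A' x * q x + A x * q' x) * e x)‖
        ≤ A₁ * (1 / (2 * μ)) + A₀ * (φ'' x / (φ' x ^ 2 + μ ^ 2)) := by
      rw [norm_mul, Complex.norm_I, one_mul, norm_mul, ne, mul_one]
      refine (norm_add_le _ _).trans ?_
      rw [norm_mul, norm_mul, Complex.norm_real, Complex.norm_real, Real.norm_eq_abs,
        Real.norm_eq_abs]
      exact add_le_add (mul_le_mul (hA1 x hx) (bq x) (abs_nonneg _) hA₁)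
        (mul_le_mul (hA0 x hx) (bq' x hx) (abs_nonneg _) hA₀)
    have n2 : ‖A x * ((μ ^ 2 / (φ' x ^ 2 + μ ^ 2) : ℝ) : ℂ) * e x‖
        ≤ A₀ * (φ'' x / (φ' x ^ 2 + μ ^ 2)) := by
      rw [norm_mul, ne, mul_one, norm_mul, Complex.norm_real, Real.norm_eq_abs]
      apply mul_le_mul (hA0 x hx) _ (abs_nonneg _) hA₀
      rw [abs_of_nonneg (by positivity), hμ2]
      gcongr
      exact hlow x hx
    rw [hR]
    refine (norm_add_le _ _).trans ?_
    linarith
  have hu : uIcc c d = Icc c d := uIcc_of_le hcd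
  have iAe : IntervalIntegrable (fun x => A x * e x) volume c d :=
    (ContinuousOn.mul (by rw [hu]; exact cA) (by rw [hu]; exact ce)).intervalIntegrable
  have iR : IntervalIntegrable R volume c d :=
    ContinuousOn.intervalIntegrable (by rw [hu]; exact cR)
  have key : ∫ x in c..d, A x * e x = (H d - H c) + ∫ x in c..d, R x := by
    have k1 : ∫ x in c..d, (A x * e x - R x) = H d - H c := by
      apply intervalIntegral.integral_eq_sub_of_hasDerivAt
      · rw [hu]; exact dH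
      · exact iAe.sub iR
    rw [intervalIntegral.integral_sub iAe iR] at k1
    rw [← k1]; ring
  have bH : ∀ x ∈ Icc c d, ‖H x‖ ≤ A₀ * (1 / (2 * μ)) := by
    intro x hx
    rw [hH]
    simp only
    rw [norm_mul, norm_neg, Complex.norm_I, one_mul, norm_mul, ne, mul_one, norm_mul,
      Complex.norm_real, Real.norm_eq_abs]
    exact mul_le_mul (hA0 x hx) (bq x) (abs_nonneg _) hA₀
  -- the arctangent
  have dat : ∀ x ∈ Icc c d, HasDerivAt (fun x => 1 / μ * Real.arctan (φ' x / μ))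
      (φ'' x / (φ' x ^ 2 + μ ^ 2)) x := by
    intro x hx
    have := ((h2 x hx).div_const μ).arctan.const_mul (1 / μ)
    refine this.congr_deriv ?_
    have := (hden x).ne'
    field_simp
    ring
  have ib : IntervalIntegrable (fun x => φ'' x / (φ' x ^ 2 + μ ^ 2)) volume c d := by
    apply ContinuousOn.intervalIntegrable
    rw [hu]
    exact hc2.div ((cφ'.pow 2).add continuousOn_const) (fun x _ => (hden x).ne')
  have hint : ∫ x in c..d, φ'' x / (φ' x ^ 2 + μ ^ 2) ≤ π / μ := by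
    rw [intervalIntegral.integral_eq_sub_of_hasDerivAt (f := fun x => 1 / μ *
      Real.arctan (φ' x / μ)) (by rw [hu]; exact dat) ib]
    have a1 := Real.arctan_lt_pi_div_two (φ' d / μ)
    have a2 := Real.neg_pi_div_two_lt_arctan (φ' c / μ)
    rw [← mul_sub, div_mul_eq_mul_div, one_mul]
    gcongr
    linarith
  have bRint : ‖∫ x in c..d, R x‖ ≤ (d - c) * (A₁ * (1 / (2 * μ))) + 2 * A₀ * (π / μ) := by
    calc ‖∫ x in c..d, R x‖ ≤ ∫ x in c..d, (A₁ * (1 / (2 * μ))
          + 2 * A₀ * (φ'' x / (φ' x ^ 2 + μ ^ 2))) := by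
          apply intervalIntegral.norm_integral_le_of_norm_le hcd
          · exact Filter.Eventually.of_forall fun x hx => bR x ⟨hx.1.le, hx.2⟩
          · exact (intervalIntegrable_const).add (ib.const_mul _)
      _ = (d - c) * (A₁ * (1 / (2 * μ)))
          + 2 * A₀ * ∫ x in c..d, φ'' x / (φ' x ^ 2 + μ ^ 2) := by
          rw [intervalIntegral.integral_add intervalIntegrable_const (ib.const_mul _),
            intervalIntegral.integral_const, intervalIntegral.integral_const_mul (2 * A₀),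
            smul_eq_mul]
      _ ≤ _ := by gcongr
  have hfin : ‖∫ x in c..d, A x * e x‖ ≤ A₀ * (1 / (2 * μ)) + A₀ * (1 / (2 * μ))
      + ((d - c) * (A₁ * (1 / (2 * μ))) + 2 * A₀ * (π / μ)) := by
    rw [key]
    refine (norm_add_le _ _).trans (add_le_add ((norm_sub_le _ _).trans
      (add_le_add (bH d ⟨hcd, le_rfl⟩) (bH c ⟨le_rfl, hcd⟩))) bRint)
  refine hfin.trans ?_
  rw [le_div_iff₀ hμ0]
  have hpi := Real.pi_lt_d2
  have e1 : (A₀ * (1 / (2 * μ)) + A₀ * (1 / (2 * μ))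
      + ((d - c) * (A₁ * (1 / (2 * μ))) + 2 * A₀ * (π / μ))) * μ
      = A₀ + (d - c) * A₁ / 2 + 2 * A₀ * π := by
    field_simp
    ring
  rw [e1]
  have : 0 ≤ (d - c) * A₁ := mul_nonneg (by linarith) hA₁
  nlinarith

/-- **Van der Corput's lemma.** -/
lemma vdc {c d : ℝ} (hcd : c ≤ d) {φ φ' φ'' : ℝ → ℝ} {A A' : ℝ → ℂ} {l A₀ A₁ : ℝ}
    (hl : 0 < l) (h1 : ∀ x ∈ Icc c d, HasDerivAt φ (φ' x) x)
    (h2 : ∀ x ∈ Icc c d, HasDerivAt φ' (φ'' x) x)
    (h3 : ∀ x ∈ Icc c d, HasDerivAt A (A' x) x)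
    (hc2 : ContinuousOn φ'' (Icc c d)) (hcA : ContinuousOn A' (Icc c d))
    (hlow : (∀ x ∈ Icc c d, l ≤ φ'' x) ∨ (∀ x ∈ Icc c d, φ'' x ≤ -l))
    (hA0 : ∀ x ∈ Icc c d, ‖A x‖ ≤ A₀) (hA1 : ∀ x ∈ Icc c d, ‖A' x‖ ≤ A₁) :
    ‖∫ x in c..d, A x * Complex.exp (Complex.I * φ x)‖ ≤ (8 * A₀ + (d - c) * A₁) / √l := by
  rcases hlow with h | h
  · exact vdc_pos hcd hl h1 h2 h3 hc2 hcA h hA0 hA1
  · have := vdc_pos (φ := fun x => - φ x) (φ' := fun x => - φ' x) (φ'' := fun x => - φ'' x)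
      (A := fun x => conj (A x)) (A' := fun x => conj (A' x)) hcd hl
      (fun x hx => (h1 x hx).neg) (fun x hx => (h2 x hx).neg)
      (fun x hx => by simpa using (h3 x hx).star) hc2.neg
      (Complex.continuous_conj.comp_continuousOn hcA) (fun x hx => by linarith [h x hx])
      (fun x hx => by simpa using hA0 x hx) (fun x hx => by simpa using hA1 x hx)
    have e : ∀ x, conj (A x) * Complex.exp (Complex.I * ((-φ x : ℝ) : ℂ))
        = conj (A x * Complex.exp (Complex.I * φ x)) := by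
      intro x
      rw [map_mul, ← Complex.exp_conj]
      simp
    simp only [e] at this
    rw [intervalIntegral.integral_of_le hcd, integral_conj, Complex.norm_conj,
      ← intervalIntegral.integral_of_le hcd] at this
    exact this

end Pool.Agent.H309.SD
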