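import Pool.Agent.H309.SD.Osc
import Pool.Agent.H309.SD.Level

/-! The oscillatory integral over a short interval on which the phase is nondegenerate. -/

open MeasureTheory Set
open scoped ENNReal Real ComplexConjugate

namespace Pool.Agent.H309.SD

lemma sign_const {G : ℝ → ℝ} {c d ε : ℝ} (hG : ContinuousOn G (Icc c d)) (hε : 0 < ε)
    (h : ∀ x ∈ Icc c d, ε ≤ |G x|) :
    (∀ x ∈ Icc c d, ε ≤ G x) ∨ (∀ x ∈ Icc c d, G x ≤ -ε) := by
  by_contra hcon
  push Not at hcon
  obtain ⟨⟨x, hx, hx1⟩, y, hy, hy1⟩ := hcon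
  have hx2 : G x ≤ 0 := by
    have := h x hx
    by_contra h0
    push Not at h0
    rw [abs_of_pos h0] at this
    linarith
  have hy2 : 0 ≤ G y := by
    have := h y hy
    by_contra h0
    push Not at h0
    rw [abs_of_neg h0] at this
    linarith
  obtain ⟨z, hz, hz0⟩ := isPreconnected_Icc.intermediate_value hx hy hG ⟨hx2, hy2⟩
  have := h z hz
  rw [hz0, abs_zero] at this
  linarith

lemma hasDerivAt_re {f : ℝ → ℂ} {f' : ℂ} {x : ℝ} (h : HasDerivAt f f' x) :
    HasDerivAt (fun x => (f x).re) f'.re x := by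
  have := (Complex.reCLM.hasFDerivAt (x := f x)).comp_hasDerivAt x h
  exact this

lemma GG_cont {f : ℝ → ℂ} (hf : Smooth f) : Continuous (GG f) := by
  have h0 := hf.continuous
  have h1 := hf.deriv.continuous
  have h2 := hf.deriv.deriv.continuous
  have hre := Complex.continuous_re
  unfold GG; fun_prop

lemma DD_cont {f : ℝ → ℂ} (hf : Smooth f) : Continuous (DD f) := by
  have h0 := hf.continuous
  have hre := Complex.continuous_re
  unfold DD; fun_prop

lemma good_piece_exp {f : ℝ → ℂ} (hf : Smooth f) : ∃ C : ℝ, 0 < C ∧ ∀ (c d ε : ℝ), c ≤ d →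
    d - c ≤ 1 → 0 < ε → ε ≤ 1 → (∀ x ∈ Icc c d, ε ≤ |GG f x| ∧ ε ≤ DD f x) →
    ∀ (a a' : ℝ → ℂ) (a₀ a₁ : ℝ), (∀ x ∈ Icc c d, HasDerivAt a (a' x) x) →
      ContinuousOn a' (Icc c d) → (∀ x ∈ Icc c d, ‖a x‖ ≤ a₀) → (∀ x ∈ Icc c d, ‖a' x‖ ≤ a₁) →
      ∀ (m : ℝ), 1 ≤ |m| → ∀ y : ℝ,
      ‖∫ x in c..d, (a x * ((1 / √(DD f x) : ℝ) : ℂ))
        * Complex.exp (Complex.I * ((m * Real.arccos (f x).re + y * x : ℝ) : ℂ))‖
        ≤ C * (a₀ + a₁) / (ε ^ 2 * √|m|) := by
  obtain ⟨C0, hC0, hb0⟩ := hf.bdd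
  obtain ⟨C1, hC1, hb1⟩ := hf.deriv.bdd
  refine ⟨8 + C0 * C1, by positivity, ?_⟩
  intro c d ε hcd hdc hε hε1 hgood a a' a₀ a₁ ha hca ha0 ha1 m hm y
  have ha₀ : 0 ≤ a₀ := (norm_nonneg _).trans (ha0 c ⟨le_rfl, hcd⟩)
  have ha₁ : 0 ≤ a₁ := (norm_nonneg _).trans (ha1 c ⟨le_rfl, hcd⟩)
  set F : ℝ → ℝ := fun x => (f x).re with hF
  set F1 : ℝ → ℝ := fun x => (deriv f x).re with hF1
  set F2 : ℝ → ℝ := fun x => (deriv (deriv f) x).re with hF2
  have dF : ∀ x, HasDerivAt F (F1 x) x := fun x => hasDerivAt_re (hf.hasDerivAt x)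
  have dF1 : ∀ x, HasDerivAt F1 (F2 x) x := fun x => hasDerivAt_re (hf.deriv.hasDerivAt x)
  have cF : Continuous F := Complex.continuous_re.comp hf.continuous
  have cF1 : Continuous F1 := Complex.continuous_re.comp hf.deriv.continuous
  have cF2 : Continuous F2 := Complex.continuous_re.comp hf.deriv.deriv.continuous
  set S : ℝ → ℝ := fun x => √(DD f x) with hS
  have hD : ∀ x ∈ Icc c d, 0 < DD f x := fun x hx => lt_of_lt_of_le hε (hgood x hx).2
  have hSpos : ∀ x ∈ Icc c d, 0 < S x := fun x hx => Real.sqrt_pos.2 (hD x hx)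
  have hSsq : ∀ x ∈ Icc c d, S x ^ 2 = 1 - F x ^ 2 := fun x hx => Real.sq_sqrt (hD x hx).le
  have hS1 : ∀ x ∈ Icc c d, S x ≤ 1 := by
    intro x hx
    have := hSsq x hx; have := hSpos x hx
    nlinarith [sq_nonneg (F x)]
  have hSε : ∀ x ∈ Icc c d, √ε ≤ S x := fun x hx => Real.sqrt_le_sqrt (hgood x hx).2
  have dS : ∀ x ∈ Icc c d, HasDerivAt S (-(F x * F1 x) / S x) x := by
    intro x hx
    have e1 : HasDerivAt (DD f) (-(2 * F x * F1 x)) x := by
      have := ((dF x).pow 2).const_sub 1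
      refine this.congr_deriv ?_
      simp
    have e2 := e1.sqrt (hD x hx).ne'
    refine e2.congr_deriv ?_
    have := (hSpos x hx).ne'
    change -(2 * F x * F1 x) / (2 * S x) = _
    field_simp
  have cS : ContinuousOn S (Icc c d) := fun x hx => (dS x hx).continuousAt.continuousWithinAt
  set θ : ℝ → ℝ := fun x => Real.arccos (F x) with hθ
  have dθ : ∀ x ∈ Icc c d, HasDerivAt θ (-(F1 x) / S x) x := by
    intro x hx
    have hlt : F x ^ 2 < 1 := by
      have := hD x hx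
      unfold DD at this
      linarith
    have hne1 : F x ≠ -1 := by intro h; rw [h] at hlt; norm_num at hlt
    have hne2 : F x ≠ 1 := by intro h; rw [h] at hlt; norm_num at hlt
    have := (Real.hasDerivAt_arccos hne1 hne2).comp x (dF x)
    refine this.congr_deriv ?_
    change -(1 / S x) * F1 x = _
    ring
  have dθ' : ∀ x ∈ Icc c d, HasDerivAt (fun x => -(F1 x) / S x) (-(GG f x) / S x ^ 3) x := by
    intro x hx
    have := (dF1 x).neg.div (dS x hx) (hSpos x hx).ne'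
    refine this.congr_deriv ?_
    have h1 := (hSpos x hx).ne'
    have h2 := hSsq x hx
    change (-F2 x * S x - -F1 x * (-(F x * F1 x) / S x)) / S x ^ 2
      = -((1 - F x ^ 2) * F2 x + F x * F1 x ^ 2) / S x ^ 3
    rw [← h2]
    field_simp
    ring
  -- the amplitude
  have dA : ∀ x ∈ Icc c d, HasDerivAt (fun x => a x * ((1 / S x : ℝ) : ℂ))
      (a' x * ((1 / S x : ℝ) : ℂ) + a x * ((F x * F1 x / S x ^ 3 : ℝ) : ℂ)) x := by
    intro x hx
    have e1 : HasDerivAt (fun x => 1 / S x) (F x * F1 x / S x ^ 3) x := by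
      have := (hasDerivAt_const x (1 : ℝ)).div (dS x hx) (hSpos x hx).ne'
      refine this.congr_deriv ?_
      have := (hSpos x hx).ne'
      field_simp
      ring
    exact (ha x hx).mul e1.ofReal_comp
  have hmain := vdc (c := c) (d := d) hcd
    (φ := fun x => m * θ x + y * x) (φ' := fun x => m * (-(F1 x) / S x) + y)
    (φ'' := fun x => m * (-(GG f x) / S x ^ 3))
    (A := fun x => a x * ((1 / S x : ℝ) : ℂ))
    (A' := fun x => a' x * ((1 / S x : ℝ) : ℂ) + a x * ((F x * F1 x / S x ^ 3 : ℝ) : ℂ))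
    (l := |m| * ε) (A₀ := a₀ * (1 / √ε)) (A₁ := a₁ * (1 / √ε) + a₀ * (C0 * C1 * (1 / √ε ^ 3)))
    (by positivity) ?_ ?_ dA ?_ ?_ ?_ ?_ ?_
  · refine hmain.trans ?_
    have hse : 0 < √ε := Real.sqrt_pos.2 hε
    have hse2 : √ε ^ 2 = ε := Real.sq_sqrt hε.le
    have hse1 : √ε ≤ 1 := by nlinarith
    have hsm : 0 < √|m| := Real.sqrt_pos.2 (by linarith)
    have hsq : √(|m| * ε) = √|m| * √ε := Real.sqrt_mul (abs_nonneg m) ε
    rw [hsq, div_le_div_iff₀ (by positivity) (by positivity)]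
    have e1 : ε ^ 2 = √ε ^ 4 := by
      have : √ε ^ 4 = (√ε ^ 2) ^ 2 := by ring
      rw [this, hse2]
    rw [e1]
    have e2 : (8 * (a₀ * (1 / √ε)) + (d - c) * (a₁ * (1 / √ε) + a₀ * (C0 * C1 * (1 / √ε ^ 3))))
        * √ε ^ 3 ≤ (8 + C0 * C1) * (a₀ + a₁) := by
      have k1 : (8 * (a₀ * (1 / √ε)) + (d - c) * (a₁ * (1 / √ε)
          + a₀ * (C0 * C1 * (1 / √ε ^ 3)))) * √ε ^ 3
          = 8 * a₀ * √ε ^ 2 + (d - c) * (a₁ * √ε ^ 2 + a₀ * (C0 * C1)) := by
        field_simp
      rw [k1]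
      have k2 : √ε ^ 2 ≤ 1 := by rw [hse2]; exact hε1
      have k3 : 8 * a₀ * √ε ^ 2 ≤ 8 * a₀ * 1 := by gcongr
      have k4 : (d - c) * (a₁ * √ε ^ 2 + a₀ * (C0 * C1)) ≤ 1 * (a₁ * 1 + a₀ * (C0 * C1)) := by
        have : 0 ≤ d - c := by linarith
        gcongr
      have k5 : 0 ≤ C0 * C1 * a₁ := by positivity
      nlinarith
    calc (8 * (a₀ * (1 / √ε)) + (d - c) * (a₁ * (1 / √ε) + a₀ * (C0 * C1 * (1 / √ε ^ 3))))
        * (√ε ^ 4 * √|m|) = ((8 * (a₀ * (1 / √ε)) + (d - c) * (a₁ * (1 / √ε)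
          + a₀ * (C0 * C1 * (1 / √ε ^ 3)))) * √ε ^ 3) * (√|m| * √ε) := by ring
      _ ≤ ((8 + C0 * C1) * (a₀ + a₁)) * (√|m| * √ε) := by gcongr
  · intro x hx
    have := ((dθ x hx).const_mul m).add ((hasDerivAt_id x).const_mul y)
    refine this.congr_deriv ?_
    ring
  · intro x hx
    exact ((dθ' x hx).const_mul m).add_const y
  · exact continuousOn_const.mul ((GG_cont hf).continuousOn.neg.div (cS.pow 3)
      (fun x hx => (pow_pos (hSpos x hx) 3).ne'))
  · have c1 : ContinuousOn (fun x => ((1 / S x : ℝ) : ℂ)) (Icc c d) :=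
      Complex.continuous_ofReal.comp_continuousOn
        (continuousOn_const.div cS (fun x hx => (hSpos x hx).ne'))
    have c2 : ContinuousOn (fun x => ((F x * F1 x / S x ^ 3 : ℝ) : ℂ)) (Icc c d) :=
      Complex.continuous_ofReal.comp_continuousOn
        ((cF.mul cF1).continuousOn.div (cS.pow 3) (fun x hx => (pow_pos (hSpos x hx) 3).ne'))
    have c3 : ContinuousOn a (Icc c d) := fun x hx => (ha x hx).continuousAt.continuousWithinAt
    exact (hca.mul c1).add (c3.mul c2)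
  · have hsgn := sign_const (GG_cont hf).continuousOn hε (fun x hx => (hgood x hx).1)
    have hS3 : ∀ x ∈ Icc c d, 0 < S x ^ 3 ∧ S x ^ 3 ≤ 1 := fun x hx =>
      ⟨pow_pos (hSpos x hx) 3, pow_le_one₀ (hSpos x hx).le (hS1 x hx)⟩
    have key : (∀ x ∈ Icc c d, ε ≤ -(GG f x) / S x ^ 3) ∨
        (∀ x ∈ Icc c d, -(GG f x) / S x ^ 3 ≤ -ε) := by
      rcases hsgn with h | h
      · right
        intro x hx
        rw [neg_div, neg_le_neg_iff, le_div_iff₀ (hS3 x hx).1]
        nlinarith [h x hx, (hS3 x hx).1, (hS3 x hx).2]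
      · left
        intro x hx
        rw [le_div_iff₀ (hS3 x hx).1]
        nlinarith [h x hx, (hS3 x hx).1, (hS3 x hx).2]
    have hm0 : m ≠ 0 := by intro h; rw [h, abs_zero] at hm; linarith
    rcases lt_or_gt_of_ne hm0 with hneg | hpos
    · rw [abs_of_neg hneg]
      rcases key with h | h
      · right
        intro x hx
        have := h x hx
        nlinarith
      · left
        intro x hx
        have := h x hx
        nlinarith
    · rw [abs_of_pos hpos]
      rcases key with h | h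
      · left
        intro x hx
        have := h x hx
        nlinarith
      · right
        intro x hx
        have := h x hx
        nlinarith
  · intro x hx
    rw [norm_mul, Complex.norm_real, Real.norm_eq_abs, abs_of_pos (by
      have := hSpos x hx; positivity)]
    apply mul_le_mul (ha0 x hx) _ (by have := hSpos x hx; positivity) ha₀
    exact one_div_le_one_div_of_le (Real.sqrt_pos.2 hε) (hSε x hx)
  · intro x hx
    have hp := hSpos x hx
    refine (norm_add_le _ _).trans ?_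
    rw [norm_mul, norm_mul, Complex.norm_real, Complex.norm_real, Real.norm_eq_abs,
      Real.norm_eq_abs, abs_of_pos (by positivity : 0 < 1 / S x), abs_div,
      abs_of_pos (by positivity : 0 < S x ^ 3)]
    have e1 : 1 / S x ≤ 1 / √ε := one_div_le_one_div_of_le (Real.sqrt_pos.2 hε) (hSε x hx)
    have e2 : 1 / S x ^ 3 ≤ 1 / √ε ^ 3 :=
      one_div_le_one_div_of_le (pow_pos (Real.sqrt_pos.2 hε) 3)
        (pow_le_pow_left₀ (Real.sqrt_nonneg _) (hSε x hx) 3)
    have e3 : |F x * F1 x| ≤ C0 * C1 := by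
      rw [abs_mul]
      exact mul_le_mul ((Complex.abs_re_le_norm _).trans (hb0 x))
        ((Complex.abs_re_le_norm _).trans (hb1 x)) (abs_nonneg _) hC0.le
    have e4 : |F x * F1 x| / S x ^ 3 ≤ C0 * C1 * (1 / √ε ^ 3) := by
      rw [div_eq_mul_one_div]
      exact mul_le_mul e3 e2 (by positivity) (by positivity)
    exact add_le_add (mul_le_mul (ha1 x hx) e1 (by positivity) ha₁)
      (mul_le_mul (ha0 x hx) e4 (by positivity) ha₀)

/-- **The integral over a good piece.** -/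
lemma good_piece {f : ℝ → ℂ} (hf : Smooth f) : ∃ C : ℝ, 0 < C ∧ ∀ (c d ε : ℝ), c ≤ d →
    d - c ≤ 1 → 0 < ε → ε ≤ 1 → (∀ x ∈ Icc c d, ε ≤ |GG f x| ∧ ε ≤ DD f x) →
    ∀ (a a' : ℝ → ℂ) (a₀ a₁ : ℝ), (∀ x ∈ Icc c d, HasDerivAt a (a' x) x) →
      ContinuousOn a' (Icc c d) → (∀ x ∈ Icc c d, ‖a x‖ ≤ a₀) → (∀ x ∈ Icc c d, ‖a' x‖ ≤ a₁) →
      ∀ (m : ℝ), 1 ≤ m → ∀ y : ℝ,
      ‖∫ x in c..d, a x * ((Real.sin (m * Real.arccos (f x).re) / √(DD f x) : ℝ) : ℂ)
        * Complex.exp (Complex.I * ((y * x : ℝ) : ℂ))‖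
        ≤ C * (a₀ + a₁) / (ε ^ 2 * √m) := by
  obtain ⟨C, hC, hmain⟩ := good_piece_exp hf
  refine ⟨C, hC, ?_⟩
  intro c d ε hcd hdc hε hε1 hgood a a' a₀ a₁ ha hca ha0 ha1 m hm y
  have h1 := hmain c d ε hcd hdc hε hε1 hgood a a' a₀ a₁ ha hca ha0 ha1 m
    (by rw [abs_of_pos (by linarith)]; exact hm) y
  have h2 := hmain c d ε hcd hdc hε hε1 hgood a a' a₀ a₁ ha hca ha0 ha1 (-m)
    (by rw [abs_neg, abs_of_pos (by linarith)]; exact hm) y
  rw [abs_of_pos (by linarith)] at h1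
  rw [abs_neg, abs_of_pos (by linarith)] at h2
  have hD : ∀ x ∈ Icc c d, 0 < DD f x := fun x hx => lt_of_lt_of_le hε (hgood x hx).2
  have hcont : ∀ m : ℝ, IntervalIntegrable (fun x => (a x * ((1 / √(DD f x) : ℝ) : ℂ))
        * Complex.exp (Complex.I * ((m * Real.arccos (f x).re + y * x : ℝ) : ℂ))) volume c d := by
    intro m
    apply ContinuousOn.intervalIntegrable
    rw [uIcc_of_le hcd]
    have c3 : ContinuousOn a (Icc c d) := fun x hx => (ha x hx).continuousAt.continuousWithinAt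
    have c1 : ContinuousOn (fun x => ((1 / √(DD f x) : ℝ) : ℂ)) (Icc c d) := by
      apply Complex.continuous_ofReal.comp_continuousOn
      apply continuousOn_const.div
      · exact (Real.continuous_sqrt.comp (DD_cont hf)).continuousOn
      · intro x hx; exact (Real.sqrt_pos.2 (hD x hx)).ne'
    have c2 : Continuous (fun x => Complex.exp
        (Complex.I * ((m * Real.arccos (f x).re + y * x : ℝ) : ℂ))) := by
      have h0 := hf.continuous
      have hre := Complex.continuous_re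
      have hac := Real.continuous_arccos
      fun_prop
    exact (c3.mul c1).mul c2.continuousOn
  have e1 : ∫ x in c..d, a x * ((Real.sin (m * Real.arccos (f x).re) / √(DD f x) : ℝ) : ℂ)
        * Complex.exp (Complex.I * ((y * x : ℝ) : ℂ))
      = (-Complex.I / 2) * ((∫ x in c..d, (a x * ((1 / √(DD f x) : ℝ) : ℂ))
        * Complex.exp (Complex.I * ((m * Real.arccos (f x).re + y * x : ℝ) : ℂ)))
        - ∫ x in c..d, (a x * ((1 / √(DD f x) : ℝ) : ℂ))
        * Complex.exp (Complex.I * ((-m * Real.arccos (f x).re + y * x : ℝ) : ℂ))) := by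
    rw [← intervalIntegral.integral_sub (hcont m) (hcont (-m)),
      ← intervalIntegral.integral_const_mul]
    apply intervalIntegral.integral_congr
    intro x _
    simp only
    have e2 : ∀ u v : ℝ, Complex.exp (Complex.I * ((u + v : ℝ) : ℂ))
        = Complex.exp (Complex.I * u) * Complex.exp (Complex.I * v) := by
      intro u v; rw [← Complex.exp_add]; push_cast; ring_nf
    rw [e2, e2]
    have e3 : ((Real.sin (m * Real.arccos (f x).re) / √(DD f x) : ℝ) : ℂ)
        = (-Complex.I / 2) * (Complex.exp (Complex.I * ((m * Real.arccos (f x).re : ℝ) : ℂ))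
          - Complex.exp (Complex.I * ((-m * Real.arccos (f x).re : ℝ) : ℂ)))
          * ((1 / √(DD f x) : ℝ) : ℂ) := by
      rw [div_eq_mul_one_div, Complex.ofReal_mul]
      congr 1
      rw [Complex.ofReal_sin, Complex.sin]
      have : ((-m * Real.arccos (f x).re : ℝ) : ℂ)
          = -((m * Real.arccos (f x).re : ℝ) : ℂ) := by push_cast; ring
      rw [this]
      generalize ((m * Real.arccos (f x).re : ℝ) : ℂ) = z
      rw [show -z * Complex.I = Complex.I * -z by ring, mul_comm z Complex.I]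
      ring
    rw [e3]
    ring
  rw [e1, norm_mul]
  have e4 : ‖-Complex.I / 2‖ = 1 / 2 := by simp
  rw [e4]
  have e5 := norm_sub_le (∫ x in c..d, (a x * ((1 / √(DD f x) : ℝ) : ℂ))
        * Complex.exp (Complex.I * ((m * Real.arccos (f x).re + y * x : ℝ) : ℂ)))
    (∫ x in c..d, (a x * ((1 / √(DD f x) : ℝ) : ℂ))
        * Complex.exp (Complex.I * ((-m * Real.arccos (f x).re + y * x : ℝ) : ℂ)))
  linarith

end Pool.Agent.H309.SD
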