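import Pool.Agent.H309.SD.Trig

/-! Negative moments of quadratic polynomials on an interval, and elementary facts. -/

open MeasureTheory Set
open scoped ENNReal Real

namespace Pool.Agent.H309.SD

lemma mul_le_sq_add_sq (a b : ℝ≥0∞) : a * b ≤ a ^ 2 + b ^ 2 := by
  rcases le_total a b with h | h
  · calc a * b ≤ b * b := by gcongr
      _ = b ^ 2 := by ring
      _ ≤ _ := le_add_self
  · calc a * b ≤ a * a := by gcongr
      _ = a ^ 2 := by ring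
      _ ≤ _ := le_self_add

lemma neg_sq (x : ℝ≥0∞) (κ : ℝ) : (x ^ (-κ)) ^ 2 = x ^ (-(2 * κ)) := by
  rw [← ENNReal.rpow_natCast, ← ENNReal.rpow_mul]
  congr 1
  push_cast; ring

lemma neg_le_one_add (x : ℝ≥0∞) {κ κ' : ℝ} (h0 : 0 ≤ κ) (h : κ ≤ κ') :
    x ^ (-κ) ≤ 1 + x ^ (-κ') := by
  rcases le_total x 1 with h1 | h1
  · exact (ENNReal.rpow_le_rpow_of_exponent_ge h1 (by linarith)).trans le_add_self
  · have : x ^ (-κ) ≤ 1 := by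
      rcases h0.eq_or_lt with h2 | h2
      · rw [← h2]; simp
      rw [ENNReal.rpow_neg]
      exact ENNReal.inv_le_one.2 (ENNReal.one_le_rpow h1 h2)
    exact this.trans le_self_add

lemma neg_add_le_one_add (x : ℝ≥0∞) {κ κ' : ℝ} (h1 : x ≤ 1) (h : κ ≤ κ') :
    x ^ (-κ) ≤ x ^ (-κ') :=
  ENNReal.rpow_le_rpow_of_exponent_ge h1 (by linarith)

lemma abs_moment_lt_top : ∫⁻ x in Ioc (-1 : ℝ) 1, ‖x‖ₑ ^ (-(1 / 2 : ℝ)) < ⊤ := by
  have h1 : ∫⁻ x in Ioc (0 : ℝ) 1, ‖x‖ₑ ^ (-(1 / 2 : ℝ)) < ⊤ := by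
    have := (intervalIntegral.intervalIntegrable_rpow' (a := 0) (b := 1)
      (r := -(1 / 2 : ℝ)) (by norm_num))
    rw [intervalIntegrable_iff_integrableOn_Ioc_of_le (by norm_num)] at this
    refine lt_of_le_of_lt ?_ this.lintegral_lt_top
    apply setLIntegral_mono' measurableSet_Ioc
    intro x hx
    rw [Real.enorm_eq_ofReal hx.1.le, ENNReal.ofReal_rpow_of_pos hx.1]
  have h2 : ∫⁻ x in Ico (-1 : ℝ) 0, ‖x‖ₑ ^ (-(1 / 2 : ℝ)) < ⊤ := by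
    have h := (Measure.measurePreserving_neg (volume : Measure ℝ)).setLIntegral_comp_preimage
      (s := Ioc (0 : ℝ) 1) measurableSet_Ioc
      (f := fun x => ‖x‖ₑ ^ (-(1 / 2 : ℝ))) (by fun_prop)
    have h3 : (Neg.neg : ℝ → ℝ) ⁻¹' Ioc (0 : ℝ) 1 = Ico (-1) 0 := by
      ext x; simp only [mem_preimage, mem_Ioc, mem_Ico]
      constructor <;> intro ⟨h1, h2⟩ <;> constructor <;> linarith
    rw [h3] at h
    have h4 : ∫⁻ x in Ico (-1 : ℝ) 0, ‖x‖ₑ ^ (-(1 / 2 : ℝ))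
        = ∫⁻ x in Ico (-1 : ℝ) 0, ‖(-x : ℝ)‖ₑ ^ (-(1 / 2 : ℝ)) := by simp
    rw [h4, h]
    exact h1
  have h3 : Ioc (-1 : ℝ) 1 ⊆ (Ico (-1) 0 ∪ {0}) ∪ Ioc 0 1 := by
    intro x hx
    rcases lt_trichotomy x 0 with h | h | h
    · left; left; exact ⟨hx.1.le, h⟩
    · left; right; exact h
    · right; exact ⟨h, hx.2⟩
  refine lt_of_le_of_lt (lintegral_mono_set h3) ?_
  refine lt_of_le_of_lt (lintegral_union_le _ _ _) ?_
  refine ENNReal.add_lt_top.2 ⟨?_, h1⟩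
  refine lt_of_le_of_lt (lintegral_union_le _ _ _) ?_
  refine ENNReal.add_lt_top.2 ⟨h2, ?_⟩
  simp

lemma dist_moment : ∃ K : ℝ≥0∞, K < ⊤ ∧ ∀ a : ℝ,
    ∫⁻ s in Ioc (1 : ℝ) 2, ‖s - a‖ₑ ^ (-(1 / 2 : ℝ)) ≤ K := by
  refine ⟨1 + ∫⁻ x in Ioc (-1 : ℝ) 1, ‖x‖ₑ ^ (-(1 / 2 : ℝ)),
    ENNReal.add_lt_top.2 ⟨by simp, abs_moment_lt_top⟩, fun a => ?_⟩
  have h1 : ∀ x : ℝ, ‖x‖ₑ ^ (-(1 / 2 : ℝ))
      ≤ 1 + (Ioc (-1 : ℝ) 1).indicator (fun x => ‖x‖ₑ ^ (-(1 / 2 : ℝ))) x := by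
    intro x
    by_cases hx : x ∈ Ioc (-1 : ℝ) 1
    · rw [indicator_of_mem hx]; exact le_add_self
    · rw [indicator_of_notMem hx, add_zero, ENNReal.rpow_neg]
      apply ENNReal.inv_le_one.2
      apply ENNReal.one_le_rpow _ (by norm_num)
      rw [← ofReal_norm, Real.norm_eq_abs]
      rw [← ENNReal.ofReal_one]
      apply ENNReal.ofReal_le_ofReal
      simp only [mem_Ioc, not_and_or, not_lt, not_le] at hx
      rcases hx with hx | hx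
      · rw [abs_of_nonpos (by linarith)]; linarith
      · exact hx.le.trans (le_abs_self x)
  calc ∫⁻ s in Ioc (1 : ℝ) 2, ‖s - a‖ₑ ^ (-(1 / 2 : ℝ))
      ≤ ∫⁻ s in Ioc (1 : ℝ) 2,
        (1 + (Ioc (-1 : ℝ) 1).indicator (fun x => ‖x‖ₑ ^ (-(1 / 2 : ℝ))) (s - a)) :=
        lintegral_mono (fun s => h1 (s - a))
    _ = 1 + ∫⁻ s in Ioc (1 : ℝ) 2,
        (Ioc (-1 : ℝ) 1).indicator (fun x => ‖x‖ₑ ^ (-(1 / 2 : ℝ))) (s - a) := by
        rw [lintegral_add_left measurable_const]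
        simp
        norm_num
    _ ≤ 1 + ∫⁻ s, (Ioc (-1 : ℝ) 1).indicator (fun x => ‖x‖ₑ ^ (-(1 / 2 : ℝ))) (s - a) := by
        gcongr
        exact Measure.restrict_le_self
    _ = _ := by
        rw [lintegral_sub_right_eq_self
          (fun x => (Ioc (-1 : ℝ) 1).indicator (fun x => ‖x‖ₑ ^ (-(1 / 2 : ℝ))) x) a,
          lintegral_indicator measurableSet_Ioc]

/-- **Negative moments of quadratic polynomials on an interval.** -/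
lemma quad_moment (κ : ℝ) (hκ : 0 < κ) (hκ2 : κ ≤ 1 / 4) :
    ∃ K : ℝ≥0∞, K < ⊤ ∧ ∀ a b c : ℂ,
      ∫⁻ s in Ioc (1 : ℝ) 2, ‖a * s ^ 2 + b * s + c‖ₑ ^ (-κ) ≤ K * ‖a‖ₑ ^ (-κ) := by
  obtain ⟨K₀, hK₀, hK⟩ := dist_moment
  refine ⟨(1 + K₀) + (1 + K₀), ?_, ?_⟩
  · simp [hK₀]
  intro a b c
  rcases eq_or_ne a 0 with h0 | h0
  · rw [h0]
    simp only [enorm_zero]
    rw [ENNReal.zero_rpow_of_neg (by linarith), ENNReal.mul_top (by simp)]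
    exact le_top
  obtain ⟨δ, hδ⟩ := IsAlgClosed.exists_pow_nat_eq (b ^ 2 - 4 * a * c) (n := 2) (by norm_num)
  have hfac : ∀ s : ℝ, a * s ^ 2 + b * s + c
      = a * (s - (-b + δ) / (2 * a)) * (s - (-b - δ) / (2 * a)) := by
    intro s
    field_simp
    linear_combination hδ
  have hone : ∀ z : ℂ, ∫⁻ s in Ioc (1 : ℝ) 2, ‖(s : ℂ) - z‖ₑ ^ (-(2 * κ)) ≤ 1 + K₀ := by
    intro z
    have h1 : ∀ s : ℝ, ‖(s : ℂ) - z‖ₑ ^ (-(2 * κ)) ≤ 1 + ‖s - z.re‖ₑ ^ (-(1 / 2 : ℝ)) := by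
      intro s
      have h2 : ‖s - z.re‖ₑ ≤ ‖(s : ℂ) - z‖ₑ := by
        rw [enorm_le_iff_norm_le]
        have := Complex.abs_re_le_norm ((s : ℂ) - z)
        simpa using this
      exact (neg_anti (by linarith) h2).trans (neg_le_one_add _ (by linarith) (by linarith))
    calc _ ≤ ∫⁻ s in Ioc (1 : ℝ) 2, (1 + ‖s - z.re‖ₑ ^ (-(1 / 2 : ℝ))) := lintegral_mono h1
      _ = 1 + ∫⁻ s in Ioc (1 : ℝ) 2, ‖s - z.re‖ₑ ^ (-(1 / 2 : ℝ)) := by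
          rw [lintegral_add_left measurable_const]
          simp
          norm_num
      _ ≤ _ := by gcongr; exact hK _
  calc _ ≤ ∫⁻ s in Ioc (1 : ℝ) 2, ‖a‖ₑ ^ (-κ) * (‖(s : ℂ) - (-b + δ) / (2 * a)‖ₑ ^ (-(2 * κ))
        + ‖(s : ℂ) - (-b - δ) / (2 * a)‖ₑ ^ (-(2 * κ))) := by
        apply lintegral_mono
        intro s
        simp only
        rw [hfac, enorm_mul, enorm_mul, ENNReal.mul_rpow_of_ne_top (by finiteness)
          enorm_ne_top, ENNReal.mul_rpow_of_ne_top enorm_ne_top enorm_ne_top, mul_assoc]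
        gcongr
        refine (mul_le_sq_add_sq _ _).trans ?_
        rw [neg_sq, neg_sq]
    _ = ‖a‖ₑ ^ (-κ) * ((∫⁻ s in Ioc (1 : ℝ) 2, ‖(s : ℂ) - (-b + δ) / (2 * a)‖ₑ ^ (-(2 * κ)))
        + ∫⁻ s in Ioc (1 : ℝ) 2, ‖(s : ℂ) - (-b - δ) / (2 * a)‖ₑ ^ (-(2 * κ))) := by
        rw [lintegral_const_mul', lintegral_add_left]
        · fun_prop
        · apply ENNReal.rpow_ne_top_of_ne_zero
          · simpa using h0
          · simp
    _ ≤ ‖a‖ₑ ^ (-κ) * ((1 + K₀) + (1 + K₀)) := by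
        gcongr
        · exact hone _
        · exact hone _
    _ = _ := by ring

end Pool.Agent.H309.SD
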