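import Pool.Agent.H309.SD.Comp
import Pool.Agent.H309.SD.Nice

/-! Period maps which are reached by bounded Hermitian forcing. -/

open MeasureTheory Set
open scoped ENNReal Real ComplexConjugate

namespace Pool.Agent.H309.SD

/-- `f` is continuously differentiable with derivative bounded by `K`. -/
def C1b (K : ℝ) (f : ℝ → ℂ) : Prop :=
  ∃ f' : ℝ → ℂ, (∀ x, HasDerivAt f (f' x) x) ∧ Continuous f' ∧ ∀ x, ‖f' x‖ ≤ K

lemma C1b.continuous {K : ℝ} {f : ℝ → ℂ} (h : C1b K f) : Continuous f := by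
  obtain ⟨f', h1, -, -⟩ := h
  exact continuous_iff_continuousAt.2 fun x => (h1 x).continuousAt

lemma C1b.nonneg {K : ℝ} {f : ℝ → ℂ} (h : C1b K f) : 0 ≤ K := by
  obtain ⟨f', -, -, h3⟩ := h
  exact (norm_nonneg _).trans (h3 0)

lemma C1b.mono {K K' : ℝ} {f : ℝ → ℂ} (h : C1b K f) (hK : K ≤ K') : C1b K' f := by
  obtain ⟨f', h1, h2, h3⟩ := h
  exact ⟨f', h1, h2, fun x => (h3 x).trans hK⟩

lemma C1b.const (c : ℂ) : C1b 0 (fun _ => c) :=
  ⟨fun _ => 0, fun x => hasDerivAt_const x c, continuous_const, fun _ => by simp⟩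

lemma C1b.add {K K' : ℝ} {f g : ℝ → ℂ} (hf : C1b K f) (hg : C1b K' g) :
    C1b (K + K') (fun x => f x + g x) := by
  obtain ⟨f', h1, h2, h3⟩ := hf
  obtain ⟨g', k1, k2, k3⟩ := hg
  exact ⟨fun x => f' x + g' x, fun x => (h1 x).add (k1 x), h2.add k2,
    fun x => (norm_add_le _ _).trans (add_le_add (h3 x) (k3 x))⟩

lemma C1b.sub {K K' : ℝ} {f g : ℝ → ℂ} (hf : C1b K f) (hg : C1b K' g) :
    C1b (K + K') (fun x => f x - g x) := by
  obtain ⟨f', h1, h2, h3⟩ := hf
  obtain ⟨g', k1, k2, k3⟩ := hg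
  exact ⟨fun x => f' x - g' x, fun x => (h1 x).sub (k1 x), h2.sub k2,
    fun x => (norm_sub_le _ _).trans (add_le_add (h3 x) (k3 x))⟩

lemma C1b.mul {K K' : ℝ} {f g : ℝ → ℂ} (hf : C1b K f) (hg : C1b K' g)
    (bf : ∀ x, ‖f x‖ ≤ 1) (bg : ∀ x, ‖g x‖ ≤ 1) :
    C1b (K + K') (fun x => f x * g x) := by
  have hfc := hf.continuous; have hgc := hg.continuous
  have hK := hf.nonneg; have hK' := hg.nonneg
  obtain ⟨f', h1, h2, h3⟩ := hf
  obtain ⟨g', k1, k2, k3⟩ := hg
  refine ⟨fun x => f' x * g x + f x * g' x, fun x => (h1 x).mul (k1 x),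
    (h2.mul hgc).add (hfc.mul k2), fun x => (norm_add_le _ _).trans ?_⟩
  rw [norm_mul, norm_mul]
  have e1 : ‖f' x‖ * ‖g x‖ ≤ K * 1 := mul_le_mul (h3 x) (bg x) (norm_nonneg _) hK
  have e2 : ‖f x‖ * ‖g' x‖ ≤ 1 * K' := mul_le_mul (bf x) (k3 x) (norm_nonneg _) (by norm_num)
  linarith

lemma C1b.conj {K : ℝ} {f : ℝ → ℂ} (hf : C1b K f) : C1b K (fun x => conj (f x)) := by
  obtain ⟨f', h1, h2, h3⟩ := hf
  exact ⟨fun x => (starRingEnd ℂ) (f' x), fun x => hasDerivAt_conj (h1 x),
    Complex.continuous_conj.comp h2, fun x => by simpa using h3 x⟩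

/-- `(p, q)` is the first column of the propagator, on the time interval `[0,T]`, of the
equation `i y' = (-x σ₃ + ν(t)) y` with `ν = [[d, ē], [e, -d]]`. -/
structure Path (T : ℝ) (d : ℝ → ℝ) (e : ℝ → ℂ) (p q : ℝ → ℝ → ℂ) : Prop where
  pos : 0 < T
  md : Measurable d
  me : Measurable e
  bd : ∃ K, ∀ t, |d t| ≤ K ∧ ‖e t‖ ≤ K
  init : ∀ x, p 0 x = 1 ∧ q 0 x = 0
  cont : ∀ x, ContinuousOn (fun t => p t x) (Icc 0 T) ∧ ContinuousOn (fun t => q t x) (Icc 0 T)
  ode : ∃ S : Set ℝ, S.Countable ∧ ∀ t ∈ Ioo 0 T, t ∉ S → ∀ x : ℝ,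
    HasDerivAt (fun t => p t x)
      (-Complex.I * ((-(x : ℂ) + d t) * p t x + conj (e t) * q t x)) t ∧
    HasDerivAt (fun t => q t x)
      (-Complex.I * (e t * p t x + ((x : ℂ) - d t) * q t x)) t
  unit : ∀ t ∈ Icc 0 T, ∀ x, ‖p t x‖ ^ 2 + ‖q t x‖ ^ 2 = 1
  smooth : ∃ K, ∀ t ∈ Icc 0 T, C1b K (p t) ∧ C1b K (q t)

/-- The period map with first column `(A, B)` is reached by some forcing. -/
def Reach (A B : ℝ → ℂ) : Prop :=
  ∃ (T : ℝ) (d : ℝ → ℝ) (e : ℝ → ℂ) (p q : ℝ → ℝ → ℂ), Path T d e p q ∧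
    ∀ x, p T x = A x ∧ q T x = B x

lemma cont_glue {f g : ℝ → ℂ} {T₁ T₂ : ℝ} (h1 : 0 ≤ T₁) (h2 : 0 ≤ T₂)
    (hf : ContinuousOn f (Icc 0 T₁)) (hg : ContinuousOn g (Icc T₁ (T₁ + T₂)))
    (h : f T₁ = g T₁) :
    ContinuousOn (fun t => if t ≤ T₁ then f t else g t) (Icc 0 (T₁ + T₂)) := by
  have e : Icc 0 (T₁ + T₂) = Icc 0 T₁ ∪ Icc T₁ (T₁ + T₂) := by
    rw [Icc_union_Icc_eq_Icc h1 (by linarith)]
  rw [e]
  apply ContinuousOn.union_of_isClosed _ _ isClosed_Icc isClosed_Icc
  · exact hf.congr fun t ht => by simp [ht.2]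
  · apply hg.congr
    intro t ht
    simp only
    split_ifs with h3
    · have : t = T₁ := le_antisymm h3 ht.1
      rw [this, h]
    · rfl

lemma pmul_unit {x y : ℂ × ℂ} (hx : ‖x.1‖ ^ 2 + ‖x.2‖ ^ 2 = 1)
    (hy : ‖y.1‖ ^ 2 + ‖y.2‖ ^ 2 = 1) : ‖(pmul x y).1‖ ^ 2 + ‖(pmul x y).2‖ ^ 2 = 1 := by
  have key : ∀ z : ℂ, ((‖z‖ ^ 2 : ℝ) : ℂ) = z * conj z := by
    intro z; rw [Complex.mul_conj, Complex.normSq_eq_norm_sq]
  have hx' : x.1 * conj x.1 + x.2 * conj x.2 = 1 := by
    rw [← key, ← key]; exact_mod_cast hx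
  have hy' : y.1 * conj y.1 + y.2 * conj y.2 = 1 := by
    rw [← key, ← key]; exact_mod_cast hy
  have : (((‖(pmul x y).1‖ ^ 2 + ‖(pmul x y).2‖ ^ 2 : ℝ)) : ℂ) = 1 := by
    rw [Complex.ofReal_add, key, key]
    simp only [pmul, map_sub, map_add, map_mul, Complex.conj_conj]
    linear_combination (y.1 * conj y.1 + y.2 * conj y.2) * hx' + hy'
  exact_mod_cast this

lemma unit_le {x y : ℂ} (h : ‖x‖ ^ 2 + ‖y‖ ^ 2 = 1) : ‖x‖ ≤ 1 ∧ ‖y‖ ≤ 1 := by
  constructor
  · nlinarith [norm_nonneg x, sq_nonneg ‖y‖]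
  · nlinarith [norm_nonneg y, sq_nonneg ‖x‖]

/-- Concatenation of two forcings. -/
lemma Path.concat {T₁ T₂ : ℝ} {d₁ d₂ : ℝ → ℝ} {e₁ e₂ : ℝ → ℂ} {p₁ q₁ p₂ q₂ : ℝ → ℝ → ℂ}
    (h₁ : Path T₁ d₁ e₁ p₁ q₁) (h₂ : Path T₂ d₂ e₂ p₂ q₂) :
    Path (T₁ + T₂) (fun t => if t ≤ T₁ then d₁ t else d₂ (t - T₁))
      (fun t => if t ≤ T₁ then e₁ t else e₂ (t - T₁))
      (fun t x => if t ≤ T₁ then p₁ t x else
        (pmul (p₂ (t - T₁) x, q₂ (t - T₁) x) (p₁ T₁ x, q₁ T₁ x)).1)
      (fun t x => if t ≤ T₁ then q₁ t x else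
        (pmul (p₂ (t - T₁) x, q₂ (t - T₁) x) (p₁ T₁ x, q₁ T₁ x)).2) := by
  have hT₁ := h₁.pos
  have hT₂ := h₂.pos
  refine ⟨by linarith, ?_, ?_, ?_, ?_, ?_, ?_, ?_, ?_⟩
  · exact Measurable.ite measurableSet_Iic h₁.md (h₂.md.comp (measurable_id.sub_const _))
  · exact Measurable.ite measurableSet_Iic h₁.me (h₂.me.comp (measurable_id.sub_const _))
  · obtain ⟨K₁, hK₁⟩ := h₁.bd
    obtain ⟨K₂, hK₂⟩ := h₂.bd
    refine ⟨max K₁ K₂, fun t => ?_⟩
    split_ifs
    · exact ⟨(hK₁ t).1.trans (le_max_left _ _), (hK₁ t).2.trans (le_max_left _ _)⟩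
    · exact ⟨(hK₂ _).1.trans (le_max_right _ _), (hK₂ _).2.trans (le_max_right _ _)⟩
  · intro x
    simp only [if_pos hT₁.le]
    exact h₁.init x
  · intro x
    have hc := h₂.cont x
    have hmaps : MapsTo (fun t => t - T₁) (Icc T₁ (T₁ + T₂)) (Icc 0 T₂) := by
      intro t ht; constructor <;> linarith [ht.1, ht.2]
    have c1 : ContinuousOn (fun t => p₂ (t - T₁) x) (Icc T₁ (T₁ + T₂)) :=
      hc.1.comp (by fun_prop) hmaps
    have c2 : ContinuousOn (fun t => q₂ (t - T₁) x) (Icc T₁ (T₁ + T₂)) :=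
      hc.2.comp (by fun_prop) hmaps
    have c1' : ContinuousOn (fun t => conj (p₂ (t - T₁) x)) (Icc T₁ (T₁ + T₂)) :=
      Complex.continuous_conj.comp_continuousOn c1
    have c2' : ContinuousOn (fun t => conj (q₂ (t - T₁) x)) (Icc T₁ (T₁ + T₂)) :=
      Complex.continuous_conj.comp_continuousOn c2
    constructor
    · apply cont_glue hT₁.le hT₂.le (h₁.cont x).1
      · simp only [pmul]
        exact (c1.mul continuousOn_const).sub (c2'.mul continuousOn_const)
      · simp [pmul, (h₂.init x).1, (h₂.init x).2]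
    · apply cont_glue hT₁.le hT₂.le (h₁.cont x).2
      · simp only [pmul]
        exact (c2.mul continuousOn_const).add (c1'.mul continuousOn_const)
      · simp [pmul, (h₂.init x).1, (h₂.init x).2]
  · obtain ⟨S₁, hS₁, o₁⟩ := h₁.ode
    obtain ⟨S₂, hS₂, o₂⟩ := h₂.ode
    refine ⟨(S₁ ∪ (fun t => t + T₁) '' S₂) ∪ {T₁},
      (hS₁.union (hS₂.image _)).union (countable_singleton _), fun t ht htS x => ?_⟩
    simp only [mem_union, mem_image, mem_singleton_iff, not_or] at htS
    obtain ⟨⟨hS1, hS2⟩, hne⟩ := htS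
    rcases lt_or_gt_of_ne hne with hlt | hgt
    · have ho := o₁ t ⟨ht.1, hlt⟩ hS1 x
      have hev : ∀ᶠ s in nhds t, s ≤ T₁ := by
        filter_upwards [Iio_mem_nhds hlt] with s hs using le_of_lt hs
      simp only [if_pos hlt.le]
      constructor
      · apply ho.1.congr_of_eventuallyEq
        filter_upwards [hev] with s hs
        simp [hs]
      · apply ho.2.congr_of_eventuallyEq
        filter_upwards [hev] with s hs
        simp [hs]
    · have ho := o₂ (t - T₁) ⟨by linarith, by linarith [ht.2]⟩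
        (fun h => hS2 ⟨t - T₁, h, by ring⟩) x
      have hev : ∀ᶠ s in nhds t, ¬ s ≤ T₁ :=
by
        filter_upwards [Ioi_mem_nhds hgt] with s hs using not_le_of_gt hs
      have hn : ¬ t ≤ T₁ := not_le_of_gt hgt
      have k1 : HasDerivAt (fun s => p₂ (s - T₁) x) _ t := HasDerivAt.comp_sub_const t T₁ ho.1
      have k2 : HasDerivAt (fun s => q₂ (s - T₁) x) _ t := HasDerivAt.comp_sub_const t T₁ ho.2
      have k1' := hasDerivAt_conj k1
      have k2' := hasDerivAt_conj k2
      simp only [if_neg hn]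
      constructor
      · have : HasDerivAt (fun s => (pmul (p₂ (s - T₁) x, q₂ (s - T₁) x)
            (p₁ T₁ x, q₁ T₁ x)).1) (-Complex.I * ((-(x : ℂ) + d₂ (t - T₁)) *
              (pmul (p₂ (t - T₁) x, q₂ (t - T₁) x) (p₁ T₁ x, q₁ T₁ x)).1
            + conj (e₂ (t - T₁)) *
              (pmul (p₂ (t - T₁) x, q₂ (t - T₁) x) (p₁ T₁ x, q₁ T₁ x)).2)) t := by
          simp only [pmul]
          refine ((k1.mul_const _).sub (k2'.mul_const _)).congr_deriv ?_
          simp only [map_mul, map_add, map_sub, map_neg, Complex.conj_I, Complex.conj_ofReal]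
          ring
        apply this.congr_of_eventuallyEq
        filter_upwards [hev] with s hs
        simp [hs]
      · have : HasDerivAt (fun s => (pmul (p₂ (s - T₁) x, q₂ (s - T₁) x)
            (p₁ T₁ x, q₁ T₁ x)).2) (-Complex.I * (e₂ (t - T₁) *
              (pmul (p₂ (t - T₁) x, q₂ (t - T₁) x) (p₁ T₁ x, q₁ T₁ x)).1
            + ((x : ℂ) - d₂ (t - T₁)) *
              (pmul (p₂ (t - T₁) x, q₂ (t - T₁) x) (p₁ T₁ x, q₁ T₁ x)).2)) t := by
          simp only [pmul]
          refine ((k2.mul_const _).add (k1'.mul_const _)).congr_deriv ?_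
          simp only [map_mul, map_add, map_sub, map_neg, Complex.conj_I, Complex.conj_ofReal,
            Complex.conj_conj]
          ring
        apply this.congr_of_eventuallyEq
        filter_upwards [hev] with s hs
        simp [hs]
  · intro t ht x
    split_ifs with h
    · exact h₁.unit t ⟨ht.1, h⟩ x
    · apply pmul_unit
      · exact h₂.unit (t - T₁) ⟨by linarith, by linarith [ht.2]⟩ x
      · exact h₁.unit T₁ ⟨hT₁.le, le_rfl⟩ x
  · obtain ⟨K₁, hK₁⟩ := h₁.smooth
    obtain ⟨K₂, hK₂⟩ := h₂.smooth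
    have hK1 := (hK₁ 0 ⟨le_rfl, hT₁.le⟩).1.nonneg
    have hK2 := (hK₂ 0 ⟨le_rfl, hT₂.le⟩).1.nonneg
    refine ⟨(K₁ + K₂) + (K₁ + K₂), fun t ht => ?_⟩
    rcases le_or_gt t T₁ with h | h
    · have := hK₁ t ⟨ht.1, h⟩
      simp only [if_pos h]
      exact ⟨this.1.mono (by linarith), this.2.mono (by linarith)⟩
    · have hn : ¬ t ≤ T₁ := not_le_of_gt h
      simp only [if_neg hn]
      have ht' : t - T₁ ∈ Icc 0 T₂ := ⟨by linarith, by linarith [ht.2]⟩
      have k2 := hK₂ (t - T₁) ht'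
      have k1 := hK₁ T₁ ⟨hT₁.le, le_rfl⟩
      have u2 : ∀ x, ‖p₂ (t - T₁) x‖ ≤ 1 ∧ ‖q₂ (t - T₁) x‖ ≤ 1 :=
        fun x => unit_le (h₂.unit _ ht' x)
      have u1 : ∀ x, ‖p₁ T₁ x‖ ≤ 1 ∧ ‖q₁ T₁ x‖ ≤ 1 :=
        fun x => unit_le (h₁.unit _ ⟨hT₁.le, le_rfl⟩ x)
      simp only [pmul]
      constructor
      · have := ((k2.1.mul k1.1 (fun x => (u2 x).1) (fun x => (u1 x).1)).sub
          ((k2.2.conj).mul k1.2 (fun x => by simpa using (u2 x).2) (fun x => (u1 x).2)))
        exact this.mono (by linarith)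
      · have := ((k2.2.mul k1.1 (fun x => (u2 x).2) (fun x => (u1 x).1)).add
          ((k2.1.conj).mul k1.2 (fun x => by simpa using (u2 x).1) (fun x => (u1 x).2)))
        exact this.mono (by linarith)

lemma Reach.mul {A₁ B₁ A₂ B₂ : ℝ → ℂ} (h₂ : Reach A₂ B₂) (h₁ : Reach A₁ B₁) :
    Reach (fun x => (pmul (A₂ x, B₂ x) (A₁ x, B₁ x)).1)
      (fun x => (pmul (A₂ x, B₂ x) (A₁ x, B₁ x)).2) := by
  obtain ⟨T₁, d₁, e₁, p₁, q₁, P₁, e1⟩ := h₁
  obtain ⟨T₂, d₂, e₂, p₂, q₂, P₂, e2⟩ := h₂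
  refine ⟨_, _, _, _, _, P₁.concat P₂, fun x => ?_⟩
  have hn : ¬ T₁ + T₂ ≤ T₁ := by linarith [P₂.pos]
  simp only [if_neg hn, add_sub_cancel_left, (e1 x).1, (e1 x).2, (e2 x).1, (e2 x).2]
  exact ⟨trivial, trivial⟩

/-- Conjugation of the forcing by a constant diagonal matrix. -/
lemma Path.phase {T : ℝ} {d : ℝ → ℝ} {e : ℝ → ℂ} {p q : ℝ → ℝ → ℂ} (h : Path T d e p q)
    {u : ℂ} (hu : ‖u‖ = 1) :
    Path T d (fun t => u * e t) p (fun t x => u * q t x) := by
  have huu : conj u * u = 1 := by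
    rw [mul_comm, Complex.mul_conj, Complex.normSq_eq_norm_sq, hu]; simp
  refine ⟨h.pos, h.md, h.me.const_mul u, ?_, ?_, ?_, ?_, ?_, ?_⟩
  · obtain ⟨K, hK⟩ := h.bd
    exact ⟨K, fun t => ⟨(hK t).1, by rw [norm_mul, hu, one_mul]; exact (hK t).2⟩⟩
  · intro x; exact ⟨(h.init x).1, by simp [(h.init x).2]⟩
  · intro x; exact ⟨(h.cont x).1, continuousOn_const.mul (h.cont x).2⟩
  · obtain ⟨S, hS, o⟩ := h.ode
    refine ⟨S, hS, fun t ht htS x => ?_⟩
    have := o t ht htS x
    constructor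
    · refine this.1.congr_deriv ?_
      rw [map_mul]
      linear_combination Complex.I * conj (e t) * q t x * huu
    · refine (this.2.const_mul u).congr_deriv ?_
      ring
  · intro t ht x
    rw [norm_mul, hu, one_mul]; exact h.unit t ht x
  · obtain ⟨K, hK⟩ := h.smooth
    refine ⟨K, fun t ht => ⟨(hK t ht).1, ?_⟩⟩
    obtain ⟨f', h1, h2, h3⟩ := (hK t ht).2
    exact ⟨fun x => u * f' x, fun x => (h1 x).const_mul u, continuous_const.mul h2,
      fun x => by rw [norm_mul, hu, one_mul]; exact h3 x⟩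

lemma Reach.phase {A B : ℝ → ℂ} (h : Reach A B) {u : ℂ} (hu : ‖u‖ = 1) :
    Reach A (fun x => u * B x) := by
  obtain ⟨T, d, e, p, q, P, e1⟩ := h
  exact ⟨T, d, _, p, _, P.phase hu, fun x => ⟨(e1 x).1, by rw [(e1 x).2]⟩⟩

lemma Reach.comp5 {A B : ℝ → ℂ} (h : Reach A B) :
    Reach (fun x => (comp5 (A x) (B x)).1) (fun x => (comp5 (A x) (B x)).2) :=
  h.mul (h.mul ((h.phase ww_norm).mul ((h.phase ww1_norm).mul (h.phase ww_norm))))

/-- Diagonal forcing. -/
lemma reach_diag {s : ℝ} (hs : 0 < s) (b : ℝ) :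
    Reach (fun x => Complex.exp ((s * x + b : ℝ) * Complex.I)) (fun _ => 0) := by
  refine ⟨s, fun _ => -(b / s), fun _ => 0,
    fun t x => Complex.exp ((t * (x + b / s) : ℝ) * Complex.I), fun _ _ => 0, ?_, ?_⟩
  · refine ⟨hs, measurable_const, measurable_const, ⟨|b / s|, fun t => by simp⟩,
      fun x => by simp, fun x => ⟨by fun_prop, continuousOn_const⟩,
      ⟨∅, countable_empty, fun t _ _ x => ⟨?_, ?_⟩⟩, fun t _ x => ?_,
      ⟨s, fun t ht => ⟨?_, (C1b.const 0).mono hs.le⟩⟩⟩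
    · have h1 : HasDerivAt (fun t : ℝ => ((t * (x + b / s) : ℝ) : ℂ) * Complex.I)
          (((x + b / s : ℝ) : ℂ) * Complex.I) t := by
        have h2 : HasDerivAt (fun t : ℝ => t * (x + b / s)) (x + b / s) t := by
          simpa using (hasDerivAt_id t).mul_const (x + b / s)
        exact (h2.ofReal_comp).mul_const _
      refine h1.cexp.congr_deriv ?_
      push_cast
      ring
    · simpa using hasDerivAt_const t (0 : ℂ)
    · rw [Complex.norm_exp_ofReal_mul_I]; simp
    · refine ⟨fun x => Complex.exp ((t * (x + b / s) : ℝ) * Complex.I) * (t * Complex.I),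
        fun x => ?_, by fun_prop, fun x => ?_⟩
      · have h1 : HasDerivAt (fun x : ℝ => ((t * (x + b / s) : ℝ) : ℂ) * Complex.I)
            (t * Complex.I) x := by
          have h2 : HasDerivAt (fun x : ℝ => t * (x + b / s)) t x := by
            simpa using ((hasDerivAt_id x).add_const (b / s)).const_mul t
          exact (h2.ofReal_comp).mul_const _
        exact h1.cexp
      · rw [norm_mul, Complex.norm_exp_ofReal_mul_I, one_mul, norm_mul, Complex.norm_I, mul_one,
          Complex.norm_real, Real.norm_eq_abs, abs_of_nonneg ht.1]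
        exact ht.2
  · intro x
    refine ⟨?_, rfl⟩
    field_simp

lemma hasDerivAt_u (x : ℝ) :
    HasDerivAt (fun x => x / om x) (1 / om x - (x / om x) * (x / om x) * (1 / om x)) x := by
  have h := om_pos x
  have h2 : HasDerivAt (fun x => x / om x) _ x :=
    (hasDerivAt_id x).div (hasDerivAt_om x) h.ne'
  refine h2.congr_deriv ?_
  simp only [id]
  field_simp

lemma hasDerivAt_v (x : ℝ) :
    HasDerivAt (fun x => 1 / om x) (-((x / om x) * ((1 / om x) * (1 / om x)))) x := by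
  have h := om_pos x
  have h2 : HasDerivAt (fun x => 1 / om x) _ x :=
    (hasDerivAt_const x (1 : ℝ)).div (hasDerivAt_om x) h.ne'
  refine h2.congr_deriv ?_
  field_simp
  ring

/-- The basic pulse. -/
noncomputable def A0 (x : ℝ) : ℂ :=
  (Real.cos (om x) : ℂ) + Complex.I * ((Real.sin (om x) : ℂ) * ((x / om x : ℝ) : ℂ))

/-- The basic pulse. -/
noncomputable def B0 (x : ℝ) : ℂ :=
  (-Complex.I * (π / 2 : ℝ)) * ((Real.sin (om x) : ℂ) * ((1 / om x : ℝ) : ℂ))

lemma reach_pulse : Reach A0 B0 := by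
  have hom : Continuous om := by unfold om; fun_prop
  have hu : Continuous (fun x => x / om x) := continuous_id.div hom (fun x => (om_pos x).ne')
  have hv : Continuous (fun x => 1 / om x) := continuous_const.div hom (fun x => (om_pos x).ne')
  have bu : ∀ x, |x / om x| ≤ 1 := fun x => by
    rw [abs_div, abs_of_pos (om_pos x), div_le_one (om_pos x)]; exact abs_le_om x
  have bv : ∀ x, |1 / om x| ≤ 1 := fun x => by
    rw [abs_div, abs_of_pos (om_pos x), div_le_one (om_pos x)]; simpa using om_ge_one x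
  refine ⟨1, fun _ => 0, fun _ => (π / 2 : ℝ),
    fun t x => (Real.cos (om x * t) : ℂ)
      + Complex.I * ((Real.sin (om x * t) : ℂ) * ((x / om x : ℝ) : ℂ)),
    fun t x => (-Complex.I * (π / 2 : ℝ)) * ((Real.sin (om x * t) : ℂ) * ((1 / om x : ℝ) : ℂ)),
    ?_, ?_⟩
  · refine ⟨one_pos, measurable_const, measurable_const, ⟨2, fun t => ⟨by simp, ?_⟩⟩,
      fun x => by simp, fun x => ⟨by fun_prop, by fun_prop⟩,
      ⟨∅, countable_empty, fun t _ _ x => ⟨?_, ?_⟩⟩, fun t _ x => ?_,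
      ⟨4, fun t ht => ⟨?_, ?_⟩⟩⟩
    · rw [Complex.norm_real, Real.norm_eq_abs, abs_of_pos (by positivity)]
      linarith [Real.pi_lt_four]
    · have h := om_pos x
      have h0 : HasDerivAt (fun t : ℝ => om x * t) (om x) t := by
        simpa using (hasDerivAt_id t).const_mul (om x)
      have h1 : HasDerivAt (fun t => (Real.cos (om x * t) : ℂ)) _ t := (h0.cos).ofReal_comp
      have h2 : HasDerivAt (fun t => (Real.sin (om x * t) : ℂ)) _ t := (h0.sin).ofReal_comp
      refine (h1.add ((h2.mul_const ((x / om x : ℝ) : ℂ)).const_mul Complex.I)).congr_deriv ?_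
      have h' : (om x : ℂ) ≠ 0 := by exact_mod_cast h.ne'
      have hsq : (om x : ℂ) ^ 2 = x ^ 2 + (π / 2) ^ 2 := by exact_mod_cast om_sq x
      have hI : Complex.I ^ 2 = -1 := Complex.I_sq
      simp only [Complex.conj_ofReal]
      push_cast
      field_simp
      generalize Complex.cos (om x * t) = c
      generalize Complex.sin (om x * t) = s
      field_simp at hsq
      linear_combination (-s) * hsq - s * (4 * x ^ 2 + π ^ 2) * hI
    · have h := om_pos x
      have h0 : HasDerivAt (fun t : ℝ => om x * t) (om x) t := by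
        simpa using (hasDerivAt_id t).const_mul (om x)
      have h2 : HasDerivAt (fun t => (Real.sin (om x * t) : ℂ)) _ t := (h0.sin).ofReal_comp
      refine ((h2.mul_const ((1 / om x : ℝ) : ℂ)).const_mul
        (-Complex.I * (π / 2 : ℝ))).congr_deriv ?_
      have h' : (om x : ℂ) ≠ 0 := by exact_mod_cast h.ne'
      push_cast
      field_simp
      ring
    · have h := om_pos x
      have hsq := om_sq x
      have e1 : (Real.cos (om x * t) : ℂ)
          + Complex.I * ((Real.sin (om x * t) : ℂ) * ((x / om x : ℝ) : ℂ))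
          = ⟨Real.cos (om x * t), Real.sin (om x * t) * (x / om x)⟩ := by
        apply Complex.ext
        · simp [-Complex.ofReal_cos, -Complex.ofReal_sin, -Complex.ofReal_div]
        · simp [-Complex.ofReal_cos, -Complex.ofReal_sin, -Complex.ofReal_div]
      have e2 : (-Complex.I * (π / 2 : ℝ)) * ((Real.sin (om x * t) : ℂ) * ((1 / om x : ℝ) : ℂ))
          = ⟨0, -(π / 2) * (Real.sin (om x * t) * (1 / om x))⟩ := by
        apply Complex.ext
        · simp [-Complex.ofReal_cos, -Complex.ofReal_sin, -Complex.ofReal_div]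
        · simp [-Complex.ofReal_cos, -Complex.ofReal_sin, -Complex.ofReal_div]
      rw [e1, e2, ← Complex.normSq_eq_norm_sq, ← Complex.normSq_eq_norm_sq,
        Complex.normSq_mk, Complex.normSq_mk]
      have h3 := Real.sin_sq_add_cos_sq (om x * t)
      have h4 : x / om x * (x / om x) + (π / 2) ^ 2 * (1 / om x * (1 / om x)) = 1 := by
        field_simp
        rw [hsq]; ring
      nlinarith [h3, h4]
    · refine ⟨fun x => ((-Real.sin (om x * t) * (x / om x * t) : ℝ) : ℂ)
        + Complex.I * ((Real.cos (om x * t) * (x / om x * t) * (x / om x)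
          + Real.sin (om x * t) * (1 / om x - (x / om x) * (x / om x) * (1 / om x)) : ℝ) : ℂ),
        fun x => ?_, by fun_prop, fun x => ?_⟩
      · have h0 : HasDerivAt (fun x : ℝ => om x * t) (x / om x * t) x :=
          (hasDerivAt_om x).mul_const t
        have h3 := (h0.cos).ofReal_comp
        have h4 := ((h0.sin).mul (hasDerivAt_u x)).ofReal_comp
        have h5 := h3.add (h4.const_mul Complex.I)
        refine (h5.congr_of_eventuallyEq (Filter.Eventually.of_forall fun y => ?_))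
        simp
      · refine (norm_add_le _ _).trans ?_
        rw [norm_mul, Complex.norm_I, one_mul, Complex.norm_real, Complex.norm_real,
          Real.norm_eq_abs, Real.norm_eq_abs]
        have ht' : |t| ≤ 1 := abs_le.2 ⟨by linarith [ht.1], ht.2⟩
        have hs := Real.abs_sin_le_one (om x * t)
        have hc := Real.abs_cos_le_one (om x * t)
        have e1 : |x / om x * t| ≤ 1 := by
          rw [abs_mul]; exact mul_le_one₀ (bu x) (abs_nonneg _) ht'
        have e2 : |-Real.sin (om x * t) * (x / om x * t)| ≤ 1 := by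
          rw [abs_mul, abs_neg]; exact mul_le_one₀ hs (abs_nonneg _) e1
        have e3 : |Real.cos (om x * t) * (x / om x * t) * (x / om x)| ≤ 1 := by
          rw [abs_mul, abs_mul]
          exact mul_le_one₀ (mul_le_one₀ hc (abs_nonneg _) e1) (abs_nonneg _) (bu x)
        have e4 : |(x / om x) * (x / om x) * (1 / om x)| ≤ 1 := by
          rw [abs_mul, abs_mul]
          exact mul_le_one₀ (mul_le_one₀ (bu x) (abs_nonneg _) (bu x)) (abs_nonneg _) (bv x)
        have e5 : |1 / om x - (x / om x) * (x / om x) * (1 / om x)| ≤ 2 :=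
          (abs_sub _ _).trans (by linarith [bv x])
        have e6 : |Real.sin (om x * t)
            * (1 / om x - (x / om x) * (x / om x) * (1 / om x))| ≤ 1 * 2 := by
          rw [abs_mul]; exact mul_le_mul hs e5 (abs_nonneg _) (by norm_num)
        have e7 := abs_add_le (Real.cos (om x * t) * (x / om x * t) * (x / om x))
          (Real.sin (om x * t) * (1 / om x - (x / om x) * (x / om x) * (1 / om x)))
        linarith
    · refine ⟨fun x => (-Complex.I * (π / 2 : ℝ)) * ((Real.cos (om x * t) * (x / om x * t)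
          * (1 / om x) + Real.sin (om x * t) * (-((x / om x) * ((1 / om x) * (1 / om x)))) : ℝ) : ℂ),
        fun x => ?_, by fun_prop, fun x => ?_⟩
      · have h0 : HasDerivAt (fun x : ℝ => om x * t) (x / om x * t) x :=
          (hasDerivAt_om x).mul_const t
        have h4 := ((h0.sin).mul (hasDerivAt_v x)).ofReal_comp
        have h5 := h4.const_mul (-Complex.I * (π / 2 : ℝ))
        refine (h5.congr_of_eventuallyEq (Filter.Eventually.of_forall fun y => ?_))
        simp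
      · rw [norm_mul, norm_mul, norm_neg, Complex.norm_I, one_mul, Complex.norm_real,
          Complex.norm_real, Real.norm_eq_abs, Real.norm_eq_abs, abs_of_pos (by positivity)]
        have ht' : |t| ≤ 1 := abs_le.2 ⟨by linarith [ht.1], ht.2⟩
        have hs := Real.abs_sin_le_one (om x * t)
        have hc := Real.abs_cos_le_one (om x * t)
        have e1 : |x / om x * t| ≤ 1 := by
          rw [abs_mul]; exact mul_le_one₀ (bu x) (abs_nonneg _) ht'
        have e3 : |Real.cos (om x * t) * (x / om x * t) * (1 / om x)| ≤ 1 := by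
          rw [abs_mul, abs_mul]
          exact mul_le_one₀ (mul_le_one₀ hc (abs_nonneg _) e1) (abs_nonneg _) (bv x)
        have e4 : |-((x / om x) * ((1 / om x) * (1 / om x)))| ≤ 1 := by
          rw [abs_neg, abs_mul, abs_mul]
          exact mul_le_one₀ (bu x) (by positivity) (mul_le_one₀ (bv x) (abs_nonneg _) (bv x))
        have e6 : |Real.sin (om x * t) * (-((x / om x) * ((1 / om x) * (1 / om x))))| ≤ 1 := by
          rw [abs_mul]; exact mul_le_one₀ hs (abs_nonneg _) e4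
        have e7 := abs_add_le (Real.cos (om x * t) * (x / om x * t) * (1 / om x))
          (Real.sin (om x * t) * (-((x / om x) * ((1 / om x) * (1 / om x)))))
        have e8 := Real.pi_lt_four
        have e9 : |Real.cos (om x * t) * (x / om x * t) * (1 / om x)
          + Real.sin (om x * t) * (-((x / om x) * ((1 / om x) * (1 / om x))))| ≤ 2 := by linarith
        nlinarith [abs_nonneg (Real.cos (om x * t) * (x / om x * t) * (1 / om x)
          + Real.sin (om x * t) * (-((x / om x) * ((1 / om x) * (1 / om x))))), Real.pi_pos]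
  · intro x
    simp only [mul_one]
    exact ⟨rfl, rfl⟩

end Pool.Agent.H309.SD
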