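import Pool.Agent.H309.SD.Upper

/-! Well-posedness and the lower bound. -/

open MeasureTheory Set FourierTransform
open scoped ENNReal Real ComplexConjugate

namespace Pool.Agent.H309.SD

/-- The Fourier transform of the solution. -/
noncomputable def aa (T : ℝ) (p q : ℝ → ℝ → ℂ) (F : ℝ → E2) (t ξ : ℝ) : E2 :=
  !₂[(pmul (UU T p q t (2 * π * ξ)) (F ξ 0, F ξ 1)).1,
    (pmul (UU T p q t (2 * π * ξ)) (F ξ 0, F ξ 1)).2]

lemma pmul_norm {x y : ℂ × ℂ} (hx : ‖x.1‖ ^ 2 + ‖x.2‖ ^ 2 = 1) :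
    ‖(pmul x y).1‖ ^ 2 + ‖(pmul x y).2‖ ^ 2 = ‖y.1‖ ^ 2 + ‖y.2‖ ^ 2 := by
  have key : ∀ z : ℂ, ((‖z‖ ^ 2 : ℝ) : ℂ) = z * conj z := by
    intro z; rw [Complex.mul_conj, Complex.normSq_eq_norm_sq]
  have hx' : x.1 * conj x.1 + x.2 * conj x.2 = 1 := by
    rw [← key, ← key]; exact_mod_cast hx
  have : (((‖(pmul x y).1‖ ^ 2 + ‖(pmul x y).2‖ ^ 2 : ℝ)) : ℂ)
      = ((‖y.1‖ ^ 2 + ‖y.2‖ ^ 2 : ℝ) : ℂ) := by
    rw [Complex.ofReal_add, Complex.ofReal_add, key, key, key, key]
    simp only [pmul, map_sub, map_add, map_mul, Complex.conj_conj]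
    linear_combination (y.1 * conj y.1 + y.2 * conj y.2) * hx'
  exact_mod_cast this

lemma aa_norm {T : ℝ} {d : ℝ → ℝ} {e : ℝ → ℂ} {p q : ℝ → ℝ → ℂ} (P : Path T d e p q) {t : ℝ}
    (ht : 0 ≤ t) (F : ℝ → E2) (ξ : ℝ) : ‖aa T p q F t ξ‖ = ‖F ξ‖ := by
  rw [EuclideanSpace.norm_eq, EuclideanSpace.norm_eq, Fin.sum_univ_two, Fin.sum_univ_two]
  congr 1
  exact pmul_norm (UU_unit P ht (2 * π * ξ))

lemma aa_memLp {T : ℝ} {d : ℝ → ℝ} {e : ℝ → ℂ} {p q : ℝ → ℝ → ℂ} (P : Path T d e p q) {t : ℝ}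
    (ht : 0 ≤ t) {F : ℝ → E2} (hF : MemLp F 2) : MemLp (aa T p q F t) 2 := by
  obtain ⟨c1, c2⟩ := UU_cont P ht
  have c1a : Continuous (fun ξ : ℝ => (UU T p q t (2 * π * ξ)).1) := c1.comp (by fun_prop)
  have c2a : Continuous (fun ξ : ℝ => (UU T p q t (2 * π * ξ)).2) := c2.comp (by fun_prop)
  have c1b : Continuous (fun ξ : ℝ => conj (UU T p q t (2 * π * ξ)).1) :=
    Complex.continuous_conj.comp c1a
  have c2b : Continuous (fun ξ : ℝ => conj (UU T p q t (2 * π * ξ)).2) :=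
    Complex.continuous_conj.comp c2a
  have m : ∀ i : Fin 2, AEStronglyMeasurable (fun ξ => F ξ i) volume := fun i =>
    (EuclideanSpace.proj (𝕜 := ℂ) i : E2 →L[ℂ] ℂ).continuous.comp_aestronglyMeasurable
      hF.aestronglyMeasurable
  have hm : AEStronglyMeasurable (aa T p q F t) volume := by
    have h2 : AEStronglyMeasurable (fun ξ : ℝ => ![(pmul (UU T p q t (2 * π * ξ)) (F ξ 0, F ξ 1)).1,
      (pmul (UU T p q t (2 * π * ξ)) (F ξ 0, F ξ 1)).2]) volume := by
      apply AEMeasurable.aestronglyMeasurable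
      apply aemeasurable_pi_lambda
      intro i
      fin_cases i
      · exact ((c1a.aestronglyMeasurable.mul (m 0)).sub
          (c2b.aestronglyMeasurable.mul (m 1))).aemeasurable
      · exact ((c2a.aestronglyMeasurable.mul (m 0)).add
          (c1b.aestronglyMeasurable.mul (m 1))).aemeasurable
    exact (PiLp.continuous_toLp 2 (fun _ : Fin 2 => ℂ)).comp_aestronglyMeasurable h2
  exact hF.of_le hm (Filter.Eventually.of_forall fun ξ => (aa_norm P ht F ξ).le)

/-- **Existence.** -/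
lemma exists_solution {T : ℝ} {d : ℝ → ℝ} {e : ℝ → ℂ} {p q : ℝ → ℝ → ℂ} (P : Path T d e p q)
    (f : Lp E2 2 (volume : Measure ℝ)) : ∃ α, IsSolution (nuM (per T d) (per T e)) α ∧ α 0 = f := by
  set F : ℝ → E2 := ((𝓕 f : Lp E2 2 (volume : Measure ℝ)) : ℝ → E2) with hF
  have hFm : MemLp F 2 := Lp.memLp _
  set α : ℝ → Lp E2 2 (volume : Measure ℝ) := fun t =>
    𝓕⁻ ((aa_memLp P (le_max_right t 0) hFm).toLp) with hα
  have hft : ∀ t, 0 ≤ t → (𝓕 (α t) : Lp E2 2 (volume : Measure ℝ)) =ᵐ[volume] aa T p q F t := by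
    intro t ht
    rw [hα]
    simp only
    rw [fourier_fourierInv_eq]
    have h1 := (aa_memLp P (le_max_right t 0) hFm).coeFn_toLp
    have h2 : aa T p q F (max t 0) = aa T p q F t := by rw [max_eq_left ht]
    exact h1.trans (Filter.EventuallyEq.of_eq h2)
  refine ⟨α, ⟨aa T p q F, hft, ?_⟩, ?_⟩
  · filter_upwards with ξ
    obtain ⟨s1, s2, s3⟩ := flow_sys P (F ξ 0, F ξ 1) (2 * π * ξ)
    refine ⟨?_, fun t ht i => ?_⟩
    · apply (PiLp.continuous_toLp 2 (fun _ : Fin 2 => ℂ)).comp_continuousOn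
      rw [continuousOn_pi]
      intro i
      fin_cases i
      · exact s1
      · exact s2
    · fin_cases i
      · refine (s3 t ht).1.trans ?_
        apply intervalIntegral.integral_congr
        intro s _
        exact (symbol_mulVec (per T d) (per T e) s ξ (WithLp.ofLp (aa T p q F s ξ))).1.symm
      · refine (s3 t ht).2.trans ?_
        apply intervalIntegral.integral_congr
        intro s _
        exact (symbol_mulVec (per T d) (per T e) s ξ (WithLp.ofLp (aa T p q F s ξ))).2.symm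
  · have h1 : (𝓕 (α 0) : Lp E2 2 (volume : Measure ℝ)) = 𝓕 f := by
      apply Lp.ext
      filter_upwards [hft 0 le_rfl] with ξ h
      rw [h]
      ext i
      fin_cases i
      · simp [aa, UU_zero P, pmul_one, hF]
      · simp [aa, UU_zero P, pmul_one, hF]
    have h2 := congrArg (fun u : Lp E2 2 (volume : Measure ℝ) =>
      (𝓕⁻ u : Lp E2 2 (volume : Measure ℝ))) h1
    simpa only [fourierInv_fourier_eq] using h2

/-- **Uniqueness.** -/
lemma unique_solution {T : ℝ} {d : ℝ → ℝ} {e : ℝ → ℂ} {p q : ℝ → ℝ → ℂ} (P : Path T d e p q)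
    {α β : ℝ → Lp E2 2 (volume : Measure ℝ)} (hα : IsSolution (nuM (per T d) (per T e)) α)
    (hβ : IsSolution (nuM (per T d) (per T e)) β) (h0 : α 0 = β 0) (t : ℝ) (ht : 0 ≤ t) :
    α t = β t := by
  have h1 : (𝓕 (α t) : Lp E2 2 (volume : Measure ℝ)) = 𝓕 (β t) := by
    apply Lp.ext
    filter_upwards [sol_eq P hα t ht, sol_eq P hβ t ht] with ξ h2 h3
    rw [h0] at h2
    ext i
    fin_cases i
    · exact h2.1.trans h3.1.symm
    · exact h2.2.trans h3.2.symm
  have h2 := congrArg (fun u : Lp E2 2 (volume : Measure ℝ) =>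
    (𝓕⁻ u : Lp E2 2 (volume : Measure ℝ))) h1
  simpa only [fourierInv_fourier_eq] using h2

lemma Un_two {f g : ℝ → ℂ} (h : ∀ x, ‖f x‖ ^ 2 + ‖g x‖ ^ 2 = 1) (x : ℝ) (n : ℕ) :
    (Un f g (n + 2) x).1 = 2 * ((f x).re : ℂ) * (Un f g (n + 1) x).1 - (Un f g n x).1 := by
  have hff : f x * conj (f x) + g x * conj (g x) = 1 := by
    rw [Complex.mul_conj, Complex.mul_conj, Complex.normSq_eq_norm_sq,
      Complex.normSq_eq_norm_sq, ← Complex.ofReal_add, h x, Complex.ofReal_one]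
  have hre : f x + conj (f x) = 2 * ((f x).re : ℂ) := by
    rw [Complex.add_conj]; push_cast; ring
  rw [← hre]
  simp only [Un, pmul]
  linear_combination (-(Un f g n x).1) * hff

lemma Un_even {f g : ℝ → ℂ} (h : ∀ x, ‖f x‖ ^ 2 + ‖g x‖ ^ 2 = 1) (x : ℝ) (m : ℕ) :
    ‖(Un f g (2 * m) x).1 - (-1) ^ m‖ ≤ 2 * m * ‖f x‖ := by
  induction m with
  | zero => simp [Un]
  | succ m ih =>
    rw [show 2 * (m + 1) = 2 * m + 2 by ring, Un_two h]
    have e1 : 2 * ((f x).re : ℂ) * (Un f g (2 * m + 1) x).1 - (Un f g (2 * m) x).1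
        - (-1) ^ (m + 1) = 2 * ((f x).re : ℂ) * (Un f g (2 * m + 1) x).1
        - ((Un f g (2 * m) x).1 - (-1) ^ m) := by ring
    rw [e1]
    refine (norm_sub_le _ _).trans ?_
    have h1 := (unit_le (Un_unit h (2 * m + 1) x)).1
    have h2 : ‖2 * ((f x).re : ℂ) * (Un f g (2 * m + 1) x).1‖ ≤ 2 * ‖f x‖ := by
      rw [norm_mul, norm_mul, Complex.norm_real]
      have h3 := Complex.abs_re_le_norm (f x)
      have h4 := norm_nonneg (f x)
      norm_num
      calc 2 * |(f x).re| * ‖(Un f g (2 * m + 1) x).1‖ ≤ 2 * ‖f x‖ * 1 := by gcongr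
        _ = _ := by ring
    push_cast
    linarith

lemma UU_even {T : ℝ} {d : ℝ → ℝ} {e : ℝ → ℂ} {p q : ℝ → ℝ → ℂ} (P : Path T d e p q)
    (m : ℕ) (x : ℝ) : ‖(UU T p q (2 * m * T) x).1 - (-1) ^ m‖ ≤ 2 * m * ‖p T x‖ := by
  have hT := P.pos
  have h1 : UU T p q (2 * m * T) x = Un (p T) (q T) (2 * m) x := by
    rw [UU_eq P (2 * m) (2 * m * T) (by push_cast; rfl) (by push_cast; nlinarith) x]
    have : 2 * (m : ℝ) * T - ((2 * m : ℕ) : ℝ) * T = 0 := by push_cast; ring
    rw [this, (P.init x).1, (P.init x).2, pmul_one]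
  rw [h1]
  exact Un_even (fun x => P.unit T ⟨hT.le, le_rfl⟩ x) x m

/-! ### The lower bound -/

/-- The Gaussian. -/
noncomputable def gau (R ξ : ℝ) : ℝ := Real.exp (-π * R ^ 2 * ξ ^ 2)

lemma gau_pos (R ξ : ℝ) : 0 < gau R ξ := Real.exp_pos _

lemma gau_integrable {R : ℝ} (hR : 0 < R) : Integrable (gau R) := by
  have := integrable_exp_neg_mul_sq (b := π * R ^ 2) (by positivity)
  refine this.congr (Filter.Eventually.of_forall fun x => ?_)
  simp only [gau]
  congr 1
  ring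

lemma gau_integral {R : ℝ} (hR : 0 < R) : ∫ ξ, gau R ξ = 1 / R := by
  have h := integral_gaussian (π * R ^ 2)
  have e1 : (fun x : ℝ => Real.exp (-(π * R ^ 2) * x ^ 2)) = gau R := by
    ext x; simp only [gau]; congr 1; ring
  rw [e1] at h
  rw [h]
  have : π / (π * R ^ 2) = (1 / R) ^ 2 := by
    field_simp
  rw [this, Real.sqrt_sq (by positivity)]

/-- The Fourier transform of the Gaussian. -/
lemma gau_fourier {R : ℝ} (hR : 0 < R) (ξ : ℝ) :
    𝓕 (fun x : ℝ => ((1 / R * gau (1 / R) x : ℝ) : ℂ)) ξ = (gau R ξ : ℂ) := by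
  have hb : 0 < ((1 / R ^ 2 : ℝ) : ℂ).re := by
    rw [Complex.ofReal_re]; positivity
  have h := congrFun (fourier_gaussian_pi hb) ξ
  have e1 : (fun x : ℝ => ((1 / R * gau (1 / R) x : ℝ) : ℂ))
      = fun x : ℝ => ((1 / R : ℝ) : ℂ) • Complex.exp (-π * ((1 / R ^ 2 : ℝ) : ℂ) * x ^ 2) := by
    ext x
    simp only [gau, smul_eq_mul]
    push_cast
    congr 2
    ring
  have e2 : 𝓕 (fun x : ℝ => ((1 / R : ℝ) : ℂ) •
      Complex.exp (-π * ((1 / R ^ 2 : ℝ) : ℂ) * x ^ 2)) ξ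
      = ((1 / R : ℝ) : ℂ) • 𝓕 (fun x : ℝ =>
        Complex.exp (-π * ((1 / R ^ 2 : ℝ) : ℂ) * x ^ 2)) ξ := by
    rw [Real.fourier_eq, Real.fourier_eq, ← integral_smul]
    apply integral_congr_ae
    filter_upwards with x
    rw [smul_comm]
  rw [e1, e2, h]
  have e3 : ((1 / R ^ 2 : ℝ) : ℂ) ^ (1 / 2 : ℂ) = ((1 / R : ℝ) : ℂ) := by
    have : (1 / 2 : ℂ) = ((1 / 2 : ℝ) : ℂ) := by push_cast; rfl
    rw [this, ← Complex.ofReal_cpow (by positivity), ← Real.sqrt_eq_rpow]
    congr 1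
    rw [show (1 / R ^ 2 : ℝ) = (1 / R) ^ 2 by field_simp, Real.sqrt_sq (by positivity)]
  rw [e3]
  have hR' : (R : ℂ) ≠ 0 := by exact_mod_cast hR.ne'
  simp only [gau, smul_eq_mul]
  push_cast
  rw [← mul_assoc, mul_one_div, div_self (by simpa using hR'), one_mul]
  congr 1
  field_simp

/-- The multiplier of the inhomogeneous derivative of order `-r`. -/
noncomputable def jb (r ξ : ℝ) : ℝ := (1 + (2 * π * ξ) ^ 2) ^ (-(r / 2))

lemma jb_pos (r ξ : ℝ) : 0 < jb r ξ := Real.rpow_pos_of_pos (by positivity) _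

lemma jb_le_one {r : ℝ} (hr : 0 ≤ r) (ξ : ℝ) : jb r ξ ≤ 1 := by
  apply Real.rpow_le_one_of_one_le_of_nonpos
  · nlinarith [sq_nonneg (2 * π * ξ)]
  · linarith

lemma jb_cont (r : ℝ) : Continuous (jb r) := by
  unfold jb
  apply Continuous.rpow_const (by fun_prop)
  intro x; left; positivity

lemma pow_gau (k : ℕ) {R : ℝ} (hR : 0 < R) (ξ : ℝ) :
    |ξ| ^ k * (gau R ξ * gau R ξ) ≤ (Real.exp 1 * k.factorial) / R ^ k * gau R ξ := by
  have h1 := Real.pow_div_factorial_le_exp (R * |ξ|) (by positivity) k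
  have h2 : R * |ξ| ≤ 1 + π * R ^ 2 * ξ ^ 2 := by
    have := Real.pi_gt_three
    have h3 : ξ ^ 2 = |ξ| ^ 2 := (sq_abs ξ).symm
    rw [h3]
    nlinarith [sq_nonneg (R * |ξ| - 1), sq_nonneg (R * |ξ|)]
  have h3 : Real.exp (R * |ξ|) ≤ Real.exp 1 * Real.exp (π * R ^ 2 * ξ ^ 2) := by
    rw [← Real.exp_add]; exact Real.exp_le_exp.2 h2
  have h4 : (R * |ξ|) ^ k ≤ Real.exp 1 * k.factorial * Real.exp (π * R ^ 2 * ξ ^ 2) := by
    have hf : (0 : ℝ) < k.factorial := by exact_mod_cast k.factorial_pos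
    rw [div_le_iff₀ hf] at h1
    nlinarith
  have h5 : gau R ξ * Real.exp (π * R ^ 2 * ξ ^ 2) = 1 := by
    unfold gau
    rw [← Real.exp_add]
    simp
  have hg := gau_pos R ξ
  rw [div_mul_eq_mul_div, le_div_iff₀ (by positivity)]
  calc |ξ| ^ k * (gau R ξ * gau R ξ) * R ^ k = (R * |ξ|) ^ k * gau R ξ * gau R ξ := by
        rw [mul_pow]; ring
    _ ≤ (Real.exp 1 * k.factorial * Real.exp (π * R ^ 2 * ξ ^ 2)) * gau R ξ * gau R ξ := by
        gcongr
    _ = Real.exp 1 * k.factorial * gau R ξ * (gau R ξ * Real.exp (π * R ^ 2 * ξ ^ 2)) := by ring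
    _ = _ := by rw [h5, mul_one]

/-- **The lower bound.** -/
theorem slow {T : ℝ} {d : ℝ → ℝ} {e : ℝ → ℂ} {p q : ℝ → ℝ → ℂ} (P : Path T d e p q)
    {C₀ : ℝ} {k : ℕ} (hk : 1 ≤ k) (hC₀ : ∀ x, ‖p T x‖ ≤ C₀ * |x| ^ k) {r σ : ℝ} (hr : 0 ≤ r)
    (hdec : DecayEstimate (nuM (per T d) (per T e)) r σ) : σ ≤ 1 / k := by
  have hT := P.pos
  obtain ⟨c, hc⟩ := hdec
  set C : ℝ := max C₀ 0 with hCdef
  have hC0 : 0 ≤ C := le_max_right _ _
  have hC : ∀ x, ‖p T x‖ ≤ C * |x| ^ k := fun x => (hC₀ x).trans (by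
    gcongr; exact le_max_left _ _)
  -- constants
  set cr : ℝ := 2 * (1 + (2 * π) ^ 2) ^ (-(r / 2)) * Real.exp (-(2 * π)) with hcr
  have hcr0 : 0 < cr := by positivity
  set Ck : ℝ := 2 * C * (2 * π) ^ k * (Real.exp 1 * k.factorial) with hCk
  have hCk0 : 0 ≤ Ck := by positivity
  -- the main inequality
  have main : ∀ (m : ℕ), 1 ≤ m → ∀ R : ℝ, 1 ≤ R →
      cr / R - Ck * m / R ^ k * (1 / R) ≤ |c| / (2 * m * T) ^ σ := by
    intro m hm R hR1
    have hR : 0 < R := by linarith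
    have hmr : (1 : ℝ) ≤ m := by exact_mod_cast hm
    set t : ℝ := 2 * m * T with ht
    have ht0 : 0 < t := by positivity
    -- the Gaussian and the data
    set ghat : ℝ → E2 := fun ξ => !₂[(gau R ξ : ℂ), 0] with hghat
    set fhat : ℝ → E2 := fun ξ => !₂[((jb r ξ * gau R ξ : ℝ) : ℂ), 0] with hfhat
    set g : ℝ → E2 := fun x => !₂[((1 / R * gau (1 / R) x : ℝ) : ℂ), 0] with hg
    have cgau : ∀ R : ℝ, Continuous (gau R) := fun R => by unfold gau; fun_prop
    have hgc : Continuous ghat := by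
      apply (PiLp.continuous_toLp 2 (fun _ : Fin 2 => ℂ)).comp
      apply continuous_pi
      intro i
      fin_cases i
      · exact Complex.continuous_ofReal.comp (cgau R)
      · exact continuous_const
    have hfc : Continuous fhat := by
      apply (PiLp.continuous_toLp 2 (fun _ : Fin 2 => ℂ)).comp
      apply continuous_pi
      intro i
      fin_cases i
      · exact Complex.continuous_ofReal.comp ((jb_cont r).mul (cgau R))
      · exact continuous_const
    have hgcx : Continuous g := by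
      apply (PiLp.continuous_toLp 2 (fun _ : Fin 2 => ℂ)).comp
      apply continuous_pi
      intro i
      fin_cases i
      · exact Complex.continuous_ofReal.comp (continuous_const.mul (cgau (1 / R)))
      · exact continuous_const
    have ngh : ∀ ξ, ‖ghat ξ‖ = gau R ξ := by
      intro ξ
      rw [EuclideanSpace.norm_eq, Fin.sum_univ_two]
      simp only [hghat]
      simp [abs_of_pos (gau_pos R ξ), Real.sqrt_sq (gau_pos R ξ).le]
    have nfh : ∀ ξ, ‖fhat ξ‖ = jb r ξ * gau R ξ := by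
      intro ξ
      have hp : 0 < jb r ξ * gau R ξ := mul_pos (jb_pos r ξ) (gau_pos R ξ)
      rw [EuclideanSpace.norm_eq, Fin.sum_univ_two]
      simp only [hfhat]
      have e1 : ‖(!₂[((jb r ξ * gau R ξ : ℝ) : ℂ), 0] : E2) 0‖ = jb r ξ * gau R ξ := by
        change ‖((jb r ξ * gau R ξ : ℝ) : ℂ)‖ = _
        rw [Complex.norm_real, Real.norm_eq_abs, abs_of_pos hp]
      have e2 : ‖(!₂[((jb r ξ * gau R ξ : ℝ) : ℂ), 0] : E2) 1‖ = 0 := by
        change ‖(0 : ℂ)‖ = 0
        simp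
      rw [e1, e2]
      rw [show (jb r ξ * gau R ξ) ^ 2 + (0 : ℝ) ^ 2 = (jb r ξ * gau R ξ) ^ 2 by ring,
        Real.sqrt_sq hp.le]
    have ng : ∀ x, ‖g x‖ = 1 / R * gau (1 / R) x := by
      intro x
      have hp : 0 < 1 / R * gau (1 / R) x := mul_pos (by positivity) (gau_pos _ x)
      rw [EuclideanSpace.norm_eq, Fin.sum_univ_two]
      have e1 : ‖g x 0‖ = 1 / R * gau (1 / R) x := by
        change ‖((1 / R * gau (1 / R) x : ℝ) : ℂ)‖ = _
        rw [Complex.norm_real, Real.norm_eq_abs, abs_of_pos hp]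
      have e2 : ‖g x 1‖ = 0 := by
        change ‖(0 : ℂ)‖ = 0
        simp
      rw [e1, e2]
      rw [show (1 / R * gau (1 / R) x) ^ 2 + (0 : ℝ) ^ 2 = (1 / R * gau (1 / R) x) ^ 2 by ring,
        Real.sqrt_sq hp.le]
    have igh : Integrable ghat := by
      apply (gau_integrable hR).mono' hgc.aestronglyMeasurable
      exact Filter.Eventually.of_forall fun ξ => (ngh ξ).le
    have hRi : (0 : ℝ) < 1 / R := by positivity
    have ig : Integrable g := by
      apply ((gau_integrable hRi).const_mul (1 / R)).mono' hgcx.aestronglyMeasurable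
      exact Filter.Eventually.of_forall fun ξ => (ng ξ).le
    have igint : ∫ x, ‖g x‖ = 1 := by
      simp only [ng]
      rw [integral_const_mul, gau_integral hRi]
      field_simp
    have gle1 : ∀ ξ, gau R ξ ≤ 1 := by
      intro ξ
      unfold gau
      rw [Real.exp_le_one_iff]
      have : 0 ≤ π * R ^ 2 * ξ ^ 2 := by positivity
      linarith
    have mgh : MemLp ghat 2 := by
      rw [memLp_two_iff_integrable_sq_norm hgc.aestronglyMeasurable]
      apply (gau_integrable hR).mono' (hgc.norm.pow 2).aestronglyMeasurable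
      filter_upwards with ξ
      change ‖‖ghat ξ‖ ^ 2‖ ≤ gau R ξ
      rw [ngh, Real.norm_eq_abs, abs_of_nonneg (by have := gau_pos R ξ; positivity)]
      have := gau_pos R ξ
      have := gle1 ξ
      nlinarith
    have mfh : MemLp fhat 2 := by
      apply mgh.of_le hfc.aestronglyMeasurable
      filter_upwards with ξ
      rw [nfh, ngh]
      exact mul_le_of_le_one_left (gau_pos R ξ).le (jb_le_one hr ξ)
    obtain ⟨α, hα, hα0⟩ := exists_solution P (𝓕⁻ (mfh.toLp) : Lp E2 2 (volume : Measure ℝ))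
    have hF0 : (𝓕 (α 0) : Lp E2 2 (volume : Measure ℝ)) =ᵐ[volume] fhat := by
      rw [hα0, fourier_fourierInv_eq]
      exact mfh.coeFn_toLp
    -- the relation between the data and the Gaussian
    have hfg : ∀ ξ, 𝓕 g ξ = ghat ξ := by
      intro ξ
      ext i
      rw [fourier_comp g ig ξ i]
      fin_cases i
      · exact gau_fourier hR ξ
      · change 𝓕 (fun _ : ℝ => (0 : ℂ)) ξ = 0
        rw [Real.fourier_eq]
        simp
    have hrel : ∀ᵐ ξ : ℝ, 𝓕 g ξ = (((1 + (2 * π * ξ) ^ 2) ^ (r / 2) : ℝ) : ℂ)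
        • (𝓕 (α 0) : Lp E2 2 (volume : Measure ℝ)) ξ := by
      filter_upwards [hF0] with ξ hξ
      rw [hξ, hfg]
      have hpos : (0 : ℝ) < 1 + (2 * π * ξ) ^ 2 := by positivity
      have e1 : (1 + (2 * π * ξ) ^ 2) ^ (r / 2) * jb r ξ = 1 := by
        unfold jb
        rw [← Real.rpow_add hpos]
        simp
      ext i
      rw [PiLp.smul_apply, smul_eq_mul]
      fin_cases i
      · change (gau R ξ : ℂ) = _ * ((jb r ξ * gau R ξ : ℝ) : ℂ)
        rw [← Complex.ofReal_mul, ← mul_assoc, e1, one_mul]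
      · change (0 : ℂ) = _ * 0
        simp
    have hest := hc α hα g ig hrel t ht0
    have hg1 : eLpNorm g 1 volume = 1 := by
      rw [eLpNorm_one_eq_lintegral_enorm, ← ofReal_integral_norm_eq_lintegral_enorm ig, igint]
      simp
    rw [hg1, mul_one, eLpNorm_exponent_top] at hest
    set K : ℝ := |c| / t ^ σ with hK
    have hK0 : 0 ≤ K := by positivity
    have hαb : ∀ᵐ x : ℝ, ‖α t x‖ ≤ K := by
      have h1 : ∀ᵐ x : ℝ, ‖α t x‖ₑ ≤ eLpNormEssSup (α t) volume := ae_le_eLpNormEssSup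
      filter_upwards [h1] with x hx
      have h2 : ‖α t x‖ₑ ≤ ENNReal.ofReal K := by
        refine hx.trans (hest.trans (ENNReal.ofReal_le_ofReal ?_))
        rw [hK]
        gcongr
        exact le_abs_self c
      rw [← ofReal_norm] at h2
      exact (ENNReal.ofReal_le_ofReal_iff hK0).1 h2
    -- the pairing
    set u : Lp E2 2 (volume : Measure ℝ) := 𝓕⁻ (mgh.toLp) with hu
    have hFu : (𝓕 u : Lp E2 2 (volume : Measure ℝ)) =ᵐ[volume] ghat := by
      rw [hu, fourier_fourierInv_eq]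
      exact mgh.coeFn_toLp
    have hug : (u : ℝ → E2) =ᵐ[volume] g := by
      have h1 := inv_ae igh hFu
      have h2 : (𝓕⁻ ghat : ℝ → E2) = g := by
        have h3 : ghat = 𝓕 g := by ext1 ξ; exact (hfg ξ).symm
        rw [h3]
        exact hgcx.fourierInv_fourier_eq ig (by rw [← h3]; exact igh)
      rw [h2] at h1
      exact h1
    have hpair1 : ‖(inner ℂ u (α t) : ℂ)‖ ≤ K := by
      rw [L2.inner_def]
      calc ‖∫ x, inner ℂ (u x) (α t x)‖ ≤ ∫ x, ‖g x‖ * K := by
            apply norm_integral_le_of_norm_le (ig.norm.mul_const K)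
            filter_upwards [hug, hαb] with x h1 h2
            rw [h1]
            refine (norm_inner_le_norm _ _).trans ?_
            gcongr
        _ = K := by rw [integral_mul_const, igint, one_mul]
    have hsol := sol_eq P hα t ht0.le
    set V : ℝ → ℂ := fun ξ => (UU T p q t (2 * π * ξ)).1 with hV
    have hUu := UU_unit P ht0.le
    have cV : Continuous V := (UU_cont P ht0.le).1.comp (by fun_prop)
    have nV : ∀ ξ, ‖V ξ‖ ≤ 1 := fun ξ => (unit_le (hUu _)).1
    set Φ : ℝ → ℝ := fun ξ => jb r ξ * (gau R ξ * gau R ξ) with hΦ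
    have cΦ : Continuous Φ := (jb_cont r).mul ((cgau R).mul (cgau R))
    have pΦ : ∀ ξ, 0 < Φ ξ := fun ξ => mul_pos (jb_pos r ξ) (mul_pos (gau_pos R ξ) (gau_pos R ξ))
    have bΦ : ∀ ξ, Φ ξ ≤ gau R ξ * gau R ξ := fun ξ =>
      mul_le_of_le_one_left (mul_pos (gau_pos R ξ) (gau_pos R ξ)).le (jb_le_one hr ξ)
    have bΦ' : ∀ ξ, Φ ξ ≤ gau R ξ := fun ξ => (bΦ ξ).trans
      (mul_le_of_le_one_left (gau_pos R ξ).le (gle1 ξ))
    have iΦ : Integrable Φ := by
      apply (gau_integrable hR).mono' cΦ.aestronglyMeasurable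
      filter_upwards with ξ
      rw [Real.norm_eq_abs, abs_of_pos (pΦ ξ)]
      exact bΦ' ξ
    have hpair2 : (inner ℂ u (α t) : ℂ) = ∫ ξ, (Φ ξ : ℂ) * V ξ := by
      rw [← Lp.inner_fourier_eq, L2.inner_def]
      apply integral_congr_ae
      filter_upwards [hFu, hsol, hF0] with ξ h1 h2 h3
      rw [h1]
      rw [h3] at h2
      have e1 : inner ℂ (ghat ξ) ((𝓕 (α t) : Lp E2 2 (volume : Measure ℝ)) ξ)
          = (gau R ξ : ℂ) * (𝓕 (α t) : Lp E2 2 (volume : Measure ℝ)) ξ 0 := by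
        rw [PiLp.inner_apply, Fin.sum_univ_two]
        have f0 : ghat ξ 0 = (gau R ξ : ℂ) := rfl
        have f1 : ghat ξ 1 = 0 := rfl
        rw [f0, f1]
        simp [RCLike.inner_apply]
        ring
      rw [e1, h2.1]
      have f0 : fhat ξ 0 = ((jb r ξ * gau R ξ : ℝ) : ℂ) := rfl
      have f1 : fhat ξ 1 = 0 := rfl
      rw [f0, f1]
      simp only [pmul, hV, hΦ]
      push_cast
      ring
    -- comparison with the sign
    have hcomp : ‖(∫ ξ, (Φ ξ : ℂ) * V ξ) - (-1) ^ m * ((∫ ξ, Φ ξ : ℝ) : ℂ)‖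
        ≤ Ck * m / R ^ k * (1 / R) := by
      have i1 : Integrable (fun ξ => (Φ ξ : ℂ) * V ξ) := by
        apply iΦ.mono' ((Complex.continuous_ofReal.comp cΦ).mul cV).aestronglyMeasurable
        filter_upwards with ξ
        change ‖(Φ ξ : ℂ) * V ξ‖ ≤ Φ ξ
        rw [norm_mul, Complex.norm_real, Real.norm_eq_abs, abs_of_pos (pΦ ξ)]
        exact mul_le_of_le_one_right (pΦ ξ).le (nV ξ)
      have e1 : (-1) ^ m * ((∫ ξ, Φ ξ : ℝ) : ℂ) = ∫ ξ, (-1) ^ m * (Φ ξ : ℂ) := by
        rw [integral_const_mul, integral_complex_ofReal]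
      have i2 : Integrable (fun ξ => (-1 : ℂ) ^ m * (Φ ξ : ℂ)) := iΦ.ofReal.const_mul _
      rw [e1, ← integral_sub i1 i2]
      calc ‖∫ ξ, ((Φ ξ : ℂ) * V ξ - (-1) ^ m * (Φ ξ : ℂ))‖
          ≤ ∫ ξ, Ck * m / R ^ k * gau R ξ := by
            apply norm_integral_le_of_norm_le ((gau_integrable hR).const_mul _)
            filter_upwards with ξ
            have e2 : (Φ ξ : ℂ) * V ξ - (-1) ^ m * (Φ ξ : ℂ)
                = (Φ ξ : ℂ) * (V ξ - (-1) ^ m) := by ring
            rw [e2, norm_mul, Complex.norm_real, Real.norm_eq_abs, abs_of_pos (pΦ ξ)]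
            have e3 := UU_even P m (2 * π * ξ)
            have e4 := hC (2 * π * ξ)
            have e5 : |2 * π * ξ| ^ k = (2 * π) ^ k * |ξ| ^ k := by
              rw [abs_mul, mul_pow, abs_of_pos (by positivity : 0 < 2 * π)]
            rw [e5] at e4
            have e6 : ‖V ξ - (-1) ^ m‖ ≤ 2 * m * (C * ((2 * π) ^ k * |ξ| ^ k)) := by
              refine e3.trans ?_
              gcongr
            have e7 := pow_gau k hR ξ
            calc Φ ξ * ‖V ξ - (-1) ^ m‖
                ≤ (gau R ξ * gau R ξ) * (2 * m * (C * ((2 * π) ^ k * |ξ| ^ k))) := by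
                  apply mul_le_mul (bΦ ξ) e6 (norm_nonneg _)
                  exact (mul_pos (gau_pos R ξ) (gau_pos R ξ)).le
              _ = 2 * m * C * (2 * π) ^ k * (|ξ| ^ k * (gau R ξ * gau R ξ)) := by ring
              _ ≤ 2 * m * C * (2 * π) ^ k
                  * ((Real.exp 1 * k.factorial) / R ^ k * gau R ξ) := by gcongr
              _ = _ := by rw [hCk]; ring
        _ = _ := by rw [integral_const_mul, gau_integral hR]
    -- the lower bound of the integral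
    have hlow : cr / R ≤ ∫ ξ, Φ ξ := by
      have h1 : ∫ ξ in Icc (-(1 / R)) (1 / R), (1 + (2 * π) ^ 2) ^ (-(r / 2))
          * Real.exp (-(2 * π)) ≤ ∫ ξ in Icc (-(1 / R)) (1 / R), Φ ξ := by
        apply setIntegral_mono_on
        · exact integrableOn_const (by simp)
        · exact iΦ.integrableOn
        · exact measurableSet_Icc
        · intro ξ hξ
          have hξ1 : |ξ| ≤ 1 / R := abs_le.2 hξ
          have hξ2 : ξ ^ 2 ≤ 1 / R ^ 2 := by
            rw [← sq_abs, show (1 : ℝ) / R ^ 2 = (1 / R) ^ 2 by field_simp]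
            gcongr
          have hξ3 : ξ ^ 2 ≤ 1 := hξ2.trans (by
            rw [div_le_one (by positivity)]; nlinarith)
          have j1 : (1 + (2 * π) ^ 2) ^ (-(r / 2)) ≤ jb r ξ := by
            unfold jb
            apply Real.rpow_le_rpow_of_nonpos (by positivity) _ (by linarith)
            have : 0 ≤ (2 * π) ^ 2 := by positivity
            nlinarith
          have j2 : Real.exp (-(2 * π)) ≤ gau R ξ * gau R ξ := by
            unfold gau
            rw [← Real.exp_add, Real.exp_le_exp]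
            have : R ^ 2 * ξ ^ 2 ≤ 1 := by
              calc R ^ 2 * ξ ^ 2 ≤ R ^ 2 * (1 / R ^ 2) := by gcongr
                _ = 1 := by field_simp
            nlinarith [Real.pi_pos]
          exact mul_le_mul j1 j2 (Real.exp_pos _).le (jb_pos r ξ).le
      have h2 : ∫ ξ in Icc (-(1 / R)) (1 / R), (1 + (2 * π) ^ 2) ^ (-(r / 2))
          * Real.exp (-(2 * π)) = cr / R := by
        rw [setIntegral_const, Measure.real, Real.volume_Icc, ENNReal.toReal_ofReal (by
          have : 0 < 1 / R := hRi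
          linarith), smul_eq_mul, hcr]
        ring
      rw [h2] at h1
      exact h1.trans (setIntegral_le_integral iΦ (Filter.Eventually.of_forall fun ξ => (pΦ ξ).le))
    have hfin : ‖(-1) ^ m * ((∫ ξ, Φ ξ : ℝ) : ℂ)‖ ≤ K + Ck * m / R ^ k * (1 / R) := by
      rw [hpair2] at hpair1
      have h1 : (-1) ^ m * ((∫ ξ, Φ ξ : ℝ) : ℂ) = (∫ ξ, (Φ ξ : ℂ) * V ξ)
        - ((∫ ξ, (Φ ξ : ℂ) * V ξ) - (-1) ^ m * ((∫ ξ, Φ ξ : ℝ) : ℂ)) := by ring
      rw [h1]
      exact (norm_sub_le _ _).trans (add_le_add hpair1 hcomp)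
    rw [norm_mul, norm_pow, norm_neg, norm_one, one_pow, one_mul, Complex.norm_real,
      Real.norm_eq_abs] at hfin
    have := le_abs_self (∫ ξ, Φ ξ)
    linarith
  -- conclusion
  by_contra hcon
  push Not at hcon
  have hk0 : (0 : ℝ) < k := by exact_mod_cast hk
  set A : ℝ := 1 + 2 * Ck / cr with hA
  have hA1 : 1 ≤ A := by rw [hA]; have : 0 ≤ 2 * Ck / cr := by positivity
                         linarith
  have hA0 : 0 < A := by linarith
  set D : ℝ := |c| / (2 * T) ^ σ * A ^ (1 / k : ℝ) * (2 / cr) with hD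
  have hbd : ∀ m : ℕ, 1 ≤ m → (m : ℝ) ^ (σ - 1 / k) ≤ D := by
    intro m hm
    have hmr : (1 : ℝ) ≤ m := by exact_mod_cast hm
    have hm0 : (0 : ℝ) < m := by linarith
    set R : ℝ := (A * m) ^ (1 / k : ℝ) with hR
    have hAm : 1 ≤ A * m := by nlinarith
    have hR1 : 1 ≤ R := Real.one_le_rpow hAm (by positivity)
    have hR0 : 0 < R := by linarith
    have hRk : R ^ k = A * m := by
      rw [hR, ← Real.rpow_natCast, ← Real.rpow_mul (by positivity)]
      rw [one_div, inv_mul_cancel₀ hk0.ne', Real.rpow_one]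
    have h1 := main m hm R hR1
    have h2 : Ck * m / R ^ k * (1 / R) ≤ cr / 2 * (1 / R) := by
      rw [hRk]
      apply mul_le_mul_of_nonneg_right _ (by positivity)
      rw [div_le_iff₀ (by positivity)]
      have h3 : Ck ≤ cr / 2 * A := by
        rw [hA]
        have : cr / 2 * (1 + 2 * Ck / cr) = cr / 2 + Ck := by field_simp
        rw [this]; linarith
      nlinarith
    have h4 : cr / 2 * (1 / R) ≤ |c| / (2 * m * T) ^ σ := by
      have : cr / R = cr * (1 / R) := by ring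
      linarith
    have h5 : (2 * m * T) ^ σ = (2 * T) ^ σ * (m : ℝ) ^ σ := by
      rw [← Real.mul_rpow (by positivity) hm0.le]
      congr 1; ring
    rw [h5] at h4
    have h6 : R = A ^ (1 / k : ℝ) * (m : ℝ) ^ (1 / k : ℝ) := Real.mul_rpow hA0.le hm0.le
    have hmσ : 0 < (m : ℝ) ^ σ := Real.rpow_pos_of_pos hm0 _
    have hTσ : 0 < (2 * T) ^ σ := by positivity
    have hmk : 0 < (m : ℝ) ^ (1 / k : ℝ) := Real.rpow_pos_of_pos hm0 _
    have hAk : 0 < A ^ (1 / k : ℝ) := Real.rpow_pos_of_pos hA0 _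
    rw [Real.rpow_sub hm0, hD, div_le_iff₀ hmk]
    rw [h6, mul_one_div, div_le_div_iff₀ (by positivity) (by positivity)] at h4
    have h7 : (m : ℝ) ^ σ * ((2 * T) ^ σ * cr) ≤ 2 * |c| * (A ^ (1 / k : ℝ)
        * (m : ℝ) ^ (1 / k : ℝ)) := by nlinarith
    have h8 : |c| / (2 * T) ^ σ * A ^ (1 / k : ℝ) * (2 / cr) * (m : ℝ) ^ (1 / k : ℝ)
        = 2 * |c| * (A ^ (1 / k : ℝ) * (m : ℝ) ^ (1 / k : ℝ)) / ((2 * T) ^ σ * cr) := by
      field_simp
    rw [h8, le_div_iff₀ (by positivity)]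
    exact h7
  have htend := (tendsto_rpow_atTop (sub_pos.2 hcon)).comp
    (tendsto_natCast_atTop_atTop (R := ℝ))
  obtain ⟨m, hm1, hm2⟩ := ((htend.eventually_gt_atTop D).and
    (Filter.eventually_ge_atTop 1)).exists
  exact absurd (hbd m hm2) (not_le.2 hm1)

end Pool.Agent.H309.SD
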