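import Mathlib

/-! The Dirac equation with a time dependent forcing, and its decay estimates: the definitions
used in the final statement. -/

open MeasureTheory Set FourierTransform
open scoped ENNReal Real

namespace Pool.Agent.H309.Dirac

/-- The values of the solutions: `ℂ²` with its Euclidean norm. -/
abbrev C2 := EuclideanSpace ℂ (Fin 2)

/-- The matrices with two rows. -/
abbrev M2 := Matrix (Fin 2) (Fin 2) ℂ

/-- The space `L²(ℝ; ℂ²)`. -/
def L2 : Type := Lp C2 2 (volume : Measure ℝ)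

/-- The identity map from `L2` to Mathlib's space `Lp C2 2 volume`. -/
def L2.toLp (u : L2) : Lp C2 2 (volume : Measure ℝ) := u

/-- An element of `L²(ℝ; ℂ²)` as a function. -/
noncomputable def L2.fn (u : L2) : ℝ → C2 := ⇑u.toLp

/-- The Fourier transform, as a function, of an element of `L²(ℝ; ℂ²)`, in the convention of
Mathlib: `∫ e^(-2πixξ) u(x) dx` for integrable `u`. -/
noncomputable def L2.ft (u : L2) : ℝ → C2 := ⇑(𝓕 u.toLp : Lp C2 2 (volume : Measure ℝ))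

/-- The Pauli matrix `σ₃`. -/
def sigma3 : M2 := !![1, 0; 0, -1]

/-- The Fourier symbol of the operator `i σ₃ ∂ₓ + ν(t)` at the frequency `ξ`; the derivative `∂ₓ`
has the symbol `2πiξ`. -/
noncomputable def symbol (ν : ℝ → M2) (t ξ : ℝ) : M2 :=
  (Complex.I * (2 * π * Complex.I * ξ)) • sigma3 + ν t

/-- `y : [0,∞) → ℂ²` solves the ordinary differential equation `i y'(t) = H(t) y(t)` in
integrated form: `y` is continuous and `i (y(t) - y(0)) = ∫_0^t H(s) y(s) ds` for `t ≥ 0`. -/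
def SolvesODE (H : ℝ → M2) (y : ℝ → C2) : Prop :=
  ContinuousOn y (Ici 0) ∧ ∀ t, 0 ≤ t → ∀ i : Fin 2,
    Complex.I * (y t i - y 0 i) = ∫ s in (0 : ℝ)..t, ((H s).mulVec (y s).ofLp) i

/-- `α : [0,∞) → L²(ℝ; ℂ²)` solves the equation `i ∂ₜ α = (i σ₃ ∂ₓ + ν(t)) α`: at almost every
frequency `ξ` the Fourier transform of `α` solves the corresponding ordinary differential equation
`i a'(t) = (-2πξ σ₃ + ν(t)) a(t)`. -/
def IsSolution (ν : ℝ → M2) (α : ℝ → L2) : Prop :=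
  ∃ a : ℝ → ℝ → C2, (∀ t, 0 ≤ t → (α t).ft =ᵐ[volume] a t) ∧
    ∀ᵐ ξ : ℝ, SolvesODE (fun s => symbol ν s ξ) (fun t => a t ξ)

/-- `g = ⟨i∂ₓ⟩^r u`, where `g` is integrable:
`𝓕 g (ξ) = (1 + (2πξ)²)^(r/2) 𝓕 u (ξ)` for almost every `ξ`. -/
def IsDerivative (r : ℝ) (u : L2) (g : ℝ → C2) : Prop :=
  Integrable g ∧ ∀ᵐ ξ : ℝ, 𝓕 g ξ = (((1 + (2 * π * ξ) ^ 2) ^ (r / 2) : ℝ) : ℂ) • u.ft ξ

/-- The decay estimate of order `(r, σ)`: there is a constant `c` such that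
`‖α(t)‖_∞ ≤ c t^(-σ) ‖⟨i∂ₓ⟩^r α(0)‖_1` for all `t > 0` and all solutions for which
`⟨i∂ₓ⟩^r α(0)` is integrable. -/
def DecayEstimate (ν : ℝ → M2) (r σ : ℝ) : Prop :=
  ∃ c : ℝ, ∀ α : ℝ → L2, IsSolution ν α → ∀ g : ℝ → C2, IsDerivative r (α 0) g →
    ∀ t : ℝ, 0 < t →
      eLpNorm (α t).fn ⊤ volume ≤ ENNReal.ofReal (c / t ^ σ) * eLpNorm g 1 volume

/-- `ν` is dispersive if some decay estimate holds. -/
def Dispersive (ν : ℝ → M2) : Prop :=
  ∃ r σ : ℝ, 0 ≤ r ∧ 0 < σ ∧ DecayEstimate ν r σ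

/-- For every datum in `L²` there is exactly one solution. -/
def WellPosed (ν : ℝ → M2) : Prop :=
  (∀ f : L2, ∃ α, IsSolution ν α ∧ α 0 = f) ∧
    ∀ α β : ℝ → L2, IsSolution ν α → IsSolution ν β → α 0 = β 0 → ∀ t, 0 ≤ t → α t = β t

/-- `ν` is an admissible forcing with period `T`: measurable, bounded, Hermitian, `T`-periodic. -/
structure Forcing (T : ℝ) (ν : ℝ → M2) : Prop where
  pos : 0 < T
  meas : ∀ i j, Measurable fun t => ν t i j
  bounded : ∃ C : ℝ, ∀ t i j, ‖ν t i j‖ ≤ C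
  periodic : ∀ t, ν (t + T) = ν t
  hermitian : ∀ t, (ν t).IsHermitian

end Pool.Agent.H309.Dirac
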