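import Mathlib

/-! Negative moments of polynomials on the unit circle and on an interval. -/

open MeasureTheory Set Polynomial
open scoped ENNReal Real

namespace Pool.Agent.H309.SD

lemma neg_anti {x y : ℝ≥0∞} {κ : ℝ} (hκ : 0 ≤ κ) (h : x ≤ y) : y ^ (-κ) ≤ x ^ (-κ) := by
  rw [ENNReal.rpow_neg, ENNReal.rpow_neg]
  exact ENNReal.inv_le_inv.2 (ENNReal.rpow_le_rpow h hκ)

/-- A product of numbers is at most one plus the sum of their high powers. -/
lemma prod_le_one_add_sum (s : Multiset ℝ≥0∞) (n : ℕ) (hn : Multiset.card s ≤ n) :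
    s.prod ≤ 1 + (s.map (fun y => y ^ n)).sum := by
  classical
  rcases Multiset.empty_or_exists_mem s with h | ⟨a, ha⟩
  · subst h; simp
  · obtain ⟨m, hm, hmax⟩ := s.toFinset.exists_max_image id ⟨a, by simpa using ha⟩
    rw [Multiset.mem_toFinset] at hm
    have hle : ∀ y ∈ s, y ≤ m := fun y hy => hmax y (by simpa using hy)
    have h1 : s.prod ≤ m ^ Multiset.card s := by
      have := Multiset.prod_le_pow_card s m hle
      simpa using this
    rcases le_total m 1 with hm1 | hm1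
    · calc s.prod ≤ m ^ Multiset.card s := h1
        _ ≤ 1 := pow_le_one' hm1 _
        _ ≤ _ := le_self_add
    · calc s.prod ≤ m ^ Multiset.card s := h1
        _ ≤ m ^ n := pow_le_pow_right₀ hm1 hn
        _ ≤ (s.map (fun y => y ^ n)).sum := by
            exact Multiset.single_le_sum (by intros; positivity) _
              (Multiset.mem_map_of_mem _ hm)
        _ ≤ _ := le_add_self

lemma coeff_prod_le (s : Multiset ℂ) (j : ℕ) :
    ‖(s.map (fun r => X - C r)).prod.coeff j‖ ≤ (s.map (fun r => 1 + ‖r‖)).prod := by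
  induction s using Multiset.induction_on generalizing j with
  | empty => 
    simp only [Multiset.map_zero, Multiset.prod_zero, coeff_one]
    split_ifs <;> simp
  | cons a s ih =>
    simp only [Multiset.map_cons, Multiset.prod_cons]
    rw [sub_mul, coeff_sub, coeff_C_mul]
    have h0 : 0 ≤ (s.map (fun r => 1 + ‖r‖)).prod := by
      apply Multiset.prod_nonneg
      intro x hx
      obtain ⟨r, -, rfl⟩ := Multiset.mem_map.1 hx
      positivity
    have h1 : ‖(X * (s.map (fun r => X - C r)).prod).coeff j‖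
        ≤ (s.map (fun r => 1 + ‖r‖)).prod := by
      cases j with
      | zero => simpa using h0
      | succ j => rw [coeff_X_mul]; exact ih j
    have h2 := ih j
    have h3 : ‖a * (s.map (fun r => X - C r)).prod.coeff j‖
        ≤ ‖a‖ * (s.map (fun r => 1 + ‖r‖)).prod := by
      rw [norm_mul]
      exact mul_le_mul_of_nonneg_left h2 (norm_nonneg _)
    have h4 := norm_sub_le ((X * (s.map (fun r => X - C r)).prod).coeff j)
      (a * (s.map (fun r => X - C r)).prod.coeff j)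
    rw [add_mul, one_mul]
    linarith

/-- The distance of a point of the unit circle to `r`, from below. -/
lemma circ_dist (r : ℂ) : ∃ γ : ℝ, γ ∈ Icc (-π) π ∧ ∀ β : ℝ,
    (1 + ‖r‖) * |Real.sin (β - γ)| ≤ 3 * ‖Complex.exp (β * Complex.I) - r‖ := by
  refine ⟨r.arg, ⟨(Complex.neg_pi_lt_arg r).le, Complex.arg_le_pi r⟩, fun β => ?_⟩
  have h1 : |Real.sin (β - r.arg)| ≤ ‖Complex.exp (β * Complex.I) - r‖ := by
    have h2 : Real.sin (β - r.arg)
        = ((Complex.exp (β * Complex.I) - r) * Complex.exp (-(r.arg * Complex.I))).im := by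
      have h3 : r * Complex.exp (-(r.arg * Complex.I)) = ‖r‖ := by
        conv_lhs => rw [← Complex.norm_mul_exp_arg_mul_I r]
        rw [mul_assoc, ← Complex.exp_add]
        simp
      rw [sub_mul, h3, ← Complex.exp_add]
      have : (β : ℂ) * Complex.I + -(r.arg * Complex.I) = ((β - r.arg : ℝ) : ℂ) * Complex.I := by
        push_cast; ring
      rw [this, Complex.sub_im, Complex.exp_ofReal_mul_I_im]
      simp
    rw [h2]
    calc _ ≤ ‖(Complex.exp (β * Complex.I) - r) * Complex.exp (-(r.arg * Complex.I))‖ :=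
          Complex.abs_im_le_norm _
      _ = _ := by
          rw [norm_mul]
          have : -((r.arg : ℂ) * Complex.I) = ((-r.arg : ℝ) : ℂ) * Complex.I := by push_cast; ring
          rw [this, Complex.norm_exp_ofReal_mul_I, mul_one]
  have h4 : |Real.sin (β - r.arg)| ≤ 1 := Real.abs_sin_le_one _
  have h5 : ‖r‖ - 1 ≤ ‖Complex.exp (β * Complex.I) - r‖ := by
    have := norm_sub_norm_le r (Complex.exp (β * Complex.I))
    rw [Complex.norm_exp_ofReal_mul_I] at this
    rw [norm_sub_rev]; exact this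
  rcases le_total ‖r‖ 2 with h | h
  · have := norm_nonneg r
    have h0 := abs_nonneg (Real.sin (β - r.arg))
    nlinarith
  · have h0 := abs_nonneg (Real.sin (β - r.arg))
    nlinarith

lemma circ_lower (p : ℂ[X]) : ∃ g : Multiset ℝ, Multiset.card g ≤ p.natDegree ∧
    (∀ γ ∈ g, γ ∈ Icc (-π) π) ∧ ∀ (β : ℝ) (j : ℕ),
    ‖p.coeff j‖ * (g.map (fun γ => |Real.sin (β - γ)|)).prod
      ≤ 3 ^ p.natDegree * ‖p.eval (Complex.exp (β * Complex.I))‖ := by
  choose γ hγ1 hγ2 using circ_dist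
  refine ⟨p.roots.map γ, by simpa using p.card_roots', ?_, ?_⟩
  · intro x hx
    obtain ⟨r, -, rfl⟩ := Multiset.mem_map.1 hx
    exact hγ1 r
  · intro β j
    have hsplit : p.Splits := IsAlgClosed.splits p
    have hp := hsplit.eq_prod_roots
    have hcard : Multiset.card p.roots = p.natDegree := hsplit.natDegree_eq_card_roots.symm
    set z := Complex.exp (β * Complex.I) with hz
    have key : ∀ s : Multiset ℂ, (s.map (fun r => 1 + ‖r‖)).prod
        * ((s.map γ).map (fun γ => |Real.sin (β - γ)|)).prod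
        ≤ 3 ^ Multiset.card s * ‖(s.map (fun r => X - C r)).prod.eval z‖ := by
      intro s
      induction s using Multiset.induction_on with
      | empty => simp
      | cons a s ih =>
        simp only [Multiset.map_cons, Multiset.prod_cons, Multiset.card_cons, eval_mul,
          norm_mul, eval_sub, eval_X, eval_C]
        have h1 := hγ2 a β
        have h2 : 0 ≤ (s.map (fun r => 1 + ‖r‖)).prod
            * ((s.map γ).map (fun γ => |Real.sin (β - γ)|)).prod := by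
          apply mul_nonneg
          · apply Multiset.prod_nonneg
            intro x hx
            obtain ⟨r, -, rfl⟩ := Multiset.mem_map.1 hx
            positivity
          · apply Multiset.prod_nonneg
            intro x hx
            obtain ⟨r, -, rfl⟩ := Multiset.mem_map.1 hx
            positivity
        calc _ = ((1 + ‖a‖) * |Real.sin (β - γ a)|) * ((s.map (fun r => 1 + ‖r‖)).prod
            * ((s.map γ).map (fun γ => |Real.sin (β - γ)|)).prod) := by ring
          _ ≤ (3 * ‖z - a‖) * (3 ^ Multiset.card s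
            * ‖(s.map (fun r => X - C r)).prod.eval z‖) := by
              apply mul_le_mul h1 ih h2 (by positivity)
          _ = _ := by ring
    have h3 : ‖p.coeff j‖ ≤ ‖p.leadingCoeff‖ * (p.roots.map (fun r => 1 + ‖r‖)).prod := by
      conv_lhs => rw [hp]
      rw [coeff_C_mul, norm_mul]
      gcongr
      exact coeff_prod_le _ _
    have h4 : ‖p.eval z‖ = ‖p.leadingCoeff‖
        * ‖(p.roots.map (fun r => X - C r)).prod.eval z‖ := by
      conv_lhs => rw [hp]
      rw [eval_mul, eval_C, norm_mul]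
    have h5 : 0 ≤ ((p.roots.map γ).map (fun γ => |Real.sin (β - γ)|)).prod := by
      apply Multiset.prod_nonneg
      intro x hx
      obtain ⟨r, -, rfl⟩ := Multiset.mem_map.1 hx
      positivity
    calc _ ≤ (‖p.leadingCoeff‖ * (p.roots.map (fun r => 1 + ‖r‖)).prod)
          * ((p.roots.map γ).map (fun γ => |Real.sin (β - γ)|)).prod := by gcongr
      _ = ‖p.leadingCoeff‖ * ((p.roots.map (fun r => 1 + ‖r‖)).prod
          * ((p.roots.map γ).map (fun γ => |Real.sin (β - γ)|)).prod) := by ring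
      _ ≤ ‖p.leadingCoeff‖ * (3 ^ Multiset.card p.roots
          * ‖(p.roots.map (fun r => X - C r)).prod.eval z‖) := by
            exact mul_le_mul_of_nonneg_left (key _) (norm_nonneg _)
      _ = _ := by rw [h4, hcard]; ring

/-! ### The moments of the sine -/

/-- The negative moment of the sine over one period. -/
noncomputable def I0 : ℝ≥0∞ := ∫⁻ x in Ioc 0 π, ‖Real.sin x‖ₑ ^ (-(1 / 2 : ℝ))

lemma I0_lt_top : I0 < ⊤ := by
  have hint : IntegrableOn (fun x : ℝ => x ^ (-(1 / 2) : ℝ) + (π - x) ^ (-(1 / 2) : ℝ))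
      (Ioc 0 π) := by
    apply Integrable.add
    · have := (intervalIntegral.intervalIntegrable_rpow' (a := 0) (b := π)
        (r := -(1 / 2 : ℝ)) (by norm_num))
      rwa [intervalIntegrable_iff_integrableOn_Ioc_of_le Real.pi_pos.le] at this
    · have := (intervalIntegral.intervalIntegrable_rpow' (a := π) (b := 0)
        (r := -(1 / 2 : ℝ)) (by norm_num)).comp_sub_left π
      simp only [sub_self, sub_zero] at this
      rwa [intervalIntegrable_iff_integrableOn_Ioc_of_le Real.pi_pos.le] at this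
  have h2 : ∫⁻ x in Ioc 0 π, ENNReal.ofReal
      ((2 / π) ^ (-(1 / 2) : ℝ) * (x ^ (-(1 / 2) : ℝ) + (π - x) ^ (-(1 / 2) : ℝ))) < ⊤ :=
    (hint.const_mul _).lintegral_lt_top
  refine lt_of_le_of_lt ?_ h2
  apply setLIntegral_mono_ae' measurableSet_Ioc
  have hne : ∀ᵐ x : ℝ, x ≠ π := by
    simp [ae_iff, measure_singleton]
  filter_upwards [hne] with x hxπ hx
  have hx0 : 0 < x := hx.1
  have hx1 : x < π := lt_of_le_of_ne hx.2 hxπ
  have hs : 0 < Real.sin x := Real.sin_pos_of_pos_of_lt_pi hx0 hx1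
  rw [Real.enorm_eq_ofReal hs.le, ENNReal.ofReal_rpow_of_pos hs]
  apply ENNReal.ofReal_le_ofReal
  have hp1 : 0 ≤ x ^ (-(1 / 2) : ℝ) := by positivity
  have hp2 : 0 ≤ (π - x) ^ (-(1 / 2) : ℝ) := Real.rpow_nonneg (by linarith) _
  have hc : 0 < (2 / π : ℝ) := by positivity
  rcases le_total x (π / 2) with h | h
  · have h3 : 2 / π * x ≤ Real.sin x := Real.mul_le_sin hx0.le h
    calc (Real.sin x) ^ (-(1 / 2) : ℝ) ≤ (2 / π * x) ^ (-(1 / 2) : ℝ) :=
          Real.rpow_le_rpow_of_nonpos (by positivity) h3 (by norm_num)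
      _ = (2 / π) ^ (-(1 / 2) : ℝ) * x ^ (-(1 / 2) : ℝ) := Real.mul_rpow hc.le hx0.le
      _ ≤ _ := by gcongr; linarith
  · have h3 : 2 / π * (π - x) ≤ Real.sin x := by
      rw [← Real.sin_pi_sub]
      exact Real.mul_le_sin (by linarith) (by linarith)
    calc (Real.sin x) ^ (-(1 / 2) : ℝ) ≤ (2 / π * (π - x)) ^ (-(1 / 2) : ℝ) :=
          Real.rpow_le_rpow_of_nonpos (mul_pos hc (by linarith)) h3 (by norm_num)
      _ = (2 / π) ^ (-(1 / 2) : ℝ) * (π - x) ^ (-(1 / 2) : ℝ) :=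
          Real.mul_rpow hc.le (by linarith)
      _ ≤ _ := by gcongr; linarith

lemma I0_shift (k : ℤ) :
    ∫⁻ x in Ioc (k * π) ((k + 1) * π), ‖Real.sin x‖ₑ ^ (-(1 / 2 : ℝ)) = I0 := by
  have h := (measurePreserving_add_right (volume : Measure ℝ) (k * π)).setLIntegral_comp_preimage
    (s := Ioc (k * π) ((k + 1) * π)) measurableSet_Ioc
    (f := fun x => ‖Real.sin x‖ₑ ^ (-(1 / 2 : ℝ))) (by fun_prop)
  rw [← h]
  have h2 : (fun x => x + (k : ℝ) * π) ⁻¹' Ioc (k * π) ((k + 1) * π) = Ioc 0 π := by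
    ext x; simp only [mem_preimage, mem_Ioc]
    constructor <;> intro ⟨h1, h2⟩ <;> constructor <;> nlinarith
  rw [h2, I0]
  apply lintegral_congr
  intro x
  congr 1
  rw [Real.sin_add_int_mul_pi]
  rw [enorm_mul]
  have : ‖((-1 : ℝ) ^ k)‖ₑ = 1 := by
    rw [← ofReal_norm, norm_zpow]; simp
  rw [this, one_mul]

lemma sin_moment : ∃ K : ℝ≥0∞, K < ⊤ ∧ ∀ γ ∈ Icc (-π) π,
    ∫⁻ β in Ioc 0 (2 * π), ‖Real.sin (β - γ)‖ₑ ^ (-(1 / 2 : ℝ)) ≤ K := by
  refine ⟨4 * I0, ENNReal.mul_lt_top (by simp) I0_lt_top, fun γ hγ => ?_⟩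
  have h := (measurePreserving_sub_right (volume : Measure ℝ) γ).setLIntegral_comp_preimage
    (s := Ioc (-γ) (2 * π - γ)) measurableSet_Ioc
    (f := fun x => ‖Real.sin x‖ₑ ^ (-(1 / 2 : ℝ))) (by fun_prop)
  have h2 : (fun x => x - γ) ⁻¹' Ioc (-γ) (2 * π - γ) = Ioc 0 (2 * π) := by
    ext x; simp only [mem_preimage, mem_Ioc]
    constructor <;> intro ⟨h1, h2⟩ <;> constructor <;> linarith
  rw [h2] at h
  rw [h]
  have h3 : Ioc (-γ) (2 * π - γ) ⊆ ((Ioc (((-1 : ℤ) : ℝ) * π) ((((-1 : ℤ) : ℝ) + 1) * π)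
      ∪ Ioc (((0 : ℤ) : ℝ) * π) ((((0 : ℤ) : ℝ) + 1) * π))
      ∪ Ioc (((1 : ℤ) : ℝ) * π) ((((1 : ℤ) : ℝ) + 1) * π))
      ∪ Ioc (((2 : ℤ) : ℝ) * π) ((((2 : ℤ) : ℝ) + 1) * π) := by
    intro x hx
    have := hγ.1; have := hγ.2; have := hx.1; have := hx.2
    simp only [mem_union, mem_Ioc]
    push_cast
    by_cases c1 : x ≤ 0
    · left; left; left; constructor <;> linarith
    · by_cases c2 : x ≤ π
      · left; left; right; constructor <;> linarith
      · by_cases c3 : x ≤ 2 * π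
        · left; right; constructor <;> linarith
        · right; constructor <;> linarith
  calc _ ≤ _ := lintegral_mono_set h3
    _ ≤ _ := (lintegral_union_le _ _ _).trans (add_le_add ((lintegral_union_le _ _ _).trans
      (add_le_add (lintegral_union_le _ _ _) le_rfl)) le_rfl)
    _ = 4 * I0 := by
      rw [I0_shift, I0_shift, I0_shift, I0_shift]; ring

/-- A bound of negative powers of a product of numbers from `[0,1]`. -/
lemma neg_prod_le (g : Multiset ℝ) (x : ℝ → ℝ) (hx : ∀ γ ∈ g, x γ ∈ Icc (0 : ℝ) 1) (n : ℕ)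
    (hn : Multiset.card g ≤ n) (κ : ℝ) (hnκ : n * κ ≤ 1 / 2) :
    ‖(g.map x).prod‖ₑ ^ (-κ) ≤ 1 + (g.map (fun γ => ‖x γ‖ₑ ^ (-(1 / 2 : ℝ)))).sum := by
  have h1 : ‖(g.map x).prod‖ₑ ^ (-κ) = (g.map (fun γ => ‖x γ‖ₑ ^ (-κ))).prod := by
    clear hn hx
    induction g using Multiset.induction_on with
    | empty => simp
    | cons a s ih =>
      simp only [Multiset.map_cons, Multiset.prod_cons, enorm_mul]
      rw [ENNReal.mul_rpow_of_ne_top enorm_ne_top enorm_ne_top, ih]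
  rw [h1]
  refine (prod_le_one_add_sum _ n (by simpa using hn)).trans ?_
  gcongr
  rw [Multiset.map_map]
  apply Multiset.sum_map_le_sum_map
  intro γ hγ
  simp only [Function.comp]
  rw [← ENNReal.rpow_natCast, ← ENNReal.rpow_mul]
  have h2 : ‖x γ‖ₑ ≤ 1 := by
    rw [Real.enorm_eq_ofReal (hx γ hγ).1]
    exact ENNReal.ofReal_le_one.2 (hx γ hγ).2
  apply ENNReal.rpow_le_rpow_of_exponent_ge h2
  nlinarith

/-- **Negative moments of polynomials on the circle.** -/
lemma circ_moment (n : ℕ) (κ : ℝ) (hκ : 0 < κ) (hnκ : n * κ ≤ 1 / 2) :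
    ∃ K : ℝ≥0∞, K < ⊤ ∧ ∀ p : ℂ[X], p.natDegree ≤ n → ∀ j : ℕ,
      ∫⁻ β in Ioc 0 (2 * π), ‖p.eval (Complex.exp (β * Complex.I))‖ₑ ^ (-κ)
        ≤ K * ‖p.coeff j‖ₑ ^ (-κ) := by
  obtain ⟨K₀, hK₀, hK⟩ := sin_moment
  refine ⟨(3 ^ n : ℝ≥0∞) ^ κ * (ENNReal.ofReal (2 * π) + n * K₀) + 1, ?_, ?_⟩
  · apply ENNReal.add_lt_top.2 ⟨?_, by simp⟩
    apply ENNReal.mul_lt_top
    · exact ENNReal.rpow_lt_top_of_nonneg hκ.le (by simp)
    · exact ENNReal.add_lt_top.2 ⟨ENNReal.ofReal_lt_top, ENNReal.mul_lt_top (by simp) hK₀⟩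
  intro p hp j
  obtain ⟨g, hg1, hg2, hg3⟩ := circ_lower p
  rcases eq_or_ne (p.coeff j) 0 with h0 | h0
  · rw [h0]
    simp only [enorm_zero]
    rw [ENNReal.zero_rpow_of_neg (by linarith)]
    rw [ENNReal.mul_top (by simp)]
    exact le_top
  have hpt : ∀ β : ℝ, ‖p.eval (Complex.exp (β * Complex.I))‖ₑ ^ (-κ)
      ≤ (3 ^ n : ℝ≥0∞) ^ κ * ‖p.coeff j‖ₑ ^ (-κ)
        * (1 + (g.map (fun γ => ‖Real.sin (β - γ)‖ₑ ^ (-(1 / 2 : ℝ)))).sum) := by
    intro β
    have h1 := hg3 β j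
    have h2 : ‖p.coeff j‖ₑ * ‖(g.map (fun γ => |Real.sin (β - γ)|)).prod‖ₑ
        ≤ 3 ^ n * ‖p.eval (Complex.exp (β * Complex.I))‖ₑ := by
      have h3 : ‖p.coeff j‖ * (g.map (fun γ => |Real.sin (β - γ)|)).prod
          ≤ 3 ^ n * ‖p.eval (Complex.exp (β * Complex.I))‖ := by
        refine h1.trans ?_
        gcongr
        norm_num
      have h4 : 0 ≤ (g.map (fun γ => |Real.sin (β - γ)|)).prod := by
        apply Multiset.prod_nonneg
        intro x hx
        obtain ⟨r, -, rfl⟩ := Multiset.mem_map.1 hx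
        positivity
      have h5 := ENNReal.ofReal_le_ofReal h3
      rw [ENNReal.ofReal_mul (norm_nonneg _), ENNReal.ofReal_mul (by positivity),
        ENNReal.ofReal_pow (by norm_num)] at h5
      rw [Real.enorm_eq_ofReal h4]
      simpa using h5
    have h6 : ((3 ^ n : ℝ≥0∞) * ‖p.eval (Complex.exp (β * Complex.I))‖ₑ) ^ (-κ)
        ≤ (‖p.coeff j‖ₑ * ‖(g.map (fun γ => |Real.sin (β - γ)|)).prod‖ₑ) ^ (-κ) :=
      neg_anti hκ.le h2
    have h7 : ‖(g.map (fun γ => |Real.sin (β - γ)|)).prod‖ₑ ^ (-κ)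
        ≤ 1 + (g.map (fun γ => ‖Real.sin (β - γ)‖ₑ ^ (-(1 / 2 : ℝ)))).sum := by
      have := neg_prod_le g (fun γ => |Real.sin (β - γ)|)
        (fun γ _ => ⟨abs_nonneg _, Real.abs_sin_le_one _⟩) n (hg1.trans hp) κ hnκ
      refine this.trans (le_of_eq ?_)
      congr 3
      ext γ
      congr 1
      rw [← Real.norm_eq_abs, enorm_norm]
    rw [ENNReal.mul_rpow_of_ne_top (by simp) enorm_ne_top,
      ENNReal.mul_rpow_of_ne_top enorm_ne_top enorm_ne_top] at h6
    have h8 : ((3 ^ n : ℝ≥0∞) ^ κ) * ((3 ^ n : ℝ≥0∞) ^ (-κ)) = 1 := by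
      rw [← ENNReal.rpow_add _ _ (by simp) (by simp)]; simp
    calc ‖p.eval (Complex.exp (β * Complex.I))‖ₑ ^ (-κ)
        = (3 ^ n : ℝ≥0∞) ^ κ * ((3 ^ n : ℝ≥0∞) ^ (-κ)
          * ‖p.eval (Complex.exp (β * Complex.I))‖ₑ ^ (-κ)) := by
          rw [← mul_assoc, h8, one_mul]
      _ ≤ (3 ^ n : ℝ≥0∞) ^ κ * (‖p.coeff j‖ₑ ^ (-κ)
          * ‖(g.map (fun γ => |Real.sin (β - γ)|)).prod‖ₑ ^ (-κ)) := by gcongr
      _ ≤ (3 ^ n : ℝ≥0∞) ^ κ * (‖p.coeff j‖ₑ ^ (-κ)
          * (1 + (g.map (fun γ => ‖Real.sin (β - γ)‖ₑ ^ (-(1 / 2 : ℝ)))).sum)) := by gcongr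
      _ = _ := by ring
  have hint : ∀ s : Multiset ℝ, (∀ γ ∈ s, γ ∈ Icc (-π) π) →
      ∫⁻ β in Ioc 0 (2 * π), (s.map (fun γ => ‖Real.sin (β - γ)‖ₑ ^ (-(1 / 2 : ℝ)))).sum
        ≤ Multiset.card s * K₀ := by
    intro s
    induction s using Multiset.induction_on with
    | empty => simp
    | cons a s ih =>
      intro hs
      simp only [Multiset.map_cons, Multiset.sum_cons, Multiset.card_cons]
      rw [lintegral_add_left (by fun_prop)]
      push_cast
      rw [add_mul, one_mul, add_comm]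
      gcongr
      · exact ih (fun γ hγ => hs γ (Multiset.mem_cons_of_mem hγ))
      · exact hK a (hs a (Multiset.mem_cons_self a s))
  calc _ ≤ ∫⁻ β in Ioc 0 (2 * π), (3 ^ n : ℝ≥0∞) ^ κ * ‖p.coeff j‖ₑ ^ (-κ)
        * (1 + (g.map (fun γ => ‖Real.sin (β - γ)‖ₑ ^ (-(1 / 2 : ℝ)))).sum) :=
        lintegral_mono hpt
    _ = (3 ^ n : ℝ≥0∞) ^ κ * ‖p.coeff j‖ₑ ^ (-κ) * (ENNReal.ofReal (2 * π)
        + ∫⁻ β in Ioc 0 (2 * π), (g.map (fun γ => ‖Real.sin (β - γ)‖ₑ ^ (-(1 / 2 : ℝ)))).sum) := by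
        rw [lintegral_const_mul', lintegral_add_left (by fun_prop)]
        · simp
        · apply ENNReal.mul_ne_top
          · exact (ENNReal.rpow_lt_top_of_nonneg hκ.le (by simp)).ne
          · apply ENNReal.rpow_ne_top_of_ne_zero
            · simpa using h0
            · simp
    _ ≤ (3 ^ n : ℝ≥0∞) ^ κ * ‖p.coeff j‖ₑ ^ (-κ) * (ENNReal.ofReal (2 * π) + n * K₀) := by
        gcongr
        refine (hint g hg2).trans ?_
        gcongr
        exact hg1.trans hp
    _ = (3 ^ n : ℝ≥0∞) ^ κ * (ENNReal.ofReal (2 * π) + n * K₀) * ‖p.coeff j‖ₑ ^ (-κ) := by ring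
    _ ≤ _ := by gcongr; exact le_self_add

end Pool.Agent.H309.SD
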