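import Pool.Agent.H309.SD.Kernel
import Pool.Agent.H309.SD.Flow
import Pool.Agent.H309.SD.Four

/-! The decay estimate. -/

open MeasureTheory Set FourierTransform
open scoped ENNReal Real ComplexConjugate

namespace Pool.Agent.H309.SD

/-- The forcing as a matrix. -/
noncomputable def nuM (dp : ℝ → ℝ) (ep : ℝ → ℂ) (t : ℝ) : Matrix (Fin 2) (Fin 2) ℂ :=
  !![(dp t : ℂ), conj (ep t); ep t, -(dp t : ℂ)]

lemma symbol_mulVec (dp : ℝ → ℝ) (ep : ℝ → ℂ) (s ξ : ℝ) (v : Fin 2 → ℂ) :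
    ((symbol (nuM dp ep) s ξ).mulVec v) 0
      = (-((2 * π * ξ : ℝ) : ℂ) + dp s) * v 0 + conj (ep s) * v 1 ∧
    ((symbol (nuM dp ep) s ξ).mulVec v) 1
      = ep s * v 0 + (((2 * π * ξ : ℝ) : ℂ) - dp s) * v 1 := by
  have hI : Complex.I * Complex.I = -1 := Complex.I_mul_I
  constructor
  · simp only [symbol, nuM, sigma3, Matrix.mulVec, dotProduct, Fin.sum_univ_two, Matrix.add_apply,
      Matrix.smul_apply, smul_eq_mul, Matrix.of_apply, Matrix.cons_val', Matrix.cons_val_zero,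
      Matrix.cons_val_one, Matrix.cons_val_fin_one]
    push_cast
    linear_combination (2 * π * ξ * v 0) * hI
  · simp only [symbol, nuM, sigma3, Matrix.mulVec, dotProduct, Fin.sum_univ_two, Matrix.add_apply,
      Matrix.smul_apply, smul_eq_mul, Matrix.of_apply, Matrix.cons_val', Matrix.cons_val_zero,
      Matrix.cons_val_one, Matrix.cons_val_fin_one]
    push_cast
    linear_combination (-(2 * π * ξ) * v 1) * hI

/-- Every solution is given by the propagator. -/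
lemma sol_eq {T : ℝ} {d : ℝ → ℝ} {e : ℝ → ℂ} {p q : ℝ → ℝ → ℂ} (P : Path T d e p q)
    {α : ℝ → Lp E2 2 (volume : Measure ℝ)} (hα : IsSolution (nuM (per T d) (per T e)) α) :
    ∀ t, 0 ≤ t → ∀ᵐ ξ : ℝ,
      (𝓕 (α t) : Lp E2 2 (volume : Measure ℝ)) ξ 0 = (pmul (UU T p q t (2 * π * ξ))
        ((𝓕 (α 0) : Lp E2 2 (volume : Measure ℝ)) ξ 0,
          (𝓕 (α 0) : Lp E2 2 (volume : Measure ℝ)) ξ 1)).1 ∧
      (𝓕 (α t) : Lp E2 2 (volume : Measure ℝ)) ξ 1 = (pmul (UU T p q t (2 * π * ξ))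
        ((𝓕 (α 0) : Lp E2 2 (volume : Measure ℝ)) ξ 0,
          (𝓕 (α 0) : Lp E2 2 (volume : Measure ℝ)) ξ 1)).2 := by
  obtain ⟨a, ha, hode⟩ := hα
  obtain ⟨K, hK⟩ := P.bd
  intro t ht
  filter_upwards [ha t ht, ha 0 le_rfl, hode] with ξ h1 h2 h3
  rw [h1, h2]
  obtain ⟨hc, hs⟩ := h3
  have hsys : Sys (per T d) (per T e) (2 * π * ξ) (fun t => a t ξ 0) (fun t => a t ξ 1) := by
    refine ⟨?_, ?_, fun t ht => ⟨?_, ?_⟩⟩
    · exact (EuclideanSpace.proj (𝕜 := ℂ) (0 : Fin 2) : E2 →L[ℂ] ℂ).continuous.comp_continuousOn hc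
    · exact (EuclideanSpace.proj (𝕜 := ℂ) (1 : Fin 2) : E2 →L[ℂ] ℂ).continuous.comp_continuousOn hc
    · rw [hs t ht 0]
      apply intervalIntegral.integral_congr
      intro s _
      exact (symbol_mulVec _ _ _ _ _).1
    · rw [hs t ht 1]
      apply intervalIntegral.integral_congr
      intro s _
      exact (symbol_mulVec _ _ _ _ _).2
  have hflow := flow_sys P (a 0 ξ 0, a 0 ξ 1) (2 * π * ξ)
  have h0 := UU_zero P (2 * π * ξ)
  exact sys_unique (K := K) (per_meas P.md) (per_meas P.me) (fun t => hK _) hsys hflow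
    (by simp [h0, pmul_one]) (by simp [h0, pmul_one]) t ht

/-- The powers of the period map. -/
lemma Un_formula {f g : ℝ → ℂ} (h : ∀ x, ‖f x‖ ^ 2 + ‖g x‖ ^ 2 = 1) {x : ℝ} (hD : 0 < DD f x)
    (n : ℕ) : Un f g n x =
      (((Real.sin ((n : ℝ) * Real.arccos (f x).re) / √(DD f x) : ℝ) : ℂ) * f x
        - ((Real.sin (((n : ℝ) - 1) * Real.arccos (f x).re) / √(DD f x) : ℝ) : ℂ),
      ((Real.sin ((n : ℝ) * Real.arccos (f x).re) / √(DD f x) : ℝ) : ℂ) * g x) := by
  have hle := (Complex.abs_re_le_norm (f x)).trans (unit_le (h x)).1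
  have hle' := abs_le.1 hle
  have hcos : Real.cos (Real.arccos (f x).re) = (f x).re := Real.cos_arccos hle'.1 hle'.2
  have hsin : Real.sin (Real.arccos (f x).re) = √(DD f x) := Real.sin_arccos _
  have hpos : 0 < √(DD f x) := Real.sqrt_pos.2 hD
  have hrec : ∀ m : ℝ, Real.sin ((m + 1) * Real.arccos (f x).re)
      = 2 * (f x).re * Real.sin (m * Real.arccos (f x).re)
        - Real.sin ((m - 1) * Real.arccos (f x).re) := by
    intro m
    rw [add_mul, sub_mul, one_mul, Real.sin_add, Real.sin_sub, hcos]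
    ring
  induction n with
  | zero =>
    simp only [Nat.cast_zero, zero_mul, Real.sin_zero, zero_div, Complex.ofReal_zero, zero_sub,
      neg_mul, one_mul, Real.sin_neg, hsin, Un]
    rw [neg_div, div_self hpos.ne']
    simp
  | succ n ih =>
    have hff : f x * conj (f x) + g x * conj (g x) = 1 := by
      rw [Complex.mul_conj, Complex.mul_conj, Complex.normSq_eq_norm_sq,
        Complex.normSq_eq_norm_sq, ← Complex.ofReal_add, h x, Complex.ofReal_one]
    have hre : f x + conj (f x) = 2 * ((f x).re : ℂ) := by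
      rw [Complex.add_conj]; push_cast; ring
    have hr := hrec n
    rw [Un, ih]
    push_cast at hr ⊢
    rw [add_sub_cancel_right]
    have hr2 : ((Real.sin (((n : ℝ) + 1) * Real.arccos (f x).re) / √(DD f x) : ℝ) : ℂ)
        = 2 * ((f x).re : ℂ) * ((Real.sin ((n : ℝ) * Real.arccos (f x).re) / √(DD f x) : ℝ) : ℂ)
          - ((Real.sin (((n : ℝ) - 1) * Real.arccos (f x).re) / √(DD f x) : ℝ) : ℂ) := by
      rw [hr]; push_cast; ring
    push_cast at hr2
    rw [hr2]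
    simp only [pmul]
    generalize (Complex.sin (↑n * ↑(Real.arccos (f x).re)) / ↑√(DD f x)) = r at *
    generalize (Complex.sin ((↑n - 1) * ↑(Real.arccos (f x).re)) / ↑√(DD f x)) = r' at *
    simp only [Prod.mk.injEq]
    constructor
    · linear_combination (-r) * hff + (r * f x) * hre
    · linear_combination (r * g x) * hre

/-- Continuity of the propagator in the frequency. -/
lemma UU_cont {T : ℝ} {d : ℝ → ℝ} {e : ℝ → ℂ} {p q : ℝ → ℝ → ℂ} (P : Path T d e p q)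
    {t : ℝ} (ht : 0 ≤ t) : Continuous (fun x => (UU T p q t x).1) ∧
      Continuous (fun x => (UU T p q t x).2) := by
  have hT := P.pos
  obtain ⟨K, hK⟩ := P.smooth
  obtain ⟨n, hn1, hn2⟩ := exists_period hT ht
  have hτ : t - n * T ∈ Icc 0 T := ⟨by linarith, by linarith⟩
  have kτ := hK _ hτ
  have kT := hK T ⟨hT.le, le_rfl⟩
  have hUn : ∀ m, Continuous (fun x => (Un (p T) (q T) m x).1) ∧
      Continuous (fun x => (Un (p T) (q T) m x).2) := by
    intro m
    have c1 := kT.1.continuous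
    have c2 := kT.2.continuous
    have c1' : Continuous (fun x => conj (p T x)) := Complex.continuous_conj.comp c1
    have c2' : Continuous (fun x => conj (q T x)) := Complex.continuous_conj.comp c2
    induction m with
    | zero => exact ⟨continuous_const, continuous_const⟩
    | succ m ih =>
      exact ⟨(c1.mul ih.1).sub (c2'.mul ih.2), (c2.mul ih.1).add (c1'.mul ih.2)⟩
  have hUx : ∀ x, UU T p q t x = pmul (p (t - n * T) x, q (t - n * T) x)
      (Un (p T) (q T) n x) := fun x => UU_eq P n t hn1 hn2.le x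
  simp only [hUx]
  have c1 := kτ.1.continuous
  have c2 := kτ.2.continuous
  have c1' : Continuous (fun x => conj (p (t - n * T) x)) := Complex.continuous_conj.comp c1
  have c2' : Continuous (fun x => conj (q (t - n * T) x)) := Complex.continuous_conj.comp c2
  exact ⟨(c1.mul (hUn n).1).sub (c2'.mul (hUn n).2),
    (c2.mul (hUn n).1).add (c1'.mul (hUn n).2)⟩

/-- **The decay of the entries of the propagator.** -/
lemma kernel_U {T : ℝ} {d : ℝ → ℝ} {e : ℝ → ℂ} {p q : ℝ → ℝ → ℂ} (P : Path T d e p q)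
    (hf : Smooth (p T)) {κ : ℝ} (hκ : 0 < κ)
    (hG : ∫⁻ x : ℝ, ENNReal.ofReal (wt x) * ‖GG (p T) x‖ₑ ^ (-κ) < ⊤)
    (hD : ∫⁻ x : ℝ, ENNReal.ofReal (wt x) * ‖DD (p T) x‖ₑ ^ (-κ) < ⊤) :
    ∃ C : ℝ, 0 < C ∧ ∀ t : ℝ, 0 < t → ∀ y : ℝ,
      ‖∫ x, (wt x : ℂ) * (UU T p q t x).1 * Complex.exp (Complex.I * ((y * x : ℝ) : ℂ))‖
        ≤ C * t ^ (-(min (κ / 12) (1 / 4))) ∧
      ‖∫ x, (wt x : ℂ) * (UU T p q t x).2 * Complex.exp (Complex.I * ((y * x : ℝ) : ℂ))‖
        ≤ C * t ^ (-(min (κ / 12) (1 / 4))) := by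
  have hT := P.pos
  obtain ⟨K, hK⟩ := P.smooth
  have hu := P.unit
  have huT : ∀ x, ‖p T x‖ ^ 2 + ‖q T x‖ ^ 2 = 1 := fun x => hu T ⟨hT.le, le_rfl⟩ x
  have hKn : 0 ≤ K := (hK 0 ⟨le_rfl, hT.le⟩).1.nonneg
  obtain ⟨C, hC, hker⟩ := kernel_bound hf (fun x => (unit_le (huT x)).1) hκ hG hD (4 * K)
  have hwint : Integrable wt := by
    refine ⟨wt_cont.aestronglyMeasurable, ?_⟩
    rw [hasFiniteIntegral_iff_enorm]
    refine lt_of_le_of_lt (lintegral_mono fun x => ?_) lint_inv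
    rw [Real.enorm_eq_ofReal (wt_pos x).le]
    apply ENNReal.ofReal_le_ofReal
    unfold wt
    have h1 : 1 ≤ 1 + x ^ 2 := by nlinarith [sq_nonneg x]
    exact inv_anti₀ (by positivity) (by nlinarith)
  set W := ∫ x, wt x with hW
  have hW0 : 0 ≤ W := integral_nonneg fun x => (wt_pos x).le
  set σ := min (κ / 12) (1 / 4) with hσ
  have hσ0 : 0 < σ := lt_min (by positivity) (by norm_num)
  refine ⟨(C + W) * (2 * T) ^ σ, by positivity, fun t ht y => ?_⟩
  have htriv : ∀ v : ℝ → ℂ, (∀ x, ‖v x‖ ≤ 1) →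
      ‖∫ x, (wt x : ℂ) * v x * Complex.exp (Complex.I * ((y * x : ℝ) : ℂ))‖ ≤ W := by
    intro v hv
    apply norm_integral_le_of_norm_le hwint
    filter_upwards with x
    rw [norm_mul, norm_mul, mul_comm Complex.I, Complex.norm_exp_ofReal_mul_I, mul_one,
      Complex.norm_real, Real.norm_eq_abs, abs_of_pos (wt_pos x)]
    exact mul_le_of_le_one_right (wt_pos x).le (hv x)
  have hUu := UU_unit P ht.le
  rcases lt_or_ge t (2 * T) with hsmall | hlarge
  · have h1 : 1 ≤ (2 * T) ^ σ * t ^ (-σ) := by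
      rw [Real.rpow_neg ht.le, ← div_eq_mul_inv, ← Real.div_rpow (by positivity) ht.le]
      apply Real.one_le_rpow _ hσ0.le
      rw [one_le_div ht]; exact hsmall.le
    have h2 : W ≤ (C + W) * (2 * T) ^ σ * t ^ (-σ) := by
      rw [mul_assoc]
      nlinarith
    exact ⟨(htriv _ fun x => (unit_le (hUu x)).1).trans h2,
      (htriv _ fun x => (unit_le (hUu x)).2).trans h2⟩
  · obtain ⟨n, hn1, hn2⟩ := exists_period hT ht.le
    have hn : 2 ≤ n := by
      by_contra hcon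
      have : (n : ℝ) ≤ 1 := by
        have : n ≤ 1 := by omega
        exact_mod_cast this
      nlinarith
    have hnr : (2 : ℝ) ≤ n := by exact_mod_cast hn
    have hn0 : (0 : ℝ) < n := by linarith
    have hbound : C * (n : ℝ) ^ (-σ) ≤ (C + W) * (2 * T) ^ σ * t ^ (-σ) := by
      have h1 : t / (2 * T) ≤ n := by
        rw [div_le_iff₀ (by positivity)]; nlinarith
      have h2 : (n : ℝ) ^ (-σ) ≤ (t / (2 * T)) ^ (-σ) :=
        Real.rpow_le_rpow_of_nonpos (by positivity) h1 (by linarith)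
      have h3 : (t / (2 * T)) ^ (-σ) = (2 * T) ^ σ * t ^ (-σ) := by
        rw [Real.div_rpow ht.le (by positivity), Real.rpow_neg (by positivity : 0 ≤ 2 * T)]
        rw [div_inv_eq_mul]; ring
      rw [h3] at h2
      have h4 : 0 ≤ (2 * T) ^ σ * t ^ (-σ) := by positivity
      calc C * (n : ℝ) ^ (-σ) ≤ C * ((2 * T) ^ σ * t ^ (-σ)) := by gcongr
        _ ≤ (C + W) * ((2 * T) ^ σ * t ^ (-σ)) := by gcongr; linarith
        _ = _ := by ring
    have hτ : t - n * T ∈ Icc 0 T := ⟨by linarith, by linarith⟩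
    have kτ := hK _ hτ
    have kT := hK T ⟨hT.le, le_rfl⟩
    have uτ : ∀ x, ‖p (t - n * T) x‖ ≤ 1 ∧ ‖q (t - n * T) x‖ ≤ 1 :=
      fun x => unit_le (hu _ hτ x)
    have uT : ∀ x, ‖p T x‖ ≤ 1 ∧ ‖q T x‖ ≤ 1 := fun x => unit_le (huT x)
    have hUn : ∀ m, Continuous (fun x => (Un (p T) (q T) m x).1) ∧
        Continuous (fun x => (Un (p T) (q T) m x).2) := by
      intro m
      have c1 := kT.1.continuous
      have c2 := kT.2.continuous
      have c1' : Continuous (fun x => conj (p T x)) := Complex.continuous_conj.comp c1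
      have c2' : Continuous (fun x => conj (q T x)) := Complex.continuous_conj.comp c2
      induction m with
      | zero => exact ⟨continuous_const, continuous_const⟩
      | succ m ih =>
        exact ⟨(c1.mul ih.1).sub (c2'.mul ih.2), (c2.mul ih.1).add (c1'.mul ih.2)⟩
    have hUx : ∀ x, UU T p q t x = pmul (p (t - n * T) x, q (t - n * T) x)
        (Un (p T) (q T) n x) := fun x => UU_eq P n t hn1 hn2.le x
    have hUc : Continuous (fun x => (UU T p q t x).1) ∧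
        Continuous (fun x => (UU T p q t x).2) := by
      simp only [hUx]
      have c1 := kτ.1.continuous
      have c2 := kτ.2.continuous
      have c1' : Continuous (fun x => conj (p (t - n * T) x)) := Complex.continuous_conj.comp c1
      have c2' : Continuous (fun x => conj (q (t - n * T) x)) := Complex.continuous_conj.comp c2
      exact ⟨(c1.mul (hUn n).1).sub (c2'.mul (hUn n).2),
        (c2.mul (hUn n).1).add (c1'.mul (hUn n).2)⟩
    have hprod : ∀ x, ‖(pmul (p (t - n * T) x, q (t - n * T) x) (p T x, q T x)).1‖ ≤ 1 ∧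
        ‖(pmul (p (t - n * T) x, q (t - n * T) x) (p T x, q T x)).2‖ ≤ 1 := fun x =>
      unit_le (pmul_unit (hu _ hτ x) (huT x))
    constructor
    · refine (hker n hn (fun x => (pmul (p (t - n * T) x, q (t - n * T) x) (p T x, q T x)).1)
        (fun x => p (t - n * T) x) (fun x => (UU T p q t x).1) ?_ (kτ.1.mono (by linarith))
        (fun x => (hprod x).1) (fun x => (uτ x).1) hUc.1 (fun x => (unit_le (hUu x)).1)
        ?_ y).trans hbound
      · exact ((kτ.1.mul kT.1 (fun x => (uτ x).1) (fun x => (uT x).1)).sub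
          ((kτ.2.conj).mul kT.2 (fun x => by simpa using (uτ x).2) (fun x => (uT x).2))).mono
          (by linarith)
      · intro x hx
        rw [hUx, Un_formula huT hx n]
        simp only [pmul]
        ring
    · refine (hker n hn (fun x => (pmul (p (t - n * T) x, q (t - n * T) x) (p T x, q T x)).2)
        (fun x => q (t - n * T) x) (fun x => (UU T p q t x).2) ?_ (kτ.2.mono (by linarith))
        (fun x => (hprod x).2) (fun x => (uτ x).2) hUc.2 (fun x => (unit_le (hUu x)).2)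
        ?_ y).trans hbound
      · exact ((kτ.2.mul kT.1 (fun x => (uτ x).2) (fun x => (uT x).1)).add
          ((kτ.1.conj).mul kT.2 (fun x => by simpa using (uτ x).1) (fun x => (uT x).2))).mono
          (by linarith)
      · intro x hx
        rw [hUx, Un_formula huT hx n]
        simp only [pmul]
        ring

lemma wt_integrable : Integrable wt := by
  refine ⟨wt_cont.aestronglyMeasurable, ?_⟩
  rw [hasFiniteIntegral_iff_enorm]
  refine lt_of_le_of_lt (lintegral_mono fun x => ?_) lint_inv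
  rw [Real.enorm_eq_ofReal (wt_pos x).le]
  apply ENNReal.ofReal_le_ofReal
  unfold wt
  have h1 : 1 ≤ 1 + x ^ 2 := by nlinarith [sq_nonneg x]
  exact inv_anti₀ (by positivity) (by nlinarith)

/-- The components of the inverse Fourier transform. -/
lemma fourierInv_comp (g : ℝ → E2) (hg : Integrable g) (X : ℝ) (i : Fin 2) :
    (𝓕⁻ g X) i = ∫ ξ : ℝ, Complex.exp ((2 * π * X * ξ : ℝ) * Complex.I) * (g ξ i) := by
  rw [Real.fourierInv_eq']
  have h1 : Integrable (fun v : ℝ => Complex.exp ((2 * π * (inner ℝ v X) : ℝ) * Complex.I)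
      • g v) := by
    apply hg.bdd_smul 1 (φ := fun v : ℝ =>
      Complex.exp ((2 * π * (inner ℝ v X) : ℝ) * Complex.I))
    · exact (by fun_prop : Continuous (fun v : ℝ =>
        Complex.exp ((2 * π * (inner ℝ v X) : ℝ) * Complex.I))).aestronglyMeasurable
    · exact Filter.Eventually.of_forall fun ξ => by rw [Complex.norm_exp_ofReal_mul_I]
  set L : E2 →L[ℂ] ℂ := EuclideanSpace.proj i with hL
  have h2 := L.integral_comp_comm h1
  have h3 : (∫ v : ℝ, Complex.exp ((2 * π * (inner ℝ v X) : ℝ) * Complex.I) • g v) i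
      = L (∫ v : ℝ, Complex.exp ((2 * π * (inner ℝ v X) : ℝ) * Complex.I) • g v) := rfl
  rw [h3, ← h2]
  apply integral_congr_ae
  filter_upwards with v
  change Complex.exp ((2 * π * (inner ℝ v X) : ℝ) * Complex.I) * (g v i) = _
  congr 4
  simp only [RCLike.inner_apply, conj_trivial]
  ring

/-- **The decay estimate.** -/
theorem decay {T : ℝ} {d : ℝ → ℝ} {e : ℝ → ℂ} {p q : ℝ → ℝ → ℂ} (P : Path T d e p q)
    (hf : Smooth (p T)) {κ : ℝ} (hκ : 0 < κ)
    (hG : ∫⁻ x : ℝ, ENNReal.ofReal (wt x) * ‖GG (p T) x‖ₑ ^ (-κ) < ⊤)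
    (hD : ∫⁻ x : ℝ, ENNReal.ofReal (wt x) * ‖DD (p T) x‖ₑ ^ (-κ) < ⊤) :
    DecayEstimate (nuM (per T d) (per T e)) 4 (min (κ / 12) (1 / 4)) := by
  obtain ⟨C, hC, hker⟩ := kernel_U P hf hκ hG hD
  set σ := min (κ / 12) (1 / 4) with hσ
  refine ⟨4 * C, fun α hα g hg hrel t ht => ?_⟩
  have hsol := sol_eq P hα t ht.le
  have hUu := UU_unit P ht.le
  obtain ⟨hc1, hc2⟩ := UU_cont P ht.le
  have hker' := hker t ht
  set M : ℝ := C * t ^ (-σ) with hM
  have hM0 : 0 < M := by positivity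
  -- the data
  have h0 : ∀ᵐ ξ : ℝ, ∀ i, (𝓕 (α 0) : Lp E2 2 (volume : Measure ℝ)) ξ i
      = (wt (2 * π * ξ) : ℂ) * 𝓕 (fun x => g x i) ξ := by
    filter_upwards [hrel] with ξ hξ i
    rw [← fourier_comp g hg ξ i, hξ]
    have e1 : ((1 + (2 * π * ξ) ^ 2) ^ ((4 : ℝ) / 2) : ℝ) = (1 + (2 * π * ξ) ^ 2) ^ 2 := by
      rw [show (4 : ℝ) / 2 = ((2 : ℕ) : ℝ) by norm_num, Real.rpow_natCast]
    rw [e1]
    rw [PiLp.smul_apply, smul_eq_mul]
    rw [← mul_assoc, ← Complex.ofReal_mul]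
    have e2 : wt (2 * π * ξ) * (1 + (2 * π * ξ) ^ 2) ^ 2 = 1 := by
      unfold wt
      exact inv_mul_cancel₀ (by positivity)
    rw [e2, Complex.ofReal_one, one_mul]
  set G : Fin 2 → ℝ → ℂ := fun i x => g x i with hGdef
  have hGi : ∀ i, Integrable (G i) := fun i => by
    have := (EuclideanSpace.proj (𝕜 := ℂ) i : E2 →L[ℂ] ℂ).integrable_comp hg
    exact this
  have hGn : ∀ i, ∫ x, ‖G i x‖ ≤ ∫ x, ‖g x‖ := by
    intro i
    apply integral_mono (hGi i).norm hg.norm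
    intro x
    exact PiLp.norm_apply_le (g x) i
  set A : ℝ → ℂ := fun ξ => (UU T p q t (2 * π * ξ)).1 with hA
  set B : ℝ → ℂ := fun ξ => (UU T p q t (2 * π * ξ)).2 with hB
  have cA : Continuous A := hc1.comp (by fun_prop)
  have cB : Continuous B := hc2.comp (by fun_prop)
  have nA : ∀ ξ, ‖A ξ‖ ≤ 1 := fun ξ => (unit_le (hUu _)).1
  have nB : ∀ ξ, ‖B ξ‖ ≤ 1 := fun ξ => (unit_le (hUu _)).2
  set w : ℝ → ℂ := fun ξ => (wt (2 * π * ξ) : ℂ) with hw
  have cw : Continuous w := by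
    have := wt_cont
    rw [hw]; fun_prop
  have hpi : (2 * π : ℝ) ≠ 0 := by positivity
  have iw : Integrable w := (wt_integrable.comp_mul_left' hpi).ofReal
  have hint : ∀ v : ℝ → ℂ, Continuous v → (∀ ξ, ‖v ξ‖ ≤ 1) → Integrable (fun ξ => w ξ * v ξ) := by
    intro v hv hv1
    apply iw.mono (cw.mul hv).aestronglyMeasurable
    filter_upwards with ξ
    change ‖w ξ * v ξ‖ ≤ ‖w ξ‖
    rw [norm_mul]
    exact mul_le_of_le_one_right (norm_nonneg _) (hv1 ξ)
  -- the bounds of the kernels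
  have hscale : ∀ (F : ℝ → ℂ) (y : ℝ),
      ∫ ξ : ℝ, (w ξ * F (2 * π * ξ)) * Complex.exp ((2 * π * y * ξ : ℝ) * Complex.I)
      = ((2 * π)⁻¹ : ℝ) • ∫ x, (wt x : ℂ) * F x * Complex.exp (Complex.I * ((y * x : ℝ) : ℂ)) := by
    intro F y
    have h1 := Measure.integral_comp_mul_left
      (fun x => (wt x : ℂ) * F x * Complex.exp (Complex.I * ((y * x : ℝ) : ℂ))) (2 * π)
    rw [abs_of_pos (by positivity)] at h1
    rw [← h1]
    apply integral_congr_ae
    filter_upwards with ξ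
    rw [hw]
    simp only
    congr 2
    push_cast
    ring
  have hscale' : ∀ (F : ℝ → ℂ) (y : ℝ),
      ‖∫ x, (wt x : ℂ) * F x * Complex.exp (Complex.I * ((y * x : ℝ) : ℂ))‖ ≤ M →
      ‖∫ ξ : ℝ, (w ξ * F (2 * π * ξ)) * Complex.exp ((2 * π * y * ξ : ℝ) * Complex.I)‖ ≤ M := by
    intro F y h
    rw [hscale, norm_smul, Real.norm_eq_abs, abs_of_pos (by positivity)]
    have h1 : (2 * π)⁻¹ ≤ 1 := inv_le_one_of_one_le₀ (by linarith [Real.pi_gt_three])
    calc (2 * π)⁻¹ * _ ≤ 1 * M := mul_le_mul h1 h (norm_nonneg _) (by norm_num)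
      _ = M := one_mul _
  have bA : ∀ y : ℝ, ‖∫ ξ : ℝ, (w ξ * A ξ)
      * Complex.exp ((2 * π * y * ξ : ℝ) * Complex.I)‖ ≤ M := fun y =>
    hscale' (fun x => (UU T p q t x).1) y (hker' y).1
  have bB : ∀ y : ℝ, ‖∫ ξ : ℝ, (w ξ * B ξ)
      * Complex.exp ((2 * π * y * ξ : ℝ) * Complex.I)‖ ≤ M := fun y =>
    hscale' (fun x => (UU T p q t x).2) y (hker' y).2
  have hconj : ∀ F : ℝ → ℂ, (∀ y : ℝ, ‖∫ ξ : ℝ, (w ξ * F ξ)
      * Complex.exp ((2 * π * y * ξ : ℝ) * Complex.I)‖ ≤ M) →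
      ∀ y : ℝ, ‖∫ ξ : ℝ, (w ξ * conj (F ξ))
      * Complex.exp ((2 * π * y * ξ : ℝ) * Complex.I)‖ ≤ M := by
    intro F hF y
    have h1 := hF (-y)
    rw [← Complex.norm_conj, ← integral_conj] at h1
    have e2 : ∀ ξ : ℝ, conj ((w ξ * F ξ) * Complex.exp ((2 * π * (-y) * ξ : ℝ) * Complex.I))
        = (w ξ * conj (F ξ)) * Complex.exp ((2 * π * y * ξ : ℝ) * Complex.I) := by
      intro ξ
      rw [map_mul, map_mul, ← Complex.exp_conj]
      have e1 : conj (w ξ) = w ξ := by rw [hw]; simp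
      rw [e1]
      congr 2
      rw [map_mul, Complex.conj_ofReal, Complex.conj_I]
      push_cast
      ring
    simp only [e2] at h1
    exact h1
  have bA' := hconj A bA
  have bB' := hconj B bB
  -- the Fourier transform of the solution
  have hft : ∀ᵐ ξ : ℝ, (𝓕 (α t) : Lp E2 2 (volume : Measure ℝ)) ξ 0
        = (w ξ * A ξ) * 𝓕 (G 0) ξ - (w ξ * conj (B ξ)) * 𝓕 (G 1) ξ ∧
      (𝓕 (α t) : Lp E2 2 (volume : Measure ℝ)) ξ 1
        = (w ξ * B ξ) * 𝓕 (G 0) ξ + (w ξ * conj (A ξ)) * 𝓕 (G 1) ξ := by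
    filter_upwards [hsol, h0] with ξ h1 h2
    rw [h1.1, h1.2, h2 0, h2 1]
    simp only [pmul]
    constructor
    · simp only [hA, hB, hw, hGdef]; ring
    · simp only [hA, hB, hw, hGdef]; ring
  have iG : ∀ (v : ℝ → ℂ), Continuous v → (∀ ξ, ‖v ξ‖ ≤ 1) → ∀ i,
      Integrable (fun ξ => (w ξ * v ξ) * 𝓕 (G i) ξ) := by
    intro v hv hv1 i
    have hb : ∀ ξ, ‖𝓕 (G i) ξ‖ ≤ ∫ x, ‖G i x‖ := fun ξ =>
      VectorFourier.norm_fourierIntegral_le_integral_norm _ _ _ _ _
    have hc : Continuous (𝓕 (G i)) := VectorFourier.fourierIntegral_continuous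
      Real.continuous_fourierChar continuous_inner (hGi i)
    exact (hint v hv hv1).mul_bdd hc.aestronglyMeasurable (Filter.Eventually.of_forall hb)
  have cA' : Continuous (fun ξ => conj (A ξ)) := Complex.continuous_conj.comp cA
  have cB' : Continuous (fun ξ => conj (B ξ)) := Complex.continuous_conj.comp cB
  have nA' : ∀ ξ, ‖conj (A ξ)‖ ≤ 1 := fun ξ => by rw [Complex.norm_conj]; exact nA ξ
  have nB' : ∀ ξ, ‖conj (B ξ)‖ ≤ 1 := fun ξ => by rw [Complex.norm_conj]; exact nB ξ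
  set H : ℝ → E2 := fun ξ => !₂[(w ξ * A ξ) * 𝓕 (G 0) ξ - (w ξ * conj (B ξ)) * 𝓕 (G 1) ξ,
    (w ξ * B ξ) * 𝓕 (G 0) ξ + (w ξ * conj (A ξ)) * 𝓕 (G 1) ξ] with hH
  have hHint : Integrable H := by
    apply Integrable.of_eval_piLp
    intro i
    fin_cases i
    · exact (iG A cA nA 0).sub (iG _ cB' nB' 1)
    · exact (iG B cB nB 0).add (iG _ cA' nA' 1)
  have hHft : (𝓕 (α t) : Lp E2 2 (volume : Measure ℝ)) =ᵐ[volume] H := by
    filter_upwards [hft] with ξ h1
    ext i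
    fin_cases i
    · exact h1.1
    · exact h1.2
  have hinv := inv_ae hHint hHft
  -- the pointwise bound
  have hexp : ∀ (v : ℝ → ℂ) (X : ℝ), Integrable v → Integrable (fun ξ : ℝ =>
      Complex.exp ((2 * π * X * ξ : ℝ) * Complex.I) * v ξ) := by
    intro v X hv
    apply hv.bdd_mul (c := 1) (f := fun ξ : ℝ =>
      Complex.exp ((2 * π * X * ξ : ℝ) * Complex.I)) (by fun_prop)
    exact Filter.Eventually.of_forall fun ξ => by rw [Complex.norm_exp_ofReal_mul_I]
  have hI0 : 0 ≤ ∫ x, ‖g x‖ := integral_nonneg fun x => norm_nonneg _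
  have hpt : ∀ X : ℝ, ‖𝓕⁻ H X‖ ≤ 4 * M * ∫ x, ‖g x‖ := by
    intro X
    have hc := fun (v : ℝ → ℂ) (hv : Continuous v) (hv1 : ∀ ξ, ‖v ξ‖ ≤ 1)
      (hb : ∀ y : ℝ, ‖∫ ξ : ℝ, (w ξ * v ξ) * Complex.exp ((2 * π * y * ξ : ℝ) * Complex.I)‖ ≤ M)
      (i : Fin 2) => (conv_bound (hint v hv hv1) (hGi i) hb X).trans
        (mul_le_mul_of_nonneg_left (hGn i) hM0.le)
    have e0 : ‖(𝓕⁻ H X) 0‖ ≤ 2 * (M * ∫ x, ‖g x‖) := by
      rw [fourierInv_comp H hHint X 0]
      have : ∫ ξ : ℝ, Complex.exp ((2 * π * X * ξ : ℝ) * Complex.I) * (H ξ 0)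
          = (∫ ξ : ℝ, Complex.exp ((2 * π * X * ξ : ℝ) * Complex.I)
            * ((w ξ * A ξ) * 𝓕 (G 0) ξ))
            - ∫ ξ : ℝ, Complex.exp ((2 * π * X * ξ : ℝ) * Complex.I)
            * ((w ξ * conj (B ξ)) * 𝓕 (G 1) ξ) := by
        rw [← integral_sub (hexp _ X (iG A cA nA 0)) (hexp _ X (iG _ cB' nB' 1))]
        apply integral_congr_ae
        filter_upwards with ξ
        rw [← mul_sub]
        rfl
      rw [this]
      refine (norm_sub_le _ _).trans ?_
      have h1 := hc A cA nA bA 0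
      have h2 := hc _ cB' nB' bB' 1
      linarith
    have e1 : ‖(𝓕⁻ H X) 1‖ ≤ 2 * (M * ∫ x, ‖g x‖) := by
      rw [fourierInv_comp H hHint X 1]
      have : ∫ ξ : ℝ, Complex.exp ((2 * π * X * ξ : ℝ) * Complex.I) * (H ξ 1)
          = (∫ ξ : ℝ, Complex.exp ((2 * π * X * ξ : ℝ) * Complex.I)
            * ((w ξ * B ξ) * 𝓕 (G 0) ξ))
            + ∫ ξ : ℝ, Complex.exp ((2 * π * X * ξ : ℝ) * Complex.I)
            * ((w ξ * conj (A ξ)) * 𝓕 (G 1) ξ) := by
        rw [← integral_add (hexp _ X (iG B cB nB 0)) (hexp _ X (iG _ cA' nA' 1))]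
        apply integral_congr_ae
        filter_upwards with ξ
        rw [← mul_add]
        rfl
      rw [this]
      refine (norm_add_le _ _).trans ?_
      have h1 := hc B cB nB bB 0
      have h2 := hc _ cA' nA' bA' 1
      linarith
    have e2 : ‖𝓕⁻ H X‖ ≤ ‖(𝓕⁻ H X) 0‖ + ‖(𝓕⁻ H X) 1‖ := by
      rw [EuclideanSpace.norm_eq, Fin.sum_univ_two]
      apply Real.sqrt_le_iff.2
      refine ⟨by positivity, ?_⟩
      nlinarith [norm_nonneg ((𝓕⁻ H X) 0), norm_nonneg ((𝓕⁻ H X) 1)]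
    linarith
  have hae : ∀ᵐ X : ℝ, ‖α t X‖ ≤ 4 * M * ∫ x, ‖g x‖ := by
    filter_upwards [hinv] with X hX
    rw [hX]; exact hpt X
  rw [eLpNorm_exponent_top]
  refine (eLpNormEssSup_le_of_ae_bound hae).trans (le_of_eq ?_)
  rw [eLpNorm_one_eq_lintegral_enorm, ← ofReal_integral_norm_eq_lintegral_enorm hg,
    ← ENNReal.ofReal_mul (by positivity)]
  congr 2
  rw [hM, Real.rpow_neg ht.le]
  ring

end Pool.Agent.H309.SD
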